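import Pool.Agent.MP_646035_al.Growth

-- part MP_e37573_al.Basic
section

/-!
The group `SL(2, ℂ)` with explicit entries, its entrywise norm, and cocompact discrete subgroups.
-/

namespace Pool.Agent.MP_e37573_al

@[ext] structure SL where
  a : ℂ
  b : ℂ
  c : ℂ
  d : ℂ
  det : a * d - b * c = 1

namespace SL

instance : Mul SL := ⟨fun g h => ⟨g.a * h.a + g.b * h.c, g.a * h.b + g.b * h.d,
  g.c * h.a + g.d * h.c, g.c * h.b + g.d * h.d, by
    linear_combination (h.a * h.d - h.b * h.c) * g.det + h.det⟩⟩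
instance : One SL := ⟨⟨1, 0, 0, 1, by ring⟩⟩
instance : Inv SL := ⟨fun g => ⟨g.d, -g.b, -g.c, g.a, by linear_combination g.det⟩⟩
instance : Neg SL := ⟨fun g => ⟨-g.a, -g.b, -g.c, -g.d, by linear_combination g.det⟩⟩

@[simp] lemma mul_a (g h : SL) : (g * h).a = g.a * h.a + g.b * h.c := rfl
@[simp] lemma mul_b (g h : SL) : (g * h).b = g.a * h.b + g.b * h.d := rfl
@[simp] lemma mul_c (g h : SL) : (g * h).c = g.c * h.a + g.d * h.c := rfl
@[simp] lemma mul_d (g h : SL) : (g * h).d = g.c * h.b + g.d * h.d := rfl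
@[simp] lemma one_a : (1 : SL).a = 1 := rfl
@[simp] lemma one_b : (1 : SL).b = 0 := rfl
@[simp] lemma one_c : (1 : SL).c = 0 := rfl
@[simp] lemma one_d : (1 : SL).d = 1 := rfl
@[simp] lemma inv_a (g : SL) : (g⁻¹).a = g.d := rfl
@[simp] lemma inv_b (g : SL) : (g⁻¹).b = -g.b := rfl
@[simp] lemma inv_c (g : SL) : (g⁻¹).c = -g.c := rfl
@[simp] lemma inv_d (g : SL) : (g⁻¹).d = g.a := rfl
@[simp] lemma neg_a (g : SL) : (-g).a = -g.a := rfl
@[simp] lemma neg_b (g : SL) : (-g).b = -g.b := rfl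
@[simp] lemma neg_c (g : SL) : (-g).c = -g.c := rfl
@[simp] lemma neg_d (g : SL) : (-g).d = -g.d := rfl

instance : Group SL := Group.ofLeftAxioms
  (fun g h k => by ext <;> simp <;> ring)
  (fun g => by ext <;> simp)
  (fun g => by
    ext
    · simp; linear_combination g.det
    · simp; ring
    · simp; ring
    · simp; linear_combination g.det)

instance : HasDistribNeg SL where
  neg_neg g := by ext <;> simp
  neg_mul g h := by ext <;> simp <;> ring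
  mul_neg g h := by ext <;> simp <;> ring

lemma inv_neg' (g : SL) : (-g)⁻¹ = -g⁻¹ := by ext <;> simp

/-- entrywise norm -/
noncomputable def nm (g : SL) : ℝ := ‖g.a‖ + ‖g.b‖ + ‖g.c‖ + ‖g.d‖

/-- entrywise distance -/
noncomputable def dd (g h : SL) : ℝ := ‖g.a - h.a‖ + ‖g.b - h.b‖ + ‖g.c - h.c‖ + ‖g.d - h.d‖

def tr (g : SL) : ℂ := g.a + g.d

lemma prod4 (a b c d a' b' c' d' : ℂ) :
    ‖a * a' + b * c'‖ + ‖a * b' + b * d'‖ + ‖c * a' + d * c'‖ + ‖c * b' + d * d'‖ ≤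
      (‖a‖ + ‖b‖ + ‖c‖ + ‖d‖) * (‖a'‖ + ‖b'‖ + ‖c'‖ + ‖d'‖) := by
  have k : ∀ x y z w : ℂ, ‖x * y + z * w‖ ≤ ‖x‖ * ‖y‖ + ‖z‖ * ‖w‖ := fun x y z w => by
    simpa only [norm_mul] using norm_add_le (x * y) (z * w)
  have h1 := k a a' b c'
  have h2 := k a b' b d'
  have h3 := k c a' d c'
  have h4 := k c b' d d'
  have := norm_nonneg a; have := norm_nonneg b; have := norm_nonneg c; have := norm_nonneg d
  have := norm_nonneg a'; have := norm_nonneg b'; have := norm_nonneg c'; have := norm_nonneg d'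
  have : 0 ≤ (‖a‖ + ‖c‖) * (‖c'‖ + ‖d'‖) + (‖b‖ + ‖d‖) * (‖a'‖ + ‖b'‖) := by positivity
  nlinarith

lemma nm_nonneg (g : SL) : 0 ≤ nm g := by unfold nm; positivity
lemma dd_nonneg (g h : SL) : 0 ≤ dd g h := by unfold dd; positivity

lemma nm_mul (g h : SL) : nm (g * h) ≤ nm g * nm h := prod4 _ _ _ _ _ _ _ _

@[simp] lemma nm_inv (g : SL) : nm g⁻¹ = nm g := by simp [nm]; ring
@[simp] lemma nm_neg (g : SL) : nm (-g) = nm g := by simp [nm]
@[simp] lemma nm_one : nm 1 = 2 := by simp [nm]; norm_num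

lemma a_le (g : SL) : ‖g.a‖ ≤ nm g := by
  unfold nm; have := norm_nonneg g.b; have := norm_nonneg g.c; have := norm_nonneg g.d; linarith
lemma b_le (g : SL) : ‖g.b‖ ≤ nm g := by
  unfold nm; have := norm_nonneg g.a; have := norm_nonneg g.c; have := norm_nonneg g.d; linarith
lemma c_le (g : SL) : ‖g.c‖ ≤ nm g := by
  unfold nm; have := norm_nonneg g.a; have := norm_nonneg g.b; have := norm_nonneg g.d; linarith
lemma d_le (g : SL) : ‖g.d‖ ≤ nm g := by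
  unfold nm; have := norm_nonneg g.a; have := norm_nonneg g.b; have := norm_nonneg g.c; linarith

lemma tr_le (g : SL) : ‖tr g‖ ≤ nm g := by
  have := norm_add_le g.a g.d
  unfold nm tr; have := norm_nonneg g.b; have := norm_nonneg g.c; linarith

lemma one_le_nm (g : SL) : 1 ≤ nm g := by
  have h : (1 : ℝ) ≤ ‖g.a‖ * ‖g.d‖ + ‖g.b‖ * ‖g.c‖ := by
    have := norm_sub_le (g.a * g.d) (g.b * g.c)
    rwa [g.det, norm_one, norm_mul, norm_mul] at this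
  by_contra hc
  push Not at hc
  have := a_le g; have := b_le g; have := c_le g; have := d_le g
  have := norm_nonneg g.a; have := norm_nonneg g.b; have := norm_nonneg g.c; have := norm_nonneg g.d
  unfold nm at hc
  nlinarith

lemma nm_mul3 (g h k : SL) : nm (g * h * k) ≤ nm g * nm h * nm k :=
  (nm_mul _ _).trans (mul_le_mul_of_nonneg_right (nm_mul _ _) (nm_nonneg _))

lemma dd_mul_right (g h k : SL) : dd (g * k) (h * k) ≤ dd g h * nm k := by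
  have := prod4 (g.a - h.a) (g.b - h.b) (g.c - h.c) (g.d - h.d) k.a k.b k.c k.d
  unfold dd nm
  convert this using 5 <;> simp <;> ring

lemma dd_mul_left (g h k : SL) : dd (k * g) (k * h) ≤ nm k * dd g h := by
  have := prod4 k.a k.b k.c k.d (g.a - h.a) (g.b - h.b) (g.c - h.c) (g.d - h.d)
  unfold dd nm
  convert this using 5 <;> simp <;> ring

lemma dd_comm (g h : SL) : dd g h = dd h g := by
  unfold dd; rw [norm_sub_rev g.a, norm_sub_rev g.b, norm_sub_rev g.c, norm_sub_rev g.d]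

lemma nm_le_dd (g : SL) : nm g ≤ dd g 1 + 2 := by
  have h1 := norm_add_le (g.a - 1) 1
  have h2 := norm_add_le (g.d - 1) 1
  simp only [sub_add_cancel, norm_one] at h1 h2
  simp only [nm, dd, one_a, one_b, one_c, one_d, sub_zero]
  linarith

lemma dd_conj (h g : SL) : dd (h * g * h⁻¹) 1 ≤ nm h ^ 2 * dd g 1 := by
  have h1 := dd_mul_right (h * g) h h⁻¹
  have h2 := dd_mul_left g 1 h
  rw [mul_inv_cancel, nm_inv] at h1
  rw [mul_one] at h2
  have := nm_nonneg h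
  calc _ ≤ dd (h * g) h * nm h := h1
    _ ≤ nm h * dd g 1 * nm h := by gcongr
    _ = _ := by ring

lemma dd_comm_le (g h : SL) : dd (g * h) (h * g) ≤ 2 * dd g 1 * dd h 1 := by
  have h1 := prod4 (g.a - 1) g.b g.c (g.d - 1) (h.a - 1) h.b h.c (h.d - 1)
  have h2 := prod4 (h.a - 1) h.b h.c (h.d - 1) (g.a - 1) g.b g.c (g.d - 1)
  have e1 := norm_sub_le ((g.a - 1) * (h.a - 1) + g.b * h.c) ((h.a - 1) * (g.a - 1) + h.b * g.c)
  have e2 := norm_sub_le ((g.a - 1) * h.b + g.b * (h.d - 1)) ((h.a - 1) * g.b + h.b * (g.d - 1))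
  have e3 := norm_sub_le (g.c * (h.a - 1) + (g.d - 1) * h.c) (h.c * (g.a - 1) + (h.d - 1) * g.c)
  have e4 := norm_sub_le (g.c * h.b + (g.d - 1) * (h.d - 1)) (h.c * g.b + (h.d - 1) * (g.d - 1))
  have f1 : (g * h).a - (h * g).a =
    (g.a - 1) * (h.a - 1) + g.b * h.c - ((h.a - 1) * (g.a - 1) + h.b * g.c) := by simp; ring
  have f2 : (g * h).b - (h * g).b =
    (g.a - 1) * h.b + g.b * (h.d - 1) - ((h.a - 1) * g.b + h.b * (g.d - 1)) := by simp; ring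
  have f3 : (g * h).c - (h * g).c =
    g.c * (h.a - 1) + (g.d - 1) * h.c - (h.c * (g.a - 1) + (h.d - 1) * g.c) := by simp; ring
  have f4 : (g * h).d - (h * g).d =
    g.c * h.b + (g.d - 1) * (h.d - 1) - (h.c * g.b + (h.d - 1) * (g.d - 1)) := by simp; ring
  simp only [dd, f1, f2, f3, f4, one_a, one_b, one_c, one_d, sub_zero]
  nlinarith

lemma tr_conj (h g : SL) : tr (h * g * h⁻¹) = tr g := by
  simp [tr]; linear_combination (g.a + g.d) * h.det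

lemma tr_neg (g : SL) : tr (-g) = -tr g := by simp [tr]; ring

lemma tr_inv (g : SL) : tr g⁻¹ = tr g := by simp [tr]; ring

lemma neg_ne_self (g : SL) : -g ≠ g := by
  intro h
  have ha : g.a = 0 := by have := congrArg SL.a h; simp at this; linear_combination -this / 2
  have hb : g.b = 0 := by have := congrArg SL.b h; simp at this; linear_combination -this / 2
  have := g.det
  rw [ha, hb] at this
  simp at this

/-- diagonal matrices -/
noncomputable def diag (x : ℂ) (hx : x ≠ 0) : SL := ⟨x, 0, 0, x⁻¹, by field_simp; ring⟩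

@[simp] lemma diag_a (x : ℂ) (hx : x ≠ 0) : (diag x hx).a = x := rfl
@[simp] lemma diag_b (x : ℂ) (hx : x ≠ 0) : (diag x hx).b = 0 := rfl
@[simp] lemma diag_c (x : ℂ) (hx : x ≠ 0) : (diag x hx).c = 0 := rfl
@[simp] lemma diag_d (x : ℂ) (hx : x ≠ 0) : (diag x hx).d = x⁻¹ := rfl

def IsDiag (g : SL) : Prop := g.b = 0 ∧ g.c = 0

lemma IsDiag.mul {g h : SL} (hg : IsDiag g) (hh : IsDiag h) : IsDiag (g * h) := by
  constructor <;> simp [hg.1, hg.2, hh.1, hh.2]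

lemma IsDiag.inv {g : SL} (hg : IsDiag g) : IsDiag g⁻¹ := by
  constructor <;> simp [hg.1, hg.2]

lemma isDiag_one : IsDiag 1 := ⟨rfl, rfl⟩

lemma IsDiag.ad {g : SL} (hg : IsDiag g) : g.a * g.d = 1 := by
  have := g.det; rw [hg.1] at this; simpa using this

/-- Scaling the off-diagonal entries by a diagonal conjugation. -/
lemma exists_scale (s : ℝ) (hs : 0 < s) : ∃ k : SL, IsDiag k ∧ ∀ g : SL,
    (k * g * k⁻¹).a = g.a ∧ (k * g * k⁻¹).d = g.d ∧ (k * g * k⁻¹).b = s * g.b ∧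
      (k * g * k⁻¹).c = (s : ℂ)⁻¹ * g.c := by
  have h0 : ((Real.sqrt s : ℝ) : ℂ) ≠ 0 := by exact_mod_cast (Real.sqrt_pos.2 hs).ne'
  have h1 : ((Real.sqrt s : ℝ) : ℂ) * ((Real.sqrt s : ℝ) : ℂ) = s := by
    exact_mod_cast Real.mul_self_sqrt hs.le
  refine ⟨diag _ h0, ⟨rfl, rfl⟩, fun g => ⟨?_, ?_, ?_, ?_⟩⟩
  · simp; field_simp
  · simp; field_simp
  · simp; rw [← h1]; ring
  · simp; rw [← h1]; field_simp

lemma exists_balance {x y δ : ℝ} (hx : 0 ≤ x) (hy : 0 ≤ y) (hδ : 0 < δ) (h : x * y ≤ δ ^ 2) :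
    ∃ s : ℝ, 0 < s ∧ s * x ≤ δ ∧ s⁻¹ * y ≤ δ := by
  rcases hx.eq_or_lt with rfl | hx
  · refine ⟨(y + 1) / δ, by positivity, by simp [hδ.le], ?_⟩
    rw [inv_div, div_mul_eq_mul_div, div_le_iff₀ (by positivity)]
    nlinarith
  · refine ⟨δ / x, by positivity, by field_simp; rfl, ?_⟩
    rw [inv_div, div_mul_eq_mul_div, div_le_iff₀ hδ]
    nlinarith

/-- Triangularisation with a bounded conjugating matrix. -/
lemma schur (g : SL) : ∃ p : SL, nm p ≤ 3 ∧ (p * g * p⁻¹).c = 0 := by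
  by_cases hc : g.c = 0
  · exact ⟨1, by simp; norm_num, by simpa using hc⟩
  obtain ⟨r, hr⟩ := IsAlgClosed.exists_pow_nat_eq ((g.a + g.d) ^ 2 - 4 : ℂ) (n := 2) two_pos
  set μ := (g.a + g.d + r) / 2 with hμ
  have hq : μ ^ 2 - (g.a + g.d) * μ + 1 = 0 := by rw [hμ]; linear_combination hr / 4
  have hd := g.det
  clear_value μ
  rcases le_total ‖g.c‖ ‖μ - g.d‖ with h | h
  · have hne : μ - g.d ≠ 0 := by
      intro h0; rw [h0, norm_zero] at h; exact hc (norm_le_zero_iff.1 h)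
    refine ⟨⟨1, 0, -(g.c / (μ - g.d)), 1, by ring⟩, ?_, ?_⟩
    · have : ‖g.c / (μ - g.d)‖ ≤ 1 := by
        rw [norm_div]; exact div_le_one_of_le₀ h (norm_nonneg _)
      simp only [nm, norm_one, norm_zero, norm_neg]; linarith
    · simp only [mul_c, mul_d, inv_a, inv_c]
      field_simp
      linear_combination g.c * hq + g.c * hd
  · refine ⟨⟨0, 1, -1, (μ - g.d) / g.c, by ring⟩, ?_, ?_⟩
    · have : ‖(μ - g.d) / g.c‖ ≤ 1 := by
        rw [norm_div]; exact div_le_one_of_le₀ h (norm_nonneg _)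
      simp only [nm, norm_one, norm_zero, norm_neg]; linarith
    · simp only [mul_c, mul_d, inv_a, inv_c]
      field_simp
      linear_combination hq + hd

lemma diagonalize (g : SL) (h : tr g ^ 2 ≠ 4) : ∃ p : SL, IsDiag (p * g * p⁻¹) := by
  obtain ⟨p, -, hp⟩ := schur g
  set u := p * g * p⁻¹ with hu
  have ht : tr u = tr g := tr_conj p g
  have hd := u.det
  rw [hp] at hd
  have hne : u.a - u.d ≠ 0 := by
    intro h0
    apply h
    rw [← ht, tr]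
    linear_combination (u.a - u.d) * h0 + 4 * hd
  refine ⟨⟨1, u.b / (u.a - u.d), 0, 1, by ring⟩ * p, ?_⟩
  have : ∀ q : SL, q * p * g * (q * p)⁻¹ = q * u * q⁻¹ := fun q => by rw [hu]; group
  rw [this]
  constructor
  · simp [hp]; field_simp; ring
  · simp [hp]

lemma isDiag_of_comm {f g : SL} (hf : IsDiag f) (ht : tr f ^ 2 ≠ 4) (h : f * g = g * f) :
    IsDiag g := by
  have hne : f.a - f.d ≠ 0 := by
    intro h0
    apply ht
    rw [tr]
    linear_combination (f.a - f.d) * h0 + 4 * hf.ad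
  have h1 := congrArg SL.b h
  have h2 := congrArg SL.c h
  simp [hf.1, hf.2] at h1 h2
  constructor
  · apply mul_left_cancel₀ hne; linear_combination h1
  · apply mul_left_cancel₀ hne; linear_combination -h2

lemma IsDiag.comm {f g : SL} (hf : IsDiag f) (hg : IsDiag g) : f * g = g * f := by
  ext <;> simp [hf.1, hf.2, hg.1, hg.2] <;> ring

end SL

end Pool.Agent.MP_e37573_al

end

-- part MP_e37573_al.Zass
section

/-!
The Zassenhaus argument and a uniform Shimizu-Joergensen type lemma.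
-/

namespace Pool.Agent.MP_e37573_al

open SL

/-- Discrete cocompact subgroups of `SL(2, ℂ)` containing `-1` and no element of trace zero. -/
structure Good (Γ : Subgroup SL) : Prop where
  neg : -1 ∈ Γ
  disc : ∃ ε : ℝ, 0 < ε ∧ ∀ γ ∈ Γ, dd γ 1 < ε → γ = 1
  coc : ∃ R : ℝ, ∀ g : SL, ∃ γ ∈ Γ, nm (γ⁻¹ * g) ≤ R
  tr0 : ∀ γ ∈ Γ, tr γ ≠ 0

def cj (h : SL) (Γ : Subgroup SL) : Subgroup SL := Γ.map (MulAut.conj h).toMonoidHom

lemma mem_cj {h : SL} {Γ : Subgroup SL} {g : SL} : g ∈ cj h Γ ↔ ∃ γ ∈ Γ, h * γ * h⁻¹ = g := by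
  simp [cj]

lemma conj_mem_cj (h : SL) {Γ : Subgroup SL} {g : SL} (hg : g ∈ Γ) : h * g * h⁻¹ ∈ cj h Γ :=
  mem_cj.2 ⟨g, hg, rfl⟩

lemma Good.conj {Γ : Subgroup SL} (hΓ : Good Γ) (h : SL) : Good (cj h Γ) := by
  refine ⟨mem_cj.2 ⟨-1, hΓ.neg, by simp⟩, ?_, ?_, ?_⟩
  · obtain ⟨ε, hε, H⟩ := hΓ.disc
    have h1 := one_le_nm h
    refine ⟨ε / nm h ^ 2, by positivity, fun g hg hd => ?_⟩
    obtain ⟨γ, hγ, rfl⟩ := mem_cj.1 hg
    have h2 := dd_conj h⁻¹ (h * γ * h⁻¹)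
    have h3 : h⁻¹ * (h * γ * h⁻¹) * h⁻¹⁻¹ = γ := by group
    rw [h3, nm_inv] at h2
    rw [lt_div_iff₀ (by positivity)] at hd
    rw [H γ hγ (by linarith)]; simp
  · obtain ⟨R, H⟩ := hΓ.coc
    refine ⟨nm h * R, fun g => ?_⟩
    obtain ⟨γ, hγ, hR⟩ := H (h⁻¹ * g)
    refine ⟨_, conj_mem_cj h hγ, ?_⟩
    have : (h * γ * h⁻¹)⁻¹ * g = h * (γ⁻¹ * (h⁻¹ * g)) := by group
    rw [this]
    exact (nm_mul _ _).trans (mul_le_mul_of_nonneg_left hR (nm_nonneg _))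
  · intro g hg
    obtain ⟨γ, hγ, rfl⟩ := mem_cj.1 hg
    rw [tr_conj]; exact hΓ.tr0 γ hγ

lemma Good.neg_mem {Γ : Subgroup SL} (hΓ : Good Γ) {g : SL} (hg : g ∈ Γ) : -g ∈ Γ := by
  simpa using Γ.mul_mem hΓ.neg hg

lemma Good.unip {Γ : Subgroup SL} (hΓ : Good Γ) {g : SL} (hg : g ∈ Γ) (ht : tr g = 2) : g = 1 := by
  obtain ⟨ε, hε, H⟩ := hΓ.disc
  obtain ⟨R, HR⟩ := hΓ.coc
  have hR : 1 ≤ R := by obtain ⟨γ, -, h⟩ := HR 1; exact (one_le_nm _).trans h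
  obtain ⟨p, -, hp⟩ := schur g
  set u := p * g * p⁻¹ with hu
  have htu : u.a + u.d = 2 := by rw [← ht, ← tr_conj p g]; rfl
  have hd := u.det
  rw [hp] at hd
  have ha : u.a = 1 := by
    have : (u.a - 1) ^ 2 = 0 := by linear_combination u.a * htu - hd
    linear_combination pow_eq_zero_iff (two_ne_zero) |>.1 this
  have hd1 : u.d = 1 := by linear_combination htu - ha
  have hb := norm_nonneg u.b
  obtain ⟨k, -, hk⟩ := exists_scale (ε / (2 * R ^ 2 * (‖u.b‖ + 1))) (by positivity)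
  obtain ⟨k1, k2, k3, k4⟩ := hk u
  have hv : dd (k * u * k⁻¹) 1 ≤ ε / (2 * R ^ 2) := by
    simp only [dd, k1, k2, k3, k4, ha, hd1, hp, one_a, one_b, one_c, one_d, sub_self, sub_zero,
      norm_zero, mul_zero, zero_add, add_zero, norm_mul, Complex.norm_real]
    rw [Real.norm_of_nonneg (by positivity), div_mul_eq_mul_div, div_le_div_iff₀ (by positivity)
      (by positivity)]
    have : 0 ≤ ε * (2 * R ^ 2) := by positivity
    nlinarith
  obtain ⟨γ, hγ, hγR⟩ := HR (k * p)⁻¹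
  have h1 := dd_conj (γ⁻¹ * (k * p)⁻¹) (k * u * k⁻¹)
  have h2 : γ⁻¹ * (k * p)⁻¹ * (k * u * k⁻¹) * (γ⁻¹ * (k * p)⁻¹)⁻¹ = γ⁻¹ * g * γ := by
    rw [hu]; group
  rw [h2] at h1
  have h3 : nm (γ⁻¹ * (k * p)⁻¹) ^ 2 * dd (k * u * k⁻¹) 1 ≤ R ^ 2 * (ε / (2 * R ^ 2)) := by
    have := nm_nonneg (γ⁻¹ * (k * p)⁻¹)
    have := dd_nonneg (k * u * k⁻¹) 1
    gcongr
  have h4 : R ^ 2 * (ε / (2 * R ^ 2)) = ε / 2 := by field_simp
  have h5 := H _ (Γ.mul_mem (Γ.mul_mem (Γ.inv_mem hγ) hg) hγ) (by linarith)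
  have : g = γ * (γ⁻¹ * g * γ) * γ⁻¹ := by group
  rw [this, h5]; simp

lemma Good.par {Γ : Subgroup SL} (hΓ : Good Γ) {g : SL} (hg : g ∈ Γ) (ht : tr g ^ 2 = 4) :
    g = 1 ∨ g = -1 := by
  have : (tr g - 2) * (tr g + 2) = 0 := by linear_combination ht
  rcases mul_eq_zero.1 this with h | h
  · exact Or.inl (hΓ.unip hg (by linear_combination h))
  · right
    have := hΓ.unip (hΓ.neg_mem hg) (by rw [tr_neg]; linear_combination -h)
    rw [← this]; simp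

lemma comm_entries {f : SL} (hf : IsDiag f) (g : SL) :
    (f * g * f⁻¹ * g⁻¹).a = 1 + (1 - f.a ^ 2) * (g.b * g.c) ∧
    (f * g * f⁻¹ * g⁻¹).d = 1 + (1 - f.d ^ 2) * (g.b * g.c) ∧
    (f * g * f⁻¹ * g⁻¹).b = g.a * g.b * (f.a ^ 2 - 1) ∧
    (f * g * f⁻¹ * g⁻¹).c = g.c * g.d * (f.d ^ 2 - 1) := by
  have h1 := hf.ad
  have h2 := g.det
  refine ⟨?_, ?_, ?_, ?_⟩ <;> simp [hf.1, hf.2]
  · linear_combination (g.a * g.d) * h1 + h2
  · linear_combination (g.a * g.d) * h1 + h2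
  · linear_combination (-g.a * g.b) * h1
  · linear_combination (-g.c * g.d) * h1

lemma sq_ne_one_of_tr {f : SL} (hf : IsDiag f) (ht : tr f ^ 2 ≠ 4) :
    f.a ^ 2 - 1 ≠ 0 ∧ f.d ^ 2 - 1 ≠ 0 := by
  have h1 := hf.ad
  constructor
  · intro h; apply ht; rw [tr]
    linear_combination (1 - f.d ^ 2) * h + (f.a * f.d + 3) * h1
  · intro h; apply ht; rw [tr]
    linear_combination (1 - f.a ^ 2) * h + (f.a * f.d + 3) * h1

lemma isDiag_of_prods {g : SL} (h1 : g.a * g.b = 0) (h2 : g.c * g.d = 0) (ht : tr g ≠ 0) :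
    IsDiag g := by
  have hd := g.det
  by_cases ha : g.a = 0
  · exfalso
    have hc : g.c ≠ 0 := by intro hc; rw [ha, hc] at hd; simp at hd
    apply ht
    rw [tr, ha, (mul_eq_zero.1 h2).resolve_left hc]; simp
  · have hb := (mul_eq_zero.1 h1).resolve_left ha
    have hd0 : g.d ≠ 0 := by intro h; rw [h, hb] at hd; simp at hd
    exact ⟨hb, (mul_eq_zero.1 h2).resolve_right hd0⟩

lemma descent {f g : SL} (ht : tr f ^ 2 ≠ 4) (hg : tr g ≠ 0)
    (h : f * (f * g * f⁻¹ * g⁻¹) = (f * g * f⁻¹ * g⁻¹) * f) : f * g = g * f := by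
  obtain ⟨p, hp⟩ := diagonalize f ht
  set F := p * f * p⁻¹ with hF
  set G := p * g * p⁻¹ with hG
  have htF : tr F ^ 2 ≠ 4 := by rwa [hF, tr_conj]
  have e : F * G * F⁻¹ * G⁻¹ = p * (f * g * f⁻¹ * g⁻¹) * p⁻¹ := by rw [hF, hG]; group
  have h1 : IsDiag (F * G * F⁻¹ * G⁻¹) := by
    apply isDiag_of_comm hp htF
    rw [e, hF]
    calc p * f * p⁻¹ * (p * (f * g * f⁻¹ * g⁻¹) * p⁻¹)
        = p * (f * (f * g * f⁻¹ * g⁻¹)) * p⁻¹ := by group
      _ = p * ((f * g * f⁻¹ * g⁻¹) * f) * p⁻¹ := by rw [h]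
      _ = _ := by group
  obtain ⟨-, -, c3, c4⟩ := comm_entries hp G
  obtain ⟨s1, s2⟩ := sq_ne_one_of_tr hp htF
  have h2 : IsDiag G := isDiag_of_prods
    ((mul_eq_zero.1 (c3 ▸ h1.1)).resolve_right s1) ((mul_eq_zero.1 (c4 ▸ h1.2)).resolve_right s2)
    (by rwa [hG, tr_conj])
  have h3 := hp.comm h2
  calc f * g = p⁻¹ * (F * G) * p := by rw [hF, hG]; group
    _ = p⁻¹ * (G * F) * p := by rw [h3]
    _ = g * f := by rw [hF, hG]; group

lemma dd_commutator {f g : SL} (hf : dd f 1 ≤ 1 / 40) (hg : dd g 1 ≤ 1 / 40) :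
    dd (f * g * f⁻¹ * g⁻¹) 1 ≤ dd g 1 / 2 := by
  have h1 := dd_mul_right (f * g) (g * f) (f⁻¹ * g⁻¹)
  have e1 : f * g * (f⁻¹ * g⁻¹) = f * g * f⁻¹ * g⁻¹ := by group
  have e2 : g * f * (f⁻¹ * g⁻¹) = 1 := by group
  rw [e1, e2] at h1
  have h2 := dd_comm_le f g
  have h3 := nm_mul f⁻¹ g⁻¹
  rw [nm_inv, nm_inv] at h3
  have h4 := nm_le_dd f
  have h5 := nm_le_dd g
  have h6 : nm f * nm g ≤ 3 * 3 :=
    mul_le_mul (by linarith) (by linarith) (nm_nonneg _) (by norm_num)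
  have := dd_nonneg f 1; have := dd_nonneg g 1
  have h7 : dd (f * g) (g * f) ≤ 2 * (1 / 40) * dd g 1 := h2.trans (by gcongr)
  calc _ ≤ dd (f * g) (g * f) * nm (f⁻¹ * g⁻¹) := h1
    _ ≤ (2 * (1 / 40) * dd g 1) * (3 * 3) :=
      mul_le_mul h7 (h3.trans h6) (nm_nonneg _) (by positivity)
    _ ≤ _ := by linarith

lemma Good.zass0 {Γ : Subgroup SL} (hΓ : Good Γ) {f g : SL} (hf : f ∈ Γ) (hg : g ∈ Γ)
    (hf1 : dd f 1 ≤ 1 / 40) (hg1 : dd g 1 ≤ 1 / 40) : f * g = g * f := by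
  by_cases ht : tr f ^ 2 = 4
  · rcases hΓ.par hf ht with rfl | rfl <;> simp
  obtain ⟨ε, hε, H⟩ := hΓ.disc
  have key : ∀ n : ℕ, ∀ g ∈ Γ, dd g 1 ≤ 1 / 40 → dd g 1 < 2 ^ n * ε → f * g = g * f := by
    intro n
    induction n with
    | zero => intro g hg _ h; rw [H g hg (by simpa using h)]; simp
    | succ n ih =>
      intro g hg h1 h2
      have h3 := dd_commutator hf1 h1
      have := dd_nonneg g 1
      refine descent ht (hΓ.tr0 g hg) (ih _ ?_ (by linarith) ?_)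
      · exact Γ.mul_mem (Γ.mul_mem (Γ.mul_mem hf hg) (Γ.inv_mem hf)) (Γ.inv_mem hg)
      · rw [pow_succ] at h2; linarith
  obtain ⟨n, hn⟩ := pow_unbounded_of_one_lt (dd g 1 / ε) (one_lt_two (α := ℝ))
  exact key n g hg hg1 (by rwa [div_lt_iff₀ hε] at hn)

lemma Good.zass {Γ : Subgroup SL} (hΓ : Good Γ) {f g : SL} (hf : f ∈ Γ) (hg : g ∈ Γ) (k : SL)
    (hf1 : dd (k * f * k⁻¹) 1 ≤ 1 / 40) (hg1 : dd (k * g * k⁻¹) 1 ≤ 1 / 40) : f * g = g * f := by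
  have h := (hΓ.conj k).zass0 (conj_mem_cj k hf) (conj_mem_cj k hg) hf1 hg1
  calc f * g = k⁻¹ * (k * f * k⁻¹ * (k * g * k⁻¹)) * k := by group
    _ = k⁻¹ * (k * g * k⁻¹ * (k * f * k⁻¹)) * k := by rw [h]
    _ = g * f := by group

lemma diag_norms {f : SL} (hf : IsDiag f) (h2 : 2 ≤ ‖f.a‖) :
    ‖f.d‖ ≤ 1 / 2 ∧ ‖f.a ^ 2 - 1‖ ≤ 2 * ‖f.a‖ ^ 2 ∧ ‖f.d ^ 2 - 1‖ ≤ 2 ∧ tr f ^ 2 ≠ 4 ∧
      1 ≤ ‖f.a - f.d‖ ∧ ‖f.a - f.d‖ ≤ 2 * ‖f.a‖ := by
  have h1 : ‖f.a‖ * ‖f.d‖ = 1 := by rw [← norm_mul, hf.ad, norm_one]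
  have hd : ‖f.d‖ ≤ 1 / 2 := by nlinarith [norm_nonneg f.d]
  have h3 := norm_sub_le (f.a ^ 2) 1
  have h4 := norm_sub_le (f.d ^ 2) 1
  rw [norm_pow, norm_one] at h3 h4
  have h5 := norm_sub_norm_le f.a f.d
  have h6 := norm_sub_le f.a f.d
  refine ⟨hd, by nlinarith, by nlinarith [norm_nonneg f.d], fun h => ?_, by linarith, by linarith⟩
  have : (f.a - f.d) ^ 2 = 0 := by rw [tr] at h; linear_combination h - 4 * hf.ad
  rw [pow_eq_zero_iff two_ne_zero] at this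
  rw [this, norm_zero] at h5
  linarith

/-- An element whose off-diagonal product is small compared with a diagonal loxodromic element of
the group is diagonal. -/
lemma Good.wpd {Γ : Subgroup SL} (hΓ : Good Γ) {f g : SL} (hf : f ∈ Γ) (hfd : IsDiag f)
    (h2 : 2 ≤ ‖f.a‖) (hg : g ∈ Γ) (hs : ‖g.b * g.c‖ * (10 ^ 6 * ‖f.a‖ ^ 4) ≤ 1) : IsDiag g := by
  obtain ⟨n1, n2, n3, n4, -, -⟩ := diag_norms hfd h2
  obtain ⟨c1, c2, c3, c4⟩ := comm_entries hfd g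
  obtain ⟨s1, s2⟩ := sq_ne_one_of_tr hfd n4
  set A := f * g * f⁻¹ * g⁻¹ with hA
  have hAm : A ∈ Γ := Γ.mul_mem (Γ.mul_mem (Γ.mul_mem hf hg) (Γ.inv_mem hf)) (Γ.inv_mem hg)
  set τ := ‖f.a‖ with hτ
  set β := ‖g.b * g.c‖ with hβ
  have hβ0 : 0 ≤ β := norm_nonneg _
  have hτ2 : 4 ≤ τ ^ 2 := by nlinarith
  have hτ4 : τ ^ 4 = τ ^ 2 * τ ^ 2 := by ring
  have hβ2 : β * τ ^ 2 ≤ 1 / 1000000 := by nlinarith
  have hβ1 : β ≤ 1 / 1000000 := by nlinarith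
  have had : ‖g.a * g.d‖ ≤ 2 := by
    have := norm_add_le 1 (g.b * g.c)
    rw [show 1 + g.b * g.c = g.a * g.d by linear_combination -g.det, norm_one] at this
    linarith
  have a1 : ‖A.a - 1‖ ≤ 1 / 160 := by
    rw [c1, add_sub_cancel_left, norm_mul, norm_sub_rev]; nlinarith
  have a2 : ‖A.d - 1‖ ≤ 1 / 160 := by
    rw [c2, add_sub_cancel_left, norm_mul, norm_sub_rev]; nlinarith
  have a3 : (τ ^ 2 * ‖A.b‖) * ‖A.c‖ ≤ (1 / 160) ^ 2 := by
    have e : ‖A.b‖ * ‖A.c‖ = ‖g.a * g.d‖ * β * (‖f.a ^ 2 - 1‖ * ‖f.d ^ 2 - 1‖) := by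
      rw [c3, c4, hβ]; simp only [norm_mul]; ring
    have : ‖A.b‖ * ‖A.c‖ ≤ 2 * β * (2 * τ ^ 2 * 2) := by rw [e]; gcongr
    calc _ = τ ^ 2 * (‖A.b‖ * ‖A.c‖) := by ring
      _ ≤ τ ^ 2 * (2 * β * (2 * τ ^ 2 * 2)) := by gcongr
      _ = 8 * (β * τ ^ 4) := by ring
      _ ≤ _ := by nlinarith
  obtain ⟨s, hs0, b1, b2⟩ := exists_balance (by positivity) (norm_nonneg _) (by norm_num) a3
  obtain ⟨k, -, hk⟩ := exists_scale s hs0
  have hB : (f * A * f⁻¹).a = A.a ∧ (f * A * f⁻¹).d = A.d ∧ (f * A * f⁻¹).b = f.a ^ 2 * A.b ∧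
      (f * A * f⁻¹).c = f.d ^ 2 * A.c := by
    have h1 := hfd.ad
    clear_value A
    refine ⟨?_, ?_, ?_, ?_⟩ <;> simp [hfd.1, hfd.2]
    · linear_combination A.a * h1
    · linear_combination A.d * h1
    · ring
    · ring
  have hAb := norm_nonneg A.b
  have hAc := norm_nonneg A.c
  have hsi : 0 < s⁻¹ := inv_pos.2 hs0
  have hcomm : A * (f * A * f⁻¹) = (f * A * f⁻¹) * A := by
    refine hΓ.zass hAm (Γ.mul_mem (Γ.mul_mem hf hAm) (Γ.inv_mem hf)) k ?_ ?_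
    · obtain ⟨k1, k2, k3, k4⟩ := hk A
      simp only [dd, k1, k2, k3, k4, one_a, one_b, one_c, one_d, sub_zero, norm_mul, norm_inv,
        Complex.norm_real, Real.norm_of_nonneg hs0.le]
      have : s * ‖A.b‖ ≤ s * (τ ^ 2 * ‖A.b‖) := by gcongr; nlinarith
      linarith
    · obtain ⟨k1, k2, k3, k4⟩ := hk (f * A * f⁻¹)
      simp only [dd, k1, k2, k3, k4, hB.1, hB.2.1, hB.2.2.1, hB.2.2.2, one_a, one_b, one_c, one_d,
        sub_zero, norm_mul, norm_inv, norm_pow, Complex.norm_real, Real.norm_of_nonneg hs0.le]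
      have : s⁻¹ * (‖f.d‖ ^ 2 * ‖A.c‖) ≤ s⁻¹ * ‖A.c‖ := by
        gcongr; nlinarith [norm_nonneg f.d, mul_nonneg (norm_nonneg f.d) hAc]
      linarith
  have hAd : IsDiag A := by
    by_cases ht : tr A ^ 2 = 4
    · rcases hΓ.par hAm ht with h | h <;> rw [h] <;> constructor <;> simp
    have e1 := congrArg SL.a hcomm
    have e2 := congrArg SL.b hcomm
    have e3 := congrArg SL.c hcomm
    rw [mul_a A, mul_a _ A] at e1
    rw [mul_b A, mul_b _ A] at e2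
    rw [mul_c A, mul_c _ A] at e3
    simp only [hB.1, hB.2.1, hB.2.2.1, hB.2.2.2] at e1 e2 e3
    have hne : f.a ^ 2 - f.d ^ 2 ≠ 0 := by
      intro h
      have : ‖f.a‖ ^ 2 = ‖f.d‖ ^ 2 := by rw [← norm_pow, ← norm_pow]; congr 1; linear_combination h
      nlinarith [norm_nonneg f.d]
    have hbc : A.b * A.c = 0 := by
      apply mul_left_cancel₀ hne; linear_combination -e1
    have had' : A.a - A.d ≠ 0 := by
      intro h; apply ht; rw [tr]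
      linear_combination (A.a - A.d) * h + 4 * A.det + 4 * hbc
    constructor
    · apply mul_left_cancel₀ (mul_ne_zero s1 had'); linear_combination e2
    · apply mul_left_cancel₀ (mul_ne_zero s2 had'); linear_combination -e3
  exact isDiag_of_prods ((mul_eq_zero.1 (c3 ▸ hAd.1)).resolve_right s1)
    ((mul_eq_zero.1 (c4 ▸ hAd.2)).resolve_right s2) (hΓ.tr0 g hg)

lemma Good.wpd' {Γ : Subgroup SL} (hΓ : Good Γ) {f g : SL} (hf : f ∈ Γ) (hfd : IsDiag f)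
    (h2 : 2 ≤ ‖f.a‖) (hg : g ∈ Γ) : 1 < ‖g.a * g.d‖ * (10 ^ 7 * ‖f.a‖ ^ 6) := by
  by_contra hs
  push Not at hs
  obtain ⟨n1, n2, n3, n4, n5, n6⟩ := diag_norms hfd h2
  have hne : f.a - f.d ≠ 0 := by intro h; rw [h, norm_zero] at n5; linarith
  have e1 : (g * f * g⁻¹).b = -(g.a * g.b * (f.a - f.d)) := by simp [hfd.1, hfd.2]; ring
  have e2 : (g * f * g⁻¹).c = g.c * g.d * (f.a - f.d) := by simp [hfd.1, hfd.2]; ring
  set τ := ‖f.a‖ with hτ
  set β := ‖g.a * g.d‖ with hβ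
  have hβ0 : 0 ≤ β := norm_nonneg _
  have hτ6 : 1 ≤ τ ^ 6 := one_le_pow₀ (by linarith)
  have hβ1 : β ≤ 1 / 2 := by nlinarith
  have hbc : ‖g.b * g.c‖ ≤ 2 := by
    have := norm_sub_le (g.a * g.d) 1
    rw [show g.a * g.d - 1 = g.b * g.c by linear_combination g.det, norm_one] at this
    linarith
  have hd : IsDiag (g * f * g⁻¹) := by
    refine hΓ.wpd hf hfd h2 (Γ.mul_mem (Γ.mul_mem hg hf) (Γ.inv_mem hg)) ?_
    have e : ‖(g * f * g⁻¹).b * (g * f * g⁻¹).c‖ = β * ‖g.b * g.c‖ * ‖f.a - f.d‖ ^ 2 := by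
      rw [e1, e2, hβ]; simp only [norm_mul, norm_neg]; ring
    rw [e]
    calc β * ‖g.b * g.c‖ * ‖f.a - f.d‖ ^ 2 * (10 ^ 6 * τ ^ 4)
        ≤ β * 2 * (2 * τ) ^ 2 * (10 ^ 6 * τ ^ 4) := by gcongr
      _ = 8 / 10 * (β * (10 ^ 7 * τ ^ 6)) := by ring
      _ ≤ 1 := by linarith
  have h3 : IsDiag g := isDiag_of_prods
    ((mul_eq_zero.1 (neg_eq_zero.1 (e1 ▸ hd.1))).resolve_right hne)
    ((mul_eq_zero.1 (e2 ▸ hd.2)).resolve_right hne) (hΓ.tr0 g hg)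
  rw [hβ, h3.ad, norm_one] at hβ1
  linarith

end Pool.Agent.MP_e37573_al

end

-- part MP_e37573_al.Conj
section

/-!
Bounded traces give bounded conjugates; the Margulis coset argument; the normalised setting.
-/

namespace Pool.Agent.MP_e37573_al

open SL Pool.Agent.MP_646035_al

lemma eig_le {x y : ℂ} {θ : ℝ} (h : x * y = 1) (ht : ‖x + y‖ ≤ θ) : ‖x‖ ≤ θ + 1 := by
  by_contra hc
  push Not at hc
  have h1 : ‖x‖ * ‖y‖ = 1 := by rw [← norm_mul, h, norm_one]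
  have h2 := norm_sub_le (x + y) y
  rw [add_sub_cancel_right] at h2
  have := norm_nonneg (x + y)
  have := norm_nonneg y
  nlinarith

lemma conj_step (T : Set SL) {θ M : ℝ} (hθ : 2 ≤ θ) (h1 : ∀ s ∈ T, ‖tr s‖ ≤ θ)
    (h2 : ∀ s ∈ T, ∀ t ∈ T, ‖tr (s * t)‖ ≤ θ) (hM : 10 ^ 5 * θ ≤ M) (h : SL)
    (hb : ∀ s ∈ T, nm (h * s * h⁻¹) ≤ M) : ∃ h' : SL, ∀ s ∈ T, nm (h' * s * h'⁻¹) ≤ M / 2 := by
  by_cases hall : ∀ s ∈ T, nm (h * s * h⁻¹) ≤ M / 2
  · exact ⟨h, hall⟩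
  push Not at hall
  obtain ⟨x, hx, hxM⟩ := hall
  obtain ⟨p, hp3, hp⟩ := schur (h * x * h⁻¹)
  obtain ⟨k, -, hk⟩ := exists_scale (1 / 100) (by norm_num)
  refine ⟨k * (p * h), fun y hy => ?_⟩
  set X := p * (h * x * h⁻¹) * p⁻¹ with hX
  set Y := p * (h * y * h⁻¹) * p⁻¹ with hY
  have hM0 : 0 < M := by linarith
  have e0 : k * (p * h) * y * (k * (p * h))⁻¹ = k * Y * k⁻¹ := by rw [hY]; group
  have hp0 := nm_nonneg p
  have hX1 : M / 18 ≤ nm X := by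
    have e : h * x * h⁻¹ = p⁻¹ * X * p := by rw [hX]; group
    have := nm_mul3 p⁻¹ X p
    rw [← e, nm_inv] at this
    have h3 : nm p * nm X * nm p ≤ 3 * nm X * 3 := by have := nm_nonneg X; gcongr
    linarith
  have hY1 : nm Y ≤ 9 * M := by
    have := nm_mul3 p (h * y * h⁻¹) p⁻¹
    rw [nm_inv] at this
    have h3 : nm p * nm (h * y * h⁻¹) * nm p ≤ 3 * M * 3 := by
      have := nm_nonneg (h * y * h⁻¹); have := hb y hy; gcongr
    linarith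
  have htX : ‖X.a + X.d‖ ≤ θ := by
    have : tr X = tr x := by rw [hX, tr_conj, tr_conj]
    exact (congrArg norm this).le.trans (h1 x hx)
  have htY : ‖Y.a + Y.d‖ ≤ θ := by
    have : tr Y = tr y := by rw [hY, tr_conj, tr_conj]
    exact (congrArg norm this).le.trans (h1 y hy)
  have htXY : ‖X.a * Y.a + X.b * Y.c + X.d * Y.d‖ ≤ θ := by
    have e : X * Y = (p * h) * (x * y) * (p * h)⁻¹ := by rw [hX, hY]; group
    have : tr (X * Y) = tr (x * y) := by rw [e, tr_conj]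
    have e2 : X.a * Y.a + X.b * Y.c + X.d * Y.d = tr (X * Y) := by simp [tr, hp]
    rw [e2, this]; exact h2 x hx y hy
  have hXd : X.a * X.d = 1 := by have := X.det; rw [hp] at this; simpa using this
  have ha := eig_le hXd htX
  have hd := eig_le (x := X.d) (y := X.a) (θ := θ) (by rw [mul_comm]; exact hXd) (by rwa [add_comm])
  have hβ : M / 20 ≤ ‖X.b‖ := by
    simp only [nm, hp, norm_zero] at hX1
    linarith
  have hYb := (b_le Y).trans hY1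
  have hYd := Y.det
  obtain ⟨k1, k2, k3, k4⟩ := hk Y
  rw [e0]
  simp only [nm, k1, k2, k3, k4, norm_mul, norm_inv, Complex.norm_real]
  rw [Real.norm_of_nonneg (by norm_num)]
  clear_value X Y
  have na := norm_nonneg Y.a; have nb := norm_nonneg Y.b; have nc := norm_nonneg Y.c
  have nd := norm_nonneg Y.d
  have c1 : ‖X.b‖ * ‖Y.c‖ ≤ θ + 2 * θ * (‖Y.a‖ + ‖Y.d‖) := by
    have e : X.b * Y.c = (X.a * Y.a + X.b * Y.c + X.d * Y.d) - (X.a * Y.a + X.d * Y.d) := by ring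
    have i1 := norm_sub_le (X.a * Y.a + X.b * Y.c + X.d * Y.d) (X.a * Y.a + X.d * Y.d)
    have i2 := norm_add_le (X.a * Y.a) (X.d * Y.d)
    rw [← e] at i1
    simp only [norm_mul] at i1 i2
    have i3 : ‖X.a‖ * ‖Y.a‖ ≤ 2 * θ * ‖Y.a‖ := by gcongr; linarith
    have i4 : ‖X.d‖ * ‖Y.d‖ ≤ 2 * θ * ‖Y.d‖ := by gcongr; linarith
    linarith
  set u := ‖Y.a‖ + ‖Y.d‖ with hu
  have hu0 : 0 ≤ u := by positivity
  have c2 : M * ‖Y.c‖ ≤ 20 * (θ + 2 * θ * u) := by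
    have : M / 20 * ‖Y.c‖ ≤ ‖X.b‖ * ‖Y.c‖ := by gcongr
    linarith
  have c3 : ‖Y.b‖ * ‖Y.c‖ ≤ 180 * (θ + 2 * θ * u) := by
    have : ‖Y.b‖ * ‖Y.c‖ ≤ 9 * M * ‖Y.c‖ := by gcongr
    linarith
  have c4 : ∀ a d : ℂ, a * d - Y.b * Y.c = 1 → ‖a + d‖ ≤ θ →
      ‖a‖ ^ 2 ≤ θ * ‖a‖ + 1 + ‖Y.b‖ * ‖Y.c‖ := by
    intro a d hdet ht
    have e : a ^ 2 = a * (a + d) - (1 + Y.b * Y.c) := by linear_combination -hdet
    have i1 := norm_sub_le (a * (a + d)) (1 + Y.b * Y.c)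
    have i2 := norm_add_le 1 (Y.b * Y.c)
    rw [← e] at i1
    simp only [norm_mul, norm_pow, norm_one] at i1 i2
    have : ‖a‖ * ‖a + d‖ ≤ ‖a‖ * θ := by gcongr
    linarith
  have c5 := c4 Y.a Y.d hYd htY
  have c6 := c4 Y.d Y.a (by linear_combination hYd) (by rwa [add_comm])
  have c7 : u ≤ 1500 * θ := by
    by_contra hc
    push Not at hc
    have : u ^ 2 ≤ 2 * (‖Y.a‖ ^ 2 + ‖Y.d‖ ^ 2) := by rw [hu]; nlinarith [sq_nonneg (‖Y.a‖ - ‖Y.d‖)]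
    have h5 : θ * ‖Y.a‖ + θ * ‖Y.d‖ = θ * u := by rw [hu]; ring
    have h6 : 1500 * θ * u ≤ u ^ 2 := by nlinarith
    have h7 : 3000 * θ ≤ θ * u := by nlinarith
    nlinarith
  have c8 : ‖Y.c‖ ≤ θ := by
    by_contra hc
    push Not at hc
    have : 10 ^ 5 * θ * θ ≤ M * ‖Y.c‖ := by gcongr
    have h5 : θ * u ≤ θ * (1500 * θ) := by gcongr
    nlinarith
  norm_num
  linarith

lemma conj_bounded (T : Set SL) (hT : T.Finite) {θ : ℝ} (hθ : 2 ≤ θ) (h1 : ∀ s ∈ T, ‖tr s‖ ≤ θ)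
    (h2 : ∀ s ∈ T, ∀ t ∈ T, ‖tr (s * t)‖ ≤ θ) :
    ∃ h : SL, ∀ s ∈ T, nm (h * s * h⁻¹) ≤ 10 ^ 5 * θ := by
  have key : ∀ n : ℕ, ∀ h : SL, (∀ s ∈ T, nm (h * s * h⁻¹) ≤ 2 ^ n * (10 ^ 5 * θ)) →
      ∃ h : SL, ∀ s ∈ T, nm (h * s * h⁻¹) ≤ 10 ^ 5 * θ := by
    intro n
    induction n with
    | zero => intro h hh; exact ⟨h, by simpa using hh⟩
    | succ n ih =>
      intro h hh
      have : (1 : ℝ) ≤ 2 ^ (n + 1) := one_le_pow₀ one_le_two
      obtain ⟨h', hh'⟩ := conj_step T hθ h1 h2 (by nlinarith) h hh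
      exact ih h' fun s hs => (hh' s hs).trans_eq (by ring)
  obtain ⟨M, hM⟩ := (hT.image nm).bddAbove
  obtain ⟨n, hn⟩ := pow_unbounded_of_one_lt M (one_lt_two (α := ℝ))
  refine key n 1 fun s hs => ?_
  have : nm s ≤ M := hM ⟨s, hs, rfl⟩
  have h3 : (0 : ℝ) < 2 ^ n := by positivity
  simp only [one_mul, inv_one, mul_one]
  nlinarith

/-- A cocompact group is not at bounded distance from a diagonal subgroup. -/
lemma Good.not_elem {Γ : Subgroup SL} (hΓ : Good Γ) (h : SL) (M : ℝ)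
    (H : ∀ γ ∈ Γ, ∃ e y : SL, γ = e * y ∧ IsDiag (h * e * h⁻¹) ∧ nm y ≤ M) : False := by
  obtain ⟨R, HR⟩ := hΓ.coc
  set B := (nm h * M * R) ^ 2 + 1 with hB
  let g0 : SL := ⟨1, 0, (B : ℂ), 1, by ring⟩
  obtain ⟨γ, hγ, hγR⟩ := HR (h⁻¹ * g0)
  obtain ⟨e, y, rfl, he, hy⟩ := H γ hγ
  set w := h * y * ((e * y)⁻¹ * (h⁻¹ * g0)) with hw
  set D := h * e * h⁻¹ with hD
  have e1 : g0 = D * w := by rw [hD, hw]; group
  have hw1 : nm w ≤ nm h * M * R := by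
    refine (nm_mul3 _ _ _).trans ?_
    have := nm_nonneg h; have := nm_nonneg y; have := nm_nonneg ((e * y)⁻¹ * (h⁻¹ * g0))
    have : 0 ≤ M := by linarith
    gcongr
  have ea := congrArg SL.a e1
  have ec := congrArg SL.c e1
  simp only [g0, mul_a D, mul_c D, he.1, he.2, zero_mul, add_zero, zero_add] at ea ec
  have e2 : (B : ℂ) = w.a * w.c := by
    linear_combination (B : ℂ) * ea + D.a * w.a * ec + w.a * w.c * he.ad
  have e3 : B ≤ nm w * nm w := by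
    have := congrArg norm e2
    rw [norm_mul, Complex.norm_real, Real.norm_of_nonneg (by positivity)] at this
    rw [this]
    exact mul_le_mul (a_le w) (c_le w) (norm_nonneg _) (nm_nonneg _)
  have := nm_nonneg w
  nlinarith

lemma exists_cover (R : ℝ) (hR : 0 < R) : ∃ N : ℕ, ∀ x : Fin (N + 1) → SL, (∀ i, nm (x i) ≤ R) →
    ∃ i j, i ≠ j ∧ dd (x i * (x j)⁻¹) 1 ≤ 1 / 40 := by
  have hc := (isCompact_closedBall (0 : ℂ × ℂ × ℂ × ℂ) R).totallyBounded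
  obtain ⟨t, ht, hcov⟩ := Metric.totallyBounded_iff.1 hc (1 / (320 * R)) (by positivity)
  refine ⟨ht.toFinset.card, fun x hx => ?_⟩
  let φ : SL → ℂ × ℂ × ℂ × ℂ := fun g => (g.a, g.b, g.c, g.d)
  have hm : ∀ i, ∃ y : ht.toFinset, φ (x i) ∈ Metric.ball y.1 (1 / (320 * R)) := by
    intro i
    have : φ (x i) ∈ Metric.closedBall (0 : ℂ × ℂ × ℂ × ℂ) R := by
      simp only [φ, mem_closedBall_zero_iff, Prod.norm_mk, max_le_iff]
      exact ⟨(a_le _).trans (hx i), (b_le _).trans (hx i), (c_le _).trans (hx i),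
        (d_le _).trans (hx i)⟩
    obtain ⟨y, hy, hy'⟩ := Set.mem_iUnion₂.1 (hcov this)
    exact ⟨⟨y, ht.mem_toFinset.2 hy⟩, hy'⟩
  choose y hy using hm
  obtain ⟨i, j, hij, he⟩ := Fintype.exists_ne_map_eq_of_card_lt y (by simp)
  refine ⟨i, j, hij, ?_⟩
  have h1 : dist (φ (x i)) (φ (x j)) ≤ 1 / (160 * R) := by
    have := dist_triangle_right (φ (x i)) (φ (x j)) (y i).1
    have a1 := Metric.mem_ball.1 (hy i)
    have a2 := Metric.mem_ball.1 (hy j)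
    rw [← he] at a2
    have : 1 / (160 * R) = 1 / (320 * R) + 1 / (320 * R) := by field_simp; ring
    linarith
  simp only [φ, dist_eq_norm, Prod.mk_sub_mk, Prod.norm_mk, max_le_iff] at h1
  have h2 : dd (x i) (x j) ≤ 1 / (40 * R) := by
    have : 1 / (40 * R) = 4 * (1 / (160 * R)) := by field_simp; ring
    unfold dd; linarith [h1.1, h1.2.1, h1.2.2.1, h1.2.2.2]
  have h3 := dd_mul_right (x i) (x j) (x j)⁻¹
  rw [mul_inv_cancel, nm_inv] at h3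
  calc _ ≤ dd (x i) (x j) * nm (x j) := h3
    _ ≤ 1 / (40 * R) * R := mul_le_mul h2 (hx j) (nm_nonneg _) (by positivity)
    _ = 1 / 40 := by field_simp

lemma ball_subset {Γ : Subgroup SL} {T : Finset SL} (hT : ∀ t ∈ T, t ∈ Γ) {m : ℕ} {g : SL}
    (hg : g ∈ ball T m) : g ∈ Γ := by
  refine ball_induction (fun _ g => g ∈ Γ) Γ.one_mem (fun _ _ h => h) ?_ m g hg
  intro r g x h hx
  rcases hx with hx | hx
  · exact Γ.mul_mem h (hT x hx)
  · exact Γ.mul_mem h (Γ.inv_mem_iff.1 (hT _ hx))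

lemma letter_mem_ball {G : Type*} [Group G] {T : Finset G} {x : G} (hx : x ∈ T ∨ x⁻¹ ∈ T) :
    x ∈ ball T 1 := by
  rcases hx with hx | hx
  · exact mem_ball_one hx
  · simpa using inv_mem_ball (mem_ball_one hx)

/-- The Margulis coset argument. -/
lemma margulis (R : ℝ) (hR : 0 < R) : ∃ N : ℕ, 1 ≤ N ∧ ∀ (Γ : Subgroup SL) (T : Finset SL), Good Γ →
    (∀ t ∈ T, t ∈ Γ) → (∀ γ ∈ Γ, ∃ m, γ ∈ ball T m) → ∀ h : SL,
    ¬ ∀ s ∈ ball T N, nm (h * s * h⁻¹) ≤ R := by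
  obtain ⟨N, hN⟩ := exists_cover R hR
  refine ⟨N + 1, by omega, fun Γ T hΓ hT hgen h hb => ?_⟩
  obtain ⟨p, hp⟩ : ∃ p : SL, ∀ γ ∈ Γ, dd (h * γ * h⁻¹) 1 ≤ 1 / 40 → IsDiag (p * γ * p⁻¹) := by
    by_cases hall : ∀ γ ∈ Γ, dd (h * γ * h⁻¹) 1 ≤ 1 / 40 → tr γ ^ 2 = 4
    · refine ⟨1, fun γ hγ hd => ?_⟩
      rcases hΓ.par hγ (hall γ hγ hd) with rfl | rfl <;> constructor <;> simp
    push Not at hall
    obtain ⟨f, hf, hfd, hft⟩ := hall
    obtain ⟨p, hp⟩ := diagonalize f hft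
    refine ⟨p, fun γ hγ hd => isDiag_of_comm hp (by rwa [tr_conj]) ?_⟩
    have := hΓ.zass hf hγ h hfd hd
    calc p * f * p⁻¹ * (p * γ * p⁻¹) = p * (f * γ) * p⁻¹ := by group
      _ = p * (γ * f) * p⁻¹ := by rw [this]
      _ = _ := by group
  have hstab : ∃ j, ∀ x ∈ ball T (j + 1), ∃ e, ∃ y ∈ ball T j, x = e * y ∧ IsDiag (p * e * p⁻¹) := by
    by_contra hc
    push Not at hc
    choose x hx hx' using hc
    obtain ⟨i, j, hij, hd⟩ := hN (fun i => h * x i * h⁻¹)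
      (fun i => hb _ (ball_mono T (by omega) (hx i)))
    have e : h * x i * h⁻¹ * (h * x j * h⁻¹)⁻¹ = h * (x i * (x j)⁻¹) * h⁻¹ := by group
    rw [e] at hd
    have hD := hp _ (Γ.mul_mem (ball_subset hT (hx i)) (Γ.inv_mem (ball_subset hT (hx j)))) hd
    rcases lt_or_gt_of_ne hij with hlt | hlt
    · refine hx' j (x i * (x j)⁻¹)⁻¹ (x i) (ball_mono T (by exact hlt) (hx i)) (by group) ?_
      have := hD.inv
      rwa [show (p * (x i * (x j)⁻¹) * p⁻¹)⁻¹ = p * (x i * (x j)⁻¹)⁻¹ * p⁻¹ by group] at this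
    · exact hx' i (x i * (x j)⁻¹) (x j) (ball_mono T (by exact hlt) (hx j)) (by group) hD
  obtain ⟨j, hj⟩ := hstab
  obtain ⟨M, hM⟩ := ((ball_finite T j).image nm).bddAbove
  refine hΓ.not_elem p M fun γ hγ => ?_
  obtain ⟨m, hm⟩ := hgen γ hγ
  have := ball_induction (S := T)
    (fun _ g => ∃ e, ∃ y ∈ ball T j, g = e * y ∧ IsDiag (p * e * p⁻¹))
    ⟨1, 1, one_mem_ball T j, by simp, by simpa using isDiag_one⟩ (fun _ _ h => h) (by
      rintro r g x ⟨e, y, hy, rfl, he⟩ hx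
      obtain ⟨e', y', hy', h1, he'⟩ := hj (y * x) (mul_mem_ball hy (letter_mem_ball hx))
      refine ⟨e * e', y', hy', by rw [mul_assoc, h1, mul_assoc], ?_⟩
      have := he.mul he'
      rwa [show p * e * p⁻¹ * (p * e' * p⁻¹) = p * (e * e') * p⁻¹ by group] at this) m γ hm
  obtain ⟨e, y, hy, h1, he⟩ := this
  exact ⟨e, y, h1, he, hM ⟨y, hy, rfl⟩⟩

lemma diag_entry_le {f g : SL} (hf : IsDiag f) (h2 : 2 ≤ ‖f.a‖) {B : ℝ} (h1 : ‖tr g‖ ≤ B)
    (h3 : ‖tr (f * g)‖ ≤ B) : ‖g.a‖ ≤ 3 * B ∧ ‖g.d‖ ≤ 3 * B := by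
  obtain ⟨n1, -, -, -, n5, -⟩ := diag_norms hf h2
  have e : g.a * (f.a - f.d) = tr (f * g) - f.d * tr g := by simp [tr, hf.1, hf.2]; ring
  have i1 := norm_sub_le (tr (f * g)) (f.d * tr g)
  rw [← e, norm_mul, norm_mul] at i1
  have hB : 0 ≤ B := (norm_nonneg _).trans h1
  have i2 : ‖f.d‖ * ‖tr g‖ ≤ 1 / 2 * B := by gcongr
  have i3 : ‖g.a‖ * 1 ≤ ‖g.a‖ * ‖f.a - f.d‖ := by gcongr
  have i4 := norm_sub_le (tr g) g.a
  rw [show tr g - g.a = g.d by simp [tr]] at i4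
  constructor <;> linarith

/-- The normalised setting. -/
lemma setup : ∃ N : ℕ, ∀ (Γ : Subgroup SL) (T : Finset SL), Good Γ →
    (∀ t ∈ T, t ∈ Γ) → (∀ γ ∈ Γ, ∃ m, γ ∈ ball T m) → ∃ h : SL, ∃ f ∈ ball T N,
    IsDiag (h * f * h⁻¹) ∧ 10 ^ 7 ≤ ‖(h * f * h⁻¹).a‖ ∧
      ∀ s ∈ ball T 1, nm (h * s * h⁻¹) ≤ ‖(h * f * h⁻¹).a‖ ^ 8 := by
  obtain ⟨N, hN1, hN⟩ := margulis (10 ^ 5 * (10 ^ 7 + 1)) (by norm_num)
  refine ⟨N + N, fun Γ T hΓ hT hgen => ?_⟩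
  obtain ⟨f0, hf0, hmax⟩ := Set.exists_max_image (ball T (N + N)) (fun g => ‖tr g‖)
    (ball_finite T _) ⟨1, one_mem_ball T _⟩
  set θ := ‖tr f0‖ with hθ
  have hb : ∀ θ' : ℝ, θ ≤ θ' → 2 ≤ θ' → ∃ h : SL, ∀ s ∈ ball T N, nm (h * s * h⁻¹) ≤ 10 ^ 5 * θ' :=
    fun θ' h1 h2 => conj_bounded _ (ball_finite T N) h2
      (fun s hs => (hmax s (ball_mono T (by omega) hs)).trans h1)
      (fun s hs t ht => (hmax _ (mul_mem_ball hs ht)).trans h1)
  have hθ1 : 10 ^ 7 + 1 < θ := by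
    by_contra hc
    push Not at hc
    obtain ⟨h, hh⟩ := hb _ hc (by norm_num)
    exact hN Γ T hΓ hT hgen h hh
  obtain ⟨h1, hh1⟩ := hb θ le_rfl (by linarith)
  set L := 10 ^ 5 * θ with hL
  have hL1 : 1 ≤ L := by linarith
  have hb2 : ∀ g ∈ ball T (N + N), nm (h1 * g * h1⁻¹) ≤ L ^ 2 := by
    intro g hg
    obtain ⟨x, hx, y, hy, rfl⟩ := ball_add_subset T N N hg
    have e : h1 * (x * y) * h1⁻¹ = (h1 * x * h1⁻¹) * (h1 * y * h1⁻¹) := by group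
    simp only [e, sq]
    exact (nm_mul _ _).trans (mul_le_mul (hh1 x hx) (hh1 y hy) (nm_nonneg _) (by linarith))
  have ht0 : tr f0 ^ 2 ≠ 4 := by
    intro h
    have := congrArg norm h
    rw [norm_pow, ← hθ] at this
    simp at this
    nlinarith
  obtain ⟨p, hp⟩ := diagonalize f0 ht0
  obtain ⟨f, hf, hfd, hfa⟩ : ∃ f ∈ ball T (N + N), IsDiag (p * f * p⁻¹) ∧
      θ - 1 ≤ ‖(p * f * p⁻¹).a‖ := by
    have e : θ = ‖(p * f0 * p⁻¹).a + (p * f0 * p⁻¹).d‖ := by rw [hθ, ← tr_conj p f0]; rfl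
    have i1 := norm_add_le (p * f0 * p⁻¹).a (p * f0 * p⁻¹).d
    have i2 : ‖(p * f0 * p⁻¹).a‖ * ‖(p * f0 * p⁻¹).d‖ = 1 := by rw [← norm_mul, hp.ad, norm_one]
    rcases le_total ‖(p * f0 * p⁻¹).d‖ 1 with h | h
    · exact ⟨f0, hf0, hp, by linarith⟩
    · refine ⟨f0⁻¹, inv_mem_ball hf0, ?_⟩
      rw [show p * f0⁻¹ * p⁻¹ = (p * f0 * p⁻¹)⁻¹ by group]
      refine ⟨hp.inv, ?_⟩
      rw [inv_a]
      nlinarith [norm_nonneg (p * f0 * p⁻¹).a]
  set F := p * f * p⁻¹ with hF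
  set τ := ‖F.a‖ with hτ
  have hτ1 : 10 ^ 7 ≤ τ := by linarith
  have hent : ∀ g ∈ ball T (N + N), ‖(p * g * p⁻¹).a‖ ≤ 3 * L ^ 4 ∧ ‖(p * g * p⁻¹).d‖ ≤ 3 * L ^ 4 := by
    intro g hg
    refine diag_entry_le hfd (by linarith) ?_ ?_
    · rw [tr_conj, ← tr_conj h1]
      exact (tr_le _).trans ((hb2 g hg).trans (pow_le_pow_right₀ hL1 (by norm_num)))
    · rw [hF, show p * f * p⁻¹ * (p * g * p⁻¹) = p * (f * g) * p⁻¹ by group, tr_conj, ← tr_conj h1,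
        show h1 * (f * g) * h1⁻¹ = (h1 * f * h1⁻¹) * (h1 * g * h1⁻¹) by group]
      refine (tr_le _).trans ((nm_mul _ _).trans ?_)
      exact (mul_le_mul (hb2 f hf) (hb2 g hg) (nm_nonneg _) (by positivity)).trans_eq (by ring)
  obtain ⟨s1, hs1, hm1⟩ := Set.exists_max_image (ball T 1) (fun g => ‖(p * g * p⁻¹).b‖)
    (ball_finite T _) ⟨1, one_mem_ball T _⟩
  obtain ⟨s2, hs2, hm2⟩ := Set.exists_max_image (ball T 1) (fun g => ‖(p * g * p⁻¹).c‖)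
    (ball_finite T _) ⟨1, one_mem_ball T _⟩
  have hL4 : 1 ≤ L ^ 4 := one_le_pow₀ hL1
  have hprod : ‖(p * s1 * p⁻¹).b‖ * ‖(p * s2 * p⁻¹).c‖ ≤ (4 * L ^ 4) ^ 2 := by
    have a1 := (hent s1 (ball_mono T (by omega) hs1)).1
    have a2 := (hent s2 (ball_mono T (by omega) hs2)).1
    have a3 := (hent _ (ball_mono T (by omega) (mul_mem_ball hs1 hs2))).1
    rw [show p * (s1 * s2) * p⁻¹ = (p * s1 * p⁻¹) * (p * s2 * p⁻¹) by group] at a3
    generalize p * s1 * p⁻¹ = x at *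
    generalize p * s2 * p⁻¹ = y at *
    have i1 := norm_sub_le (x * y).a (x.a * y.a)
    rw [show (x * y).a - x.a * y.a = x.b * y.c by simp, norm_mul, norm_mul] at i1
    have i2 : ‖x.a‖ * ‖y.a‖ ≤ (3 * L ^ 4) * (3 * L ^ 4) := by gcongr
    nlinarith
  obtain ⟨r, hr, b1, b2⟩ := exists_balance (norm_nonneg _) (norm_nonneg _) (by positivity) hprod
  obtain ⟨k, hkd, hk⟩ := exists_scale r hr
  have e : ∀ g, k * p * g * (k * p)⁻¹ = k * (p * g * p⁻¹) * k⁻¹ := fun g => by group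
  refine ⟨k * p, f, hf, ?_, ?_, fun s hs => ?_⟩
  · rw [e]; exact (hkd.mul hfd).mul hkd.inv
  · rw [e, (hk F).1]; exact hτ1
  · rw [e, e, (hk F).1]
    obtain ⟨k1, k2, k3, k4⟩ := hk (p * s * p⁻¹)
    obtain ⟨a1, a2⟩ := hent s (ball_mono T (by omega) hs)
    have a3 : r * ‖(p * s * p⁻¹).b‖ ≤ 4 * L ^ 4 :=
      (mul_le_mul_of_nonneg_left (hm1 s hs) hr.le).trans b1
    have a4 : r⁻¹ * ‖(p * s * p⁻¹).c‖ ≤ 4 * L ^ 4 :=
      (mul_le_mul_of_nonneg_left (hm2 s hs) (inv_pos.2 hr).le).trans b2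
    simp only [nm, k1, k2, k3, k4, norm_mul, norm_inv, Complex.norm_real,
      Real.norm_of_nonneg hr.le]
    have a5 : L ^ 4 ≤ (2 * 10 ^ 5 * τ) ^ 4 := by gcongr; linarith
    have a6 : (10 ^ 7 : ℝ) ^ 4 ≤ τ ^ 4 := by gcongr
    have a7 : τ ^ 8 = τ ^ 4 * τ ^ 4 := by ring
    have a8 : (2 * 10 ^ 5 * τ) ^ 4 = 16 * 10 ^ 20 * τ ^ 4 := by ring
    rw [← hτ]
    nlinarith

end Pool.Agent.MP_e37573_al

end

-- part MP_e37573_al.Ping
section

/-!
The ping-pong argument.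
-/

namespace Pool.Agent.MP_e37573_al

open SL Pool.Agent.MP_646035_al

/-- The data of the ping-pong argument. -/
structure PP (Γ : Subgroup SL) (e : ℝ) (s F : SL) : Prop where
  e0 : 0 < e
  e1 : e ≤ 1 / 100
  sΓ : s ∈ Γ
  up : nm s ≤ e⁻¹
  la : e ≤ ‖s.a‖
  lb : e ≤ ‖s.b‖
  lc : e ≤ ‖s.c‖
  ld : e ≤ ‖s.d‖
  wpd : ∀ g ∈ Γ, ‖g.b * g.c‖ ≤ e → IsDiag g
  Fd : IsDiag F
  Fs : ‖F.d‖ ^ 2 ≤ e ^ 20

def Cone (e : ℝ) (s F : SL) (σ : ℂ) : Prop :=
  ∃ ξ : ℂ, ‖ξ‖ ≤ e ^ 18 ∧ σ * (s.a + s.b * ξ) = F.d ^ 2 * (s.c + s.d * ξ)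

def Dom (e : ℝ) (g : SL) : Prop := g.a ≠ 0 ∧ ‖g.c‖ ≤ 2 * e⁻¹ * ‖g.a‖

lemma pow_small {e : ℝ} (e0 : 0 < e) (e1 : e ≤ 1 / 100) (n : ℕ) : e ^ (n + 1) ≤ e ^ n / 100 := by
  rw [pow_succ]; nlinarith [pow_pos e0 n]

lemma pow_small' {e : ℝ} (e0 : 0 < e) (e1 : e ≤ 1 / 100) {m n : ℕ} (h : m < n) :
    e ^ n ≤ e ^ m / 100 :=
  (pow_le_pow_of_le_one e0.le (by linarith) h).trans (pow_small e0 e1 m)

namespace PP

variable {Γ : Subgroup SL} {e : ℝ} {s F : SL}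

lemma den (P : PP Γ e s F) {ξ : ℂ} (h : ‖ξ‖ ≤ e ^ 18) :
    e / 2 ≤ ‖s.a + s.b * ξ‖ ∧ ‖s.c + s.d * ξ‖ ≤ e⁻¹ := by
  have e0 := P.e0
  have h1 : ‖s.b‖ * ‖ξ‖ ≤ e⁻¹ * e ^ 18 := by have := (b_le s).trans P.up; gcongr
  have h2 : e⁻¹ * e ^ 18 = e ^ 17 := by field_simp
  have h3 := pow_small' e0 P.e1 (show 1 < 17 by norm_num)
  have h4 := norm_sub_le (s.a + s.b * ξ) (s.b * ξ)
  rw [add_sub_cancel_right, norm_mul] at h4
  have h5 := norm_add_le s.c (s.d * ξ)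
  rw [norm_mul] at h5
  have h6 : ‖s.d‖ * ‖ξ‖ ≤ ‖s.d‖ * 1 := by
    gcongr; exact h.trans (pow_le_one₀ e0.le (by linarith [P.e1]))
  have := P.la; have := P.up
  have := norm_nonneg s.a; have := norm_nonneg s.b
  unfold nm at *
  constructor <;> linarith

lemma cone_norm (P : PP Γ e s F) {σ : ℂ} (h : Cone e s F σ) : ‖σ‖ ≤ e ^ 17 := by
  obtain ⟨ξ, h1, h2⟩ := h
  obtain ⟨d1, d2⟩ := P.den h1
  have e0 := P.e0
  have h3 := congrArg norm h2
  rw [norm_mul, norm_mul, norm_pow] at h3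
  have h4 : ‖σ‖ * (e / 2) ≤ e ^ 20 * e⁻¹ := by
    calc _ ≤ ‖σ‖ * ‖s.a + s.b * ξ‖ := by gcongr
      _ = _ := h3
      _ ≤ _ := by have := P.Fs; gcongr
  have h5 : e ^ 20 * e⁻¹ = 2 * e ^ 18 * (e / 2) := by field_simp
  rw [h5] at h4
  have h6 := le_of_mul_le_mul_right h4 (by positivity)
  have := pow_small e0 P.e1 17
  linarith [pow_pos e0 17]

lemma cone_of_dom (P : PP Γ e s F) {g : SL} (h : Dom e g) : ∃ κ σ : ℂ, κ ≠ 0 ∧ Cone e s F σ ∧
    (F * s * F * g).a = κ ∧ (F * s * F * g).c = κ * σ := by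
  have e0 := P.e0
  have had := P.Fd.ad
  have hg := h.1
  have hξ : ‖F.d ^ 2 * g.c / g.a‖ ≤ e ^ 18 := by
    rw [norm_div, norm_mul, norm_pow, div_le_iff₀ (norm_pos_iff.2 hg)]
    calc ‖F.d‖ ^ 2 * ‖g.c‖ ≤ e ^ 20 * (2 * e⁻¹ * ‖g.a‖) := by
          have := P.Fs; have := h.2; gcongr
      _ = 2 * e ^ 19 * ‖g.a‖ := by field_simp
      _ ≤ _ := by gcongr; linarith [pow_small e0 P.e1 18, pow_pos e0 18]
  set ξ := F.d ^ 2 * g.c / g.a with hξd
  have hden : s.a + s.b * ξ ≠ 0 := by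
    intro h0; have := (P.den hξ).1; rw [h0, norm_zero] at this; linarith
  have hFa : F.a ≠ 0 := left_ne_zero_of_mul_eq_one had
  have hx : ξ * g.a = F.d ^ 2 * g.c := by rw [hξd]; field_simp
  refine ⟨F.a ^ 2 * g.a * (s.a + s.b * ξ), F.d ^ 2 * (s.c + s.d * ξ) / (s.a + s.b * ξ),
    mul_ne_zero (mul_ne_zero (pow_ne_zero _ hFa) hg) hden, ⟨ξ, hξ, div_mul_cancel₀ _ hden⟩, ?_, ?_⟩
  · simp [P.Fd.1, P.Fd.2]
    linear_combination (-F.a ^ 2 * s.b) * hx - (s.b * g.c * F.a * F.d) * had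
  · rw [mul_assoc (F.a ^ 2 * g.a), mul_div_cancel₀ _ hden]
    simp [P.Fd.1, P.Fd.2]
    linear_combination (-F.a ^ 2 * F.d ^ 2 * s.d) * hx -
      (s.c * g.a * F.a * F.d + s.d * g.c * F.d ^ 2 * (F.a * F.d + 1)) * had

lemma col_bounds (P : PP Γ e s F) {w : SL} (hw : e * nm w ≤ ‖w.a‖) {σ : ℂ} (h : ‖σ‖ ≤ e ^ 17) :
    e / 2 * nm w ≤ ‖w.a + w.b * σ‖ ∧ ‖w.a + w.b * σ‖ ≤ nm w ∧ ‖w.c + w.d * σ‖ ≤ nm w := by
  have e0 := P.e0
  have h3 := pow_small' e0 P.e1 (show 1 < 17 by norm_num)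
  have hσ1 : ‖σ‖ ≤ 1 := h.trans (pow_le_one₀ e0.le (by linarith [P.e1]))
  have h4 := norm_sub_le (w.a + w.b * σ) (w.b * σ)
  rw [add_sub_cancel_right, norm_mul] at h4
  have h5 := norm_add_le w.a (w.b * σ)
  have h6 := norm_add_le w.c (w.d * σ)
  rw [norm_mul] at h5 h6
  have h7 : ‖w.b‖ * ‖σ‖ ≤ nm w * (e / 2) := by
    have := b_le w; have := nm_nonneg w; gcongr; linarith
  have h8 : ‖w.b‖ * ‖σ‖ ≤ ‖w.b‖ * 1 := by gcongr
  have h9 : ‖w.d‖ * ‖σ‖ ≤ ‖w.d‖ * 1 := by gcongr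
  have := norm_nonneg w.a; have := norm_nonneg w.b; have := norm_nonneg w.c
  have := norm_nonneg w.d
  refine ⟨by linarith, ?_, ?_⟩ <;> unfold nm <;> linarith

lemma dom_step (P : PP Γ e s F) {w g : SL} (hw : e * nm w ≤ ‖w.a‖) (h : Dom e g) :
    Dom e (w * (F * s * F) * g) := by
  obtain ⟨κ, σ, hκ, hσ, h1, h2⟩ := P.cone_of_dom h
  obtain ⟨b1, -, b3⟩ := P.col_bounds hw (P.cone_norm hσ)
  have e0 := P.e0
  have e1 : (w * (F * s * F) * g).a = κ * (w.a + w.b * σ) := by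
    rw [mul_assoc, mul_a, h1, h2]; ring
  have e2 : (w * (F * s * F) * g).c = κ * (w.c + w.d * σ) := by
    rw [mul_assoc, mul_c, h1, h2]; ring
  have hn := one_le_nm w
  constructor
  · rw [e1]
    refine mul_ne_zero hκ fun h0 => ?_
    rw [h0, norm_zero] at b1
    nlinarith
  · rw [e1, e2, norm_mul, norm_mul]
    calc ‖κ‖ * ‖w.c + w.d * σ‖ ≤ ‖κ‖ * nm w := by gcongr
      _ = 2 * e⁻¹ * (‖κ‖ * (e / 2 * nm w)) := by field_simp
      _ ≤ _ := by gcongr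

lemma diag_near (P : PP Γ e s F) {g : SL} (hg : g ∈ Γ) (hd : IsDiag g)
    (h : ‖g.d - g.a‖ ≤ e ^ 11) : g = 1 ∨ g = -1 := by
  have e0 := P.e0
  have e1 : (s⁻¹ * g * s).b = -(s.b * s.d * (g.d - g.a)) := by simp [hd.1, hd.2]; ring
  have e2 : (s⁻¹ * g * s).c = s.a * s.c * (g.d - g.a) := by simp [hd.1, hd.2]; ring
  have h1 : IsDiag (s⁻¹ * g * s) := by
    refine P.wpd _ (Γ.mul_mem (Γ.mul_mem (Γ.inv_mem P.sΓ) hg) P.sΓ) ?_
    rw [e1, e2]
    simp only [norm_mul, norm_neg]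
    have := (a_le s).trans P.up; have := (b_le s).trans P.up
    have := (c_le s).trans P.up; have := (d_le s).trans P.up
    calc _ ≤ e⁻¹ * e⁻¹ * e ^ 11 * (e⁻¹ * e⁻¹ * e ^ 11) := by gcongr
      _ = e ^ 18 := by field_simp
      _ ≤ e := by linarith [pow_small' e0 P.e1 (show 1 < 18 by norm_num)]
  have ha : s.a ≠ 0 := norm_pos_iff.1 (e0.trans_le P.la)
  have hc : s.c ≠ 0 := norm_pos_iff.1 (e0.trans_le P.lc)
  have h2 : g.d - g.a = 0 := (mul_eq_zero.1 (e2 ▸ h1.2)).resolve_left (mul_ne_zero ha hc)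
  have h3 : (g.a - 1) * (g.a + 1) = 0 := by linear_combination hd.ad - g.a * h2
  rcases mul_eq_zero.1 h3 with h4 | h4
  · left; ext <;> simp [hd.1, hd.2]
    · linear_combination h4
    · linear_combination h4 + h2
  · right; ext <;> simp [hd.1, hd.2]
    · linear_combination h4
    · linear_combination h4 + h2

lemma ratio_le (P : PP Γ e s F) {N x y z : ℝ} (hN : 0 < N) (h1 : e / 2 * N ≤ y)
    (h2 : x * y ≤ z * N) (hx : 0 ≤ x) : x ≤ 2 * e⁻¹ * z := by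
  have e0 := P.e0
  have h3 : x * (e / 2 * N) ≤ z * N := le_trans (by gcongr) h2
  have h4 : z * N = (2 * e⁻¹ * z) * (e / 2 * N) := by field_simp
  rw [h4] at h3
  exact le_of_mul_le_mul_right h3 (by positivity)

lemma key (P : PP Γ e s F) {w w' : SL} (hw : w ∈ Γ) (hw' : w' ∈ Γ) {N : ℝ} (hN : 0 < N)
    (n1 : N ≤ nm w) (n2 : nm w ≤ e⁻¹ * N) (n3 : N ≤ nm w') (n4 : nm w' ≤ e⁻¹ * N)
    (a1 : e * nm w ≤ ‖w.a‖) (a2 : e * nm w' ≤ ‖w'.a‖) {σ σ' : ℂ} (c1 : Cone e s F σ)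
    (c2 : Cone e s F σ')
    (hpar : (w.a + w.b * σ) * (w'.c + w'.d * σ') = (w'.a + w'.b * σ') * (w.c + w.d * σ)) :
    w' = w ∨ w' = -w := by
  have e0 := P.e0
  have e1 := P.e1
  have s1 := P.cone_norm c1
  have s2 := P.cone_norm c2
  obtain ⟨b1, b2, -⟩ := P.col_bounds a1 s1
  obtain ⟨b3, b4, -⟩ := P.col_bounds a2 s2
  set z := w.a + w.b * σ with hz
  set z' := w'.a + w'.b * σ' with hz'
  have l1 : e / 2 * N ≤ ‖z‖ := le_trans (by gcongr) b1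
  have l2 : e / 2 * N ≤ ‖z'‖ := le_trans (by gcongr) b3
  have hz0 : z ≠ 0 := norm_pos_iff.1 (lt_of_lt_of_le (by positivity) l1)
  have hz0' : z' ≠ 0 := norm_pos_iff.1 (lt_of_lt_of_le (by positivity) l2)
  set μ := z' / z with hμ
  set ν := z / z' with hν
  have hμz : μ * z = z' := by rw [hμ]; field_simp
  have hνz : ν * z' = z := by rw [hν]; field_simp
  have hμν : μ * ν = 1 := by rw [hμ, hν]; field_simp
  have m1 : ‖μ‖ ≤ 2 * e⁻¹ * e⁻¹ :=
    P.ratio_le hN l1 (by rw [← norm_mul, hμz]; linarith) (norm_nonneg _)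
  have m2 : ‖ν‖ ≤ 2 * e⁻¹ * e⁻¹ :=
    P.ratio_le hN l2 (by rw [← norm_mul, hνz]; linarith) (norm_nonneg _)
  have hz1 : μ * (w.c + w.d * σ) = w'.c + w'.d * σ' := by
    apply mul_left_cancel₀ hz0
    linear_combination (w.c + w.d * σ) * hμz - hpar
  set g := w⁻¹ * w' with hg
  have hgΓ : g ∈ Γ := Γ.mul_mem (Γ.inv_mem hw) hw'
  have q1 : g.a + g.b * σ' = μ := by
    simp only [hg, mul_a, mul_b, inv_a, inv_b]
    linear_combination (-w.d) * hμz + w.b * hz1 + μ * w.det + (w.d * μ) * hz - w.d * hz'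
  have q2 : g.c + g.d * σ' = μ * σ := by
    simp only [hg, mul_c, mul_d, inv_c, inv_d]
    linear_combination w.c * hμz - w.a * hz1 + μ * σ * w.det - (w.c * μ) * hz + w.c * hz'
  have q3 : g.d = ν + g.b * σ := by
    linear_combination ν * g.det - (g.d * ν) * q1 + (g.b * ν) * q2 - (g.d - g.b * σ) * hμν
  have q4 : g.b * z = w'.b - w.b * ν := by
    have : w'.b = w.a * g.b + w.b * g.d := by
      rw [show w' = w * g by rw [hg]; group]; rfl
    linear_combination g.b * hz - this - w.b * q3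
  clear_value g μ ν z z'
  have hei : 100 ≤ e⁻¹ := by rw [le_inv_comm₀ (by norm_num) e0]; linarith
  have m3 : ‖g.b‖ ≤ 2 * e⁻¹ * (3 * e⁻¹ ^ 3) := by
    refine P.ratio_le hN l1 ?_ (norm_nonneg _)
    rw [← norm_mul, q4]
    have i1 := norm_sub_le w'.b (w.b * ν)
    rw [norm_mul] at i1
    have i2 : ‖w.b‖ * ‖ν‖ ≤ (e⁻¹ * N) * (2 * e⁻¹ * e⁻¹) := by
      have := (b_le w).trans n2; gcongr
    have i3 := (b_le w').trans n4
    have i4 : e⁻¹ * N ≤ e⁻¹ ^ 3 * N := by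
      gcongr; exact le_self_pow₀ (by linarith) (by norm_num)
    linarith
  have m4 : ‖g.d‖ ≤ 3 * e⁻¹ * e⁻¹ := by
    have i1 := norm_add_le ν (g.b * σ)
    rw [← q3, norm_mul] at i1
    have i2 : ‖g.b‖ * ‖σ‖ ≤ 2 * e⁻¹ * (3 * e⁻¹ ^ 3) * e ^ 17 := by gcongr
    have i3 : 2 * e⁻¹ * (3 * e⁻¹ ^ 3) * e ^ 17 = 6 * e ^ 13 := by field_simp; norm_num
    have i4 := pow_small' e0 e1 (show 0 < 13 by norm_num)
    nlinarith
  have m5 : ‖g.c‖ ≤ 5 * e ^ 15 := by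
    have i1 := norm_sub_le (μ * σ) (g.d * σ')
    rw [show μ * σ - g.d * σ' = g.c by linear_combination -q2, norm_mul, norm_mul] at i1
    have i2 : ‖μ‖ * ‖σ‖ ≤ 2 * e⁻¹ * e⁻¹ * e ^ 17 := by gcongr
    have i3 : ‖g.d‖ * ‖σ'‖ ≤ 3 * e⁻¹ * e⁻¹ * e ^ 17 := by gcongr
    have i4 : e⁻¹ * e⁻¹ * e ^ 17 = e ^ 15 := by field_simp
    nlinarith
  have hd : IsDiag g := by
    refine P.wpd g hgΓ ?_
    rw [norm_mul]
    calc ‖g.b‖ * ‖g.c‖ ≤ 2 * e⁻¹ * (3 * e⁻¹ ^ 3) * (5 * e ^ 15) := by gcongr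
      _ = 30 * e ^ 11 := by field_simp; norm_num
      _ ≤ e := by linarith [pow_small' e0 e1 (show 1 < 11 by norm_num)]
  have hnear : ‖g.d - g.a‖ ≤ e ^ 11 := by
    obtain ⟨ξ, x1, x2⟩ := c1
    obtain ⟨ξ', x3, x4⟩ := c2
    have r1 : g.a = μ := by rw [← q1, hd.1]; ring
    have r2 : g.d = ν := by rw [q3, hd.1]; ring
    have r3 : ν * σ' = μ * σ := by rw [← q2, hd.2, r2]; ring
    have hFd : F.d ^ 2 ≠ 0 := pow_ne_zero _ (right_ne_zero_of_mul_eq_one P.Fd.ad)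
    have r4 : ν * ((s.c + s.d * ξ') * (s.a + s.b * ξ)) =
        μ * ((s.c + s.d * ξ) * (s.a + s.b * ξ')) := by
      apply mul_left_cancel₀ hFd
      linear_combination (s.a + s.b * ξ) * (s.a + s.b * ξ') * r3 - ν * (s.a + s.b * ξ) * x4 +
        μ * (s.a + s.b * ξ') * x2
    have r5 : (ν - μ) * (s.a * s.c) = μ * (s.c * s.b * ξ' + s.d * ξ * (s.a + s.b * ξ')) -
        ν * (s.c * s.b * ξ + s.d * ξ' * (s.a + s.b * ξ)) := by linear_combination r4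
    have hb : ∀ ξ ξ' : ℂ, ‖ξ‖ ≤ e ^ 18 → ‖ξ'‖ ≤ e ^ 18 →
        ‖s.c * s.b * ξ' + s.d * ξ * (s.a + s.b * ξ')‖ ≤ 2 * e ^ 16 := by
      intro ξ ξ' y1 y2
      have i0 : ‖s.a + s.b * ξ'‖ ≤ e⁻¹ := by
        have i1 := norm_add_le s.a (s.b * ξ')
        rw [norm_mul] at i1
        have i2 : ‖s.b‖ * ‖ξ'‖ ≤ ‖s.b‖ * 1 := by
          gcongr; exact y2.trans (pow_le_one₀ e0.le (by linarith))
        have := P.up; have := norm_nonneg s.c; have := norm_nonneg s.d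
        unfold nm at *; linarith
      have i1 := norm_add_le (s.c * s.b * ξ') (s.d * ξ * (s.a + s.b * ξ'))
      simp only [norm_mul] at i1
      have := (b_le s).trans P.up
      have := (c_le s).trans P.up; have := (d_le s).trans P.up
      have i2 : ‖s.c‖ * ‖s.b‖ * ‖ξ'‖ ≤ e⁻¹ * e⁻¹ * e ^ 18 := by gcongr
      have i3 : ‖s.d‖ * ‖ξ‖ * ‖s.a + s.b * ξ'‖ ≤ e⁻¹ * e ^ 18 * e⁻¹ := by gcongr
      have i4 : e⁻¹ * e⁻¹ * e ^ 18 = e ^ 16 := by field_simp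
      have i5 : e⁻¹ * e ^ 18 * e⁻¹ = e ^ 16 := by field_simp
      linarith
    have i1 := norm_sub_le (μ * (s.c * s.b * ξ' + s.d * ξ * (s.a + s.b * ξ')))
      (ν * (s.c * s.b * ξ + s.d * ξ' * (s.a + s.b * ξ)))
    rw [← r5, norm_mul, norm_mul, norm_mul, norm_mul] at i1
    have i2 : ‖μ‖ * ‖s.c * s.b * ξ' + s.d * ξ * (s.a + s.b * ξ')‖ ≤ 2 * e⁻¹ * e⁻¹ * (2 * e ^ 16) := by
      have := hb ξ ξ' x1 x3; gcongr
    have i3 : ‖ν‖ * ‖s.c * s.b * ξ + s.d * ξ' * (s.a + s.b * ξ)‖ ≤ 2 * e⁻¹ * e⁻¹ * (2 * e ^ 16) := by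
      have := hb ξ' ξ x3 x1; gcongr
    have i4 : 2 * e⁻¹ * e⁻¹ * (2 * e ^ 16) = 4 * e ^ 12 * (e * e) := by field_simp; norm_num
    have i5 : ‖ν - μ‖ * (e * e) ≤ ‖ν - μ‖ * (‖s.a‖ * ‖s.c‖) := by
      have := P.la; have := P.lc; gcongr
    have i6 : ‖ν - μ‖ * (e * e) ≤ 8 * e ^ 12 * (e * e) := by linarith
    have i7 := le_of_mul_le_mul_right i6 (by positivity)
    rw [r1, r2]
    linarith [pow_small e0 e1 11, pow_pos e0 11]
  rcases P.diag_near hgΓ hd hnear with h | h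
  · left; rw [show w' = w * g by rw [hg]; group, h, mul_one]
  · right; rw [show w' = w * g by rw [hg]; group, h]; simp

lemma free (P : PP Γ e s F) (A : Set SL) {N : ℝ} (hN : 0 < N)
    (hA : ∀ w ∈ A, w ∈ Γ ∧ N ≤ nm w ∧ nm w ≤ e⁻¹ * N ∧ e * nm w ≤ ‖w.a‖ ∧ -w ∉ A) :
    ∀ l l' : List SL, (∀ w ∈ l, w ∈ A) → (∀ w ∈ l', w ∈ A) → l.length = l'.length →
      ((l.map fun w => w * (F * s * F)).prod = (l'.map fun w => w * (F * s * F)).prod ∨
        (l.map fun w => w * (F * s * F)).prod = -(l'.map fun w => w * (F * s * F)).prod) →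
      l = l' := by
  have hdom : ∀ l : List SL, (∀ w ∈ l, w ∈ A) → Dom e (l.map fun w => w * (F * s * F)).prod := by
    intro l
    induction l with
    | nil => intro _; have := P.e0; exact ⟨by simp, by simp; positivity⟩
    | cons w l ih =>
      intro h
      rw [List.map_cons, List.prod_cons]
      exact P.dom_step (hA w (h w (by simp))).2.2.2.1 (ih fun x hx => h x (by simp [hx]))
  intro l
  induction l with
  | nil => intro l' _ _ h _; exact (List.length_eq_zero_iff.1 h.symm).symm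
  | cons w l ih =>
    intro l' h1 h2 h3 h4
    obtain ⟨w', l', rfl⟩ := List.exists_cons_of_length_eq_add_one h3.symm
    have hl : ∀ x ∈ l, x ∈ A := fun x hx => h1 x (by simp [hx])
    have hl' : ∀ x ∈ l', x ∈ A := fun x hx => h2 x (by simp [hx])
    have hw := h1 w (by simp)
    have hw' := h2 w' (by simp)
    obtain ⟨g1, n1, n2, a1, z1⟩ := hA w hw
    obtain ⟨g2, n3, n4, a2, -⟩ := hA w' hw'
    obtain ⟨κ, σ, hκ, hσ, p1, p2⟩ := P.cone_of_dom (hdom l hl)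
    obtain ⟨κ', σ', hκ', hσ', p3, p4⟩ := P.cone_of_dom (hdom l' hl')
    simp only [List.map_cons, List.prod_cons] at h4
    set x := (l.map fun w => w * (F * s * F)).prod
    set x' := (l'.map fun w => w * (F * s * F)).prod
    have hww : w' = w := by
      refine (P.key g1 g2 hN n1 n2 n3 n4 a1 a2 hσ hσ' ?_).resolve_right
        fun h => z1 (h ▸ hw')
      apply mul_left_cancel₀ (mul_ne_zero hκ hκ')
      rw [mul_assoc w, mul_assoc w'] at h4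
      rcases h4 with h4 | h4
      · have ea := congrArg SL.a h4
        have ec := congrArg SL.c h4
        rw [mul_a, mul_a w', p1, p2, p3, p4] at ea
        rw [mul_c, mul_c w', p1, p2, p3, p4] at ec
        linear_combination (κ' * (w'.c + w'.d * σ')) * ea - (κ' * (w'.a + w'.b * σ')) * ec
      · have ea := congrArg SL.a h4
        have ec := congrArg SL.c h4
        rw [neg_a, mul_a, mul_a w', p1, p2, p3, p4] at ea
        rw [neg_c, mul_c, mul_c w', p1, p2, p3, p4] at ec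
        linear_combination (κ' * (w'.c + w'.d * σ')) * ea - (κ' * (w'.a + w'.b * σ')) * ec
    subst hww
    congr 1
    refine ih l' hl hl' (by simpa using h3) ?_
    rcases h4 with h4 | h4
    · exact Or.inl (mul_left_cancel h4)
    · rw [← mul_neg] at h4
      exact Or.inr (mul_left_cancel h4)

end PP

end Pool.Agent.MP_e37573_al

end

-- part MP_e37573_al.Free
section

/-!
Large subsets of balls generate free semigroups after multiplication by uniformly short elements.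
-/

namespace Pool.Agent.MP_e37573_al

open SL Pool.Agent.MP_646035_al

lemma pigeon {α ι : Type*} [Fintype ι] [Nonempty ι] (A : Finset α) (P : ι → α → Prop)
    (h : ∀ a ∈ A, ∃ i, P i a) :
    ∃ i, ∃ A1 ⊆ A, (∀ a ∈ A1, P i a) ∧ A.card ≤ Fintype.card ι * A1.card := by
  classical
  obtain ⟨i, -, hi⟩ := Finset.exists_max_image Finset.univ (fun i => (A.filter (P i)).card)
    Finset.univ_nonempty
  refine ⟨i, A.filter (P i), Finset.filter_subset _ _, fun a ha => (Finset.mem_filter.1 ha).2, ?_⟩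
  calc A.card ≤ (Finset.univ.biUnion fun j => A.filter (P j)).card := by
        refine Finset.card_le_card fun a ha => ?_
        obtain ⟨j, hj⟩ := h a ha
        exact Finset.mem_biUnion.2 ⟨j, Finset.mem_univ _, Finset.mem_filter.2 ⟨ha, hj⟩⟩
    _ ≤ _ := Finset.card_biUnion_le_card_mul _ _ _ fun j hj => hi j hj

lemma row_choice {r : ℝ} (r0 : 0 < r) (r1 : r ≤ 1 / 100) (x y : ℂ) {p q : ℂ} (hp : ‖p‖ ≤ r⁻¹ ^ 8)
    (hq : r ^ 15 ≤ ‖q‖) :
    r ^ 25 * (‖x‖ + ‖y‖) ≤ ‖x‖ ∨ r ^ 25 * (‖x‖ + ‖y‖) ≤ ‖x * p + y * q‖ := by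
  have hx := norm_nonneg x
  have hy := norm_nonneg y
  have h25 := pow_small' r0 r1 (show 0 < 25 by norm_num)
  rcases le_total (r ^ 24 * ‖y‖) ‖x‖ with h | h
  · left
    have : r ^ 25 * ‖y‖ = r * (r ^ 24 * ‖y‖) := by ring
    nlinarith
  · right
    have i1 := norm_sub_le (x * p + y * q) (x * p)
    rw [add_sub_cancel_left, norm_mul, norm_mul] at i1
    have i2 : ‖x‖ * ‖p‖ ≤ (r ^ 24 * ‖y‖) * r⁻¹ ^ 8 := by gcongr
    have i3 : (r ^ 24 * ‖y‖) * r⁻¹ ^ 8 = r ^ 16 * ‖y‖ := by field_simp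
    have i4 : ‖y‖ * r ^ 15 ≤ ‖y‖ * ‖q‖ := by gcongr
    have i5 := pow_small r0 r1 15
    have i6 := pow_small' r0 r1 (show 15 < 25 by norm_num)
    have i7 := pow_small' r0 r1 (show 0 < 24 by norm_num)
    have i8 : ‖x‖ ≤ ‖y‖ := by nlinarith
    have i9 : r ^ 25 * (‖x‖ + ‖y‖) ≤ r ^ 15 / 100 * (‖y‖ + ‖y‖) := by gcongr
    nlinarith [mul_nonneg hy (pow_pos r0 15).le]

lemma pow_mem_ball {G : Type*} [Group G] {T : Finset G} {N : ℕ} {f : G} (hf : f ∈ ball T N)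
    (k : ℕ) : f ^ k ∈ ball T (k * N) := by
  induction k with
  | zero => simpa using one_mem_ball T 0
  | succ k ih => rw [pow_succ, Nat.succ_mul]; exact mul_mem_ball ih hf

lemma diag_pow {f : SL} (hf : IsDiag f) (k : ℕ) : IsDiag (f ^ k) ∧ (f ^ k).d = f.d ^ k := by
  induction k with
  | zero => exact ⟨by simpa using isDiag_one, by simp⟩
  | succ k ih => rw [pow_succ]; exact ⟨ih.1.mul hf, by simp [hf.1, ih.2, pow_succ]⟩

lemma lower_of_prod {x y : ℂ} {r : ℝ} (r0 : 0 < r) (h : r ^ 7 ≤ ‖x * y‖) (hy : ‖y‖ ≤ r⁻¹ ^ 8) :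
    r ^ 15 ≤ ‖x‖ := by
  rw [norm_mul] at h
  have h1 : ‖x‖ * ‖y‖ ≤ ‖x‖ * r⁻¹ ^ 8 := by gcongr
  have h2 : r ^ 15 = r ^ 7 * r ^ 8 := by ring
  have h3 : ‖x‖ = ‖x‖ * r⁻¹ ^ 8 * r ^ 8 := by field_simp
  rw [h2, h3]; gcongr; linarith

/-- The conclusion of the main lemma. -/
def FreeOn (σ u : SL) (A : Finset SL) : Prop :=
  ∀ l l' : List SL, (∀ w ∈ l, w ∈ A) → (∀ w ∈ l', w ∈ A) → l.length = l'.length →
    ((l.map fun w => σ * w * u).prod = (l'.map fun w => σ * w * u).prod ∨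
      (l.map fun w => σ * w * u).prod = -(l'.map fun w => σ * w * u).prod) → l = l'

lemma main_normal {Γ : Subgroup SL} {T : Finset SL} (hΓ : Good Γ) (hT : ∀ t ∈ T, t ∈ Γ)
    (hgen : ∀ γ ∈ Γ, ∃ m, γ ∈ ball T m) {N : ℕ} {f : SL} (hf : f ∈ ball T N) (hfd : IsDiag f)
    (hτ : 10 ^ 7 ≤ ‖f.a‖) (hb : ∀ s ∈ ball T 1, nm s ≤ ‖f.a‖ ^ 8) (m : ℕ) (A : Finset SL)
    (hA : ∀ w ∈ A, w ∈ ball T m) (hA' : ∀ w ∈ A, -w ∉ A) :
    ∃ σ ∈ ball T 1, ∃ u ∈ ball T (1 + (700 * N + 1 + 700 * N)), ∃ A1 ⊆ A,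
      A.card ≤ 4 * (m + 1) * A1.card ∧ FreeOn σ u A1 := by
  obtain ⟨s, hs, hsd⟩ : ∃ s ∈ ball T 1, ¬ IsDiag s := by
    by_contra hc
    push Not at hc
    refine hΓ.not_elem 1 2 fun γ hγ => ⟨γ, 1, by simp, ?_, by simp⟩
    obtain ⟨k, hk⟩ := hgen γ hγ
    simpa using ball_induction (S := T) (fun _ g => IsDiag g) isDiag_one (fun _ _ h => h)
      (fun _ g x h hx => h.mul (hc x (letter_mem_ball hx))) k γ hk
  have hfΓ := ball_subset hT hf
  have hsΓ := ball_subset hT hs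
  set τ := ‖f.a‖ with hτd
  have hτ0 : 0 < τ := by linarith
  have hτ1 : 1 ≤ τ := by linarith
  set r := τ⁻¹ with hr
  have r0 : 0 < r := inv_pos.2 hτ0
  have hrτ : r⁻¹ = τ := inv_inv τ
  have r1 : r ≤ 1 / 100 := by rw [hr, inv_le_comm₀ hτ0 (by norm_num)]; linarith
  have hW : ∀ g ∈ Γ, ‖g.b * g.c‖ ≤ r ^ 7 → IsDiag g := by
    intro g hg h
    refine hΓ.wpd hfΓ hfd (by linarith) hg ?_
    calc _ ≤ r ^ 7 * (τ * τ ^ 6) := by
          have h4 : τ ^ 4 ≤ τ ^ 6 := pow_le_pow_right₀ hτ1 (by norm_num)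
          have h5 : 10 ^ 6 ≤ τ := by linarith
          exact mul_le_mul h (mul_le_mul h5 h4 (by positivity) (by positivity)) (by positivity)
            (by positivity)
      _ = 1 := by rw [hr]; field_simp
  have hW' : ∀ g ∈ Γ, r ^ 7 ≤ ‖g.a * g.d‖ := by
    intro g hg
    have h := hΓ.wpd' hfΓ hfd (by linarith) hg
    have h1 : ‖g.a * g.d‖ * (10 ^ 7 * τ ^ 6) ≤ ‖g.a * g.d‖ * (τ * τ ^ 6) := by gcongr
    have h2 : r ^ 7 * (τ * τ ^ 6) = 1 := by rw [hr]; field_simp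
    have h3 : r ^ 7 * (τ * τ ^ 6) ≤ ‖g.a * g.d‖ * (τ * τ ^ 6) := by linarith
    exact le_of_mul_le_mul_right h3 (by positivity)
  have hsn : nm s ≤ r⁻¹ ^ 8 := by rw [hrτ]; exact hb s hs
  have hbc : r ^ 7 ≤ ‖s.b * s.c‖ := le_of_lt (lt_of_not_ge fun h => hsd (hW s hsΓ h))
  have la := lower_of_prod r0 (hW' s hsΓ) ((d_le s).trans hsn)
  have ld := lower_of_prod r0 (by rw [mul_comm]; exact hW' s hsΓ) ((a_le s).trans hsn)
  have lb := lower_of_prod r0 hbc ((c_le s).trans hsn)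
  have lc := lower_of_prod r0 (by rw [mul_comm]; exact hbc) ((b_le s).trans hsn)
  have hpw : ∀ {i j : ℕ}, i ≤ j → r ^ j ≤ r ^ i := fun h =>
    pow_le_pow_of_le_one r0.le (by linarith) h
  have he : (r ^ 70)⁻¹ = τ ^ 70 := by rw [← inv_pow, hrτ]
  have P : PP Γ (r ^ 70) s (f ^ 700) := by
    refine ⟨by positivity, ?_, hsΓ, ?_, (hpw (by norm_num)).trans la, (hpw (by norm_num)).trans lb,
      (hpw (by norm_num)).trans lc, (hpw (by norm_num)).trans ld,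
      fun g hg h => hW g hg (h.trans (hpw (by norm_num))), (diag_pow hfd _).1, ?_⟩
    · exact (hpw (show 1 ≤ 70 by norm_num)).trans (by simpa using r1)
    · rw [he]; exact (hb s hs).trans (pow_le_pow_right₀ hτ1 (by norm_num))
    · have : ‖f.d‖ = r := by
        rw [hr]; apply eq_inv_of_mul_eq_one_right; rw [hτd, ← norm_mul, hfd.ad, norm_one]
      rw [(diag_pow hfd _).2, norm_pow, this, ← pow_mul, ← pow_mul]
  let c : Bool → SL := fun b => if b then s else 1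
  have hc : ∀ b, c b ∈ ball T 1 := fun b => by cases b <;> simp [c, hs, one_mem_ball]
  have hball : ∀ k, ∀ w ∈ ball T k, nm w ≤ 2 * τ ^ (8 * k) := by
    intro k w hw
    refine ball_induction (S := T) (fun k g => nm g ≤ 2 * τ ^ (8 * k)) (by simp) ?_ ?_ k w hw
    · intro k g h
      exact h.trans (by gcongr; omega)
    · intro k g x h hx
      refine (nm_mul _ _).trans ?_
      rw [mul_add, pow_add, ← mul_assoc]
      exact mul_le_mul h (hb x (letter_mem_ball hx)) (nm_nonneg _) (by positivity)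
  obtain ⟨⟨b1, b2, j⟩, A1, hA1, hP, hcard⟩ := pigeon (ι := Bool × Bool × Fin (m + 1)) A
    (fun i w => (τ ^ 70) ^ (i.2.2 : ℕ) ≤ nm (c i.1 * w * c i.2.1) ∧
      nm (c i.1 * w * c i.2.1) ≤ τ ^ 70 * (τ ^ 70) ^ (i.2.2 : ℕ) ∧
      r ^ 70 * nm (c i.1 * w * c i.2.1) ≤ ‖(c i.1 * w * c i.2.1).a‖) (by
    intro w hw
    have hw0 := nm_nonneg w
    have hsa := (a_le s).trans hsn
    have h25 : 0 < r ^ 25 := by positivity
    obtain ⟨b2, hb2⟩ : ∃ b2, r ^ 25 * (nm w / 2) ≤ ‖(w * c b2).a‖ + ‖(w * c b2).c‖ := by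
      rcases le_total (‖w.a‖ + ‖w.b‖) (‖w.c‖ + ‖w.d‖) with h | h
      · have h1 : r ^ 25 * (nm w / 2) ≤ r ^ 25 * (‖w.c‖ + ‖w.d‖) := by gcongr; unfold nm; linarith
        rcases row_choice r0 r1 w.c w.d hsa lc with h2 | h2
        · exact ⟨false, by simp only [c]; simp; linarith [norm_nonneg w.a]⟩
        · exact ⟨true, by simp only [c]; simp; linarith [norm_nonneg (w.a * s.a + w.b * s.c)]⟩
      · have h1 : r ^ 25 * (nm w / 2) ≤ r ^ 25 * (‖w.a‖ + ‖w.b‖) := by gcongr; unfold nm; linarith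
        rcases row_choice r0 r1 w.a w.b hsa lc with h2 | h2
        · exact ⟨false, by simp only [c]; simp; linarith [norm_nonneg w.c]⟩
        · exact ⟨true, by simp only [c]; simp; linarith [norm_nonneg (w.c * s.a + w.d * s.c)]⟩
    obtain ⟨b1, hb1⟩ : ∃ b1, r ^ 25 * (‖(w * c b2).a‖ + ‖(w * c b2).c‖) ≤
        ‖(c b1 * (w * c b2)).a‖ := by
      generalize w * c b2 = v
      rcases row_choice r0 r1 v.a v.c hsa lb with h2 | h2
      · exact ⟨false, by simp only [c]; simpa using h2⟩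
      · exact ⟨true, by simp only [c]; simpa [mul_comm] using h2⟩
    rw [← mul_assoc] at hb1
    set v := c b1 * w * c b2 with hv
    have hv1 : nm v ≤ τ ^ 8 * nm w * τ ^ 8 := by
      refine (nm_mul3 _ _ _).trans ?_
      have := hb _ (hc b1); have := hb _ (hc b2); have := nm_nonneg (c b2)
      gcongr
    have hQ : 1 < τ ^ 70 := one_lt_pow₀ (by linarith) (by norm_num)
    obtain ⟨j, j1, j2⟩ := exists_nat_pow_near (one_le_nm v) hQ
    have hj : j < m + 1 := by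
      have h1 : nm v ≤ τ ^ 8 * (2 * τ ^ (8 * m)) * τ ^ 8 := hv1.trans (by
        have := hball m w (hA w hw); gcongr)
      have h2 : τ ^ 8 * (2 * τ ^ (8 * m)) * τ ^ 8 < τ ^ 8 * (τ * τ ^ (8 * m)) * τ ^ 8 := by
        gcongr; linarith
      have h3 : τ ^ 8 * (τ * τ ^ (8 * m)) * τ ^ 8 = τ ^ (8 * m + 17) := by ring
      have h4 : τ ^ (8 * m + 17) ≤ (τ ^ 70) ^ (m + 1) := by
        rw [← pow_mul]; exact pow_le_pow_right₀ hτ1 (by omega)
      exact (pow_lt_pow_iff_right₀ hQ).1 (by linarith)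
    refine ⟨(b1, b2, ⟨j, hj⟩), j1, by rw [← pow_succ']; exact j2.le, ?_⟩
    calc r ^ 70 * nm v ≤ r ^ 70 * (τ ^ 8 * nm w * τ ^ 8) := by gcongr
      _ = r ^ 54 * nm w := by rw [hr]; field_simp
      _ ≤ r ^ 50 / 2 * nm w := by
          gcongr; linarith [pow_small' r0 r1 (show 50 < 54 by norm_num), pow_pos r0 50]
      _ = r ^ 25 * (r ^ 25 * (nm w / 2)) := by ring
      _ ≤ _ := le_trans (by gcongr) hb1)
  refine ⟨c b1, hc b1, c b2 * (f ^ 700 * s * f ^ 700), mul_mem_ball (hc b2)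
    (mul_mem_ball (mul_mem_ball (pow_mem_ball hf _) hs) (pow_mem_ball hf _)), A1, hA1, ?_, ?_⟩
  · simpa [← mul_assoc] using hcard
  intro l l' h1 h2 h3 h4
  have hinj : Function.Injective fun w => c b1 * w * c b2 := fun x y h => by simpa using h
  apply List.map_injective_iff.2 hinj
  refine P.free ((fun w => c b1 * w * c b2) '' A1) (N := (τ ^ 70) ^ (j : ℕ)) (by positivity) ?_
    _ _ ?_ ?_ (by simpa using h3) ?_
  · rintro _ ⟨w, hw, rfl⟩
    obtain ⟨p1, p2, p3⟩ := hP w hw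
    refine ⟨Γ.mul_mem (Γ.mul_mem (ball_subset hT (hc b1)) (ball_subset hT (hA w (hA1 hw))))
      (ball_subset hT (hc b2)), p1, by rw [he]; exact p2, p3, ?_⟩
    rintro ⟨w', hw', h⟩
    have : w' = -w := hinj (by simpa using h)
    exact hA' w (hA1 hw) (this ▸ hA1 hw')
  · intro w hw
    obtain ⟨x, hx, rfl⟩ := List.mem_map.1 hw
    exact ⟨x, h1 x hx, rfl⟩
  · intro w hw
    obtain ⟨x, hx, rfl⟩ := List.mem_map.1 hw
    exact ⟨x, h2 x hx, rfl⟩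
  · simpa only [List.map_map, Function.comp_def, mul_assoc] using h4

theorem main_free : ∃ b : ℕ, ∀ (Γ : Subgroup SL) (T : Finset SL), Good Γ → (∀ t ∈ T, t ∈ Γ) →
    (∀ γ ∈ Γ, ∃ m, γ ∈ ball T m) → ∀ (m : ℕ) (A : Finset SL), (∀ w ∈ A, w ∈ ball T m) →
    (∀ w ∈ A, -w ∉ A) → ∃ σ ∈ ball T 1, ∃ u ∈ ball T b, ∃ A1 ⊆ A,
      A.card ≤ 4 * (m + 1) * A1.card ∧ FreeOn σ u A1 := by
  classical
  obtain ⟨N, hN⟩ := setup
  refine ⟨1 + (700 * N + 1 + 700 * N), fun Γ T hΓ hT hgen m A hA hA' => ?_⟩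
  obtain ⟨h, f, hf, hfd, hτ, hb⟩ := hN Γ T hΓ hT hgen
  let φ : SL →* SL := (MulAut.conj h).toMonoidHom
  have hφ : ∀ g, φ g = h * g * h⁻¹ := fun g => rfl
  have hinj : Function.Injective φ := (MulAut.conj h).injective
  have hneg : ∀ g, φ (-g) = -φ g := fun g => by simp [hφ]
  have hball : ∀ k, ball (T.image φ) k = φ '' ball T k := ball_map φ T
  obtain ⟨σ, hσ, u, hu, A1, hA1, hcard, hfree⟩ := main_normal (T := T.image φ) (hΓ.conj h)
    (fun t ht => by obtain ⟨x, hx, rfl⟩ := Finset.mem_image.1 ht; exact conj_mem_cj h (hT x hx))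
    (fun γ hγ => by
      obtain ⟨x, hx, rfl⟩ := mem_cj.1 hγ
      obtain ⟨k, hk⟩ := hgen x hx
      exact ⟨k, by rw [hball]; exact ⟨x, hk, rfl⟩⟩)
    (N := N) (f := φ f) (by rw [hball]; exact ⟨f, hf, rfl⟩) hfd hτ
    (fun s hs => by rw [hball] at hs; obtain ⟨x, hx, rfl⟩ := hs; exact hb x hx) m (A.image φ)
    (fun w hw => by
      obtain ⟨x, hx, rfl⟩ := Finset.mem_image.1 hw
      rw [hball]; exact ⟨x, hA x hx, rfl⟩)
    (fun w hw hw' => by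
      obtain ⟨x, hx, rfl⟩ := Finset.mem_image.1 hw
      obtain ⟨y, hy, hxy⟩ := Finset.mem_image.1 hw'
      rw [← hneg] at hxy
      exact hA' x hx (hinj hxy ▸ hy))
  rw [hball] at hσ hu
  obtain ⟨σ, hσ, rfl⟩ := hσ
  obtain ⟨u, hu, rfl⟩ := hu
  obtain ⟨A2, hA2, rfl⟩ := Finset.subset_image_iff.1 hA1
  rw [Finset.card_image_of_injective _ hinj, Finset.card_image_of_injective _ hinj] at hcard
  refine ⟨σ, hσ, u, hu, A2, hA2, hcard, fun l l' h1 h2 h3 h4 => ?_⟩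
  apply List.map_injective_iff.2 hinj
  have e : ∀ l : List SL, ((l.map φ).map fun w => φ σ * w * φ u).prod =
      φ (l.map fun w => σ * w * u).prod := fun l => by
    rw [map_list_prod, List.map_map, List.map_map]; congr 2; funext w; simp
  refine hfree _ _ ?_ ?_ (by simpa using h3) ?_
  · intro w hw
    obtain ⟨x, hx, rfl⟩ := List.mem_map.1 hw
    exact Finset.mem_image_of_mem φ (h1 x hx)
  · intro w hw
    obtain ⟨x, hx, rfl⟩ := List.mem_map.1 hw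
    exact Finset.mem_image_of_mem φ (h2 x hx)
  · rw [e, e, ← hneg]
    exact h4.imp (congrArg φ) (congrArg φ)

end Pool.Agent.MP_e37573_al

end

-- part MP_e37573_al.MIF
section

/-!
Cocompact lattices satisfy no mixed identity.
-/

namespace Pool.Agent.MP_e37573_al

open SL Filter Topology Pool.Agent.MP_646035_al

/-- alternating words -/
def core {H : Type*} [Group H] (t : H) : List (ℤ × H) → ℤ → H
  | [], n => t ^ n
  | y :: l, n => t ^ y.1 * y.2 * core t l n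

lemma map_core {H K : Type*} [Group H] [Group K] (f : H →* K) (t : H) (l : List (ℤ × H)) (n : ℤ) :
    f (core t l n) = core (f t) (l.map (Prod.map id f)) n := by
  induction l with
  | nil => simp [core]
  | cons y l ih => simp [core, ih]

lemma eta_tendsto {f : SL} (hf : IsDiag f) (h2 : 2 ≤ ‖f.a‖) :
    Tendsto (fun k : ℕ => (f ^ k).d ^ 2) atTop (𝓝 0) := by
  have h1 := (diag_norms hf h2).1
  have := (tendsto_pow_atTop_nhds_zero_of_norm_lt_one (x := f.d) (by linarith)).pow 2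
  simp only [← (diag_pow hf _).2] at this
  simpa using this

lemma conj_diag {F : SL} (hF : IsDiag F) (X : SL) : (F * X * F⁻¹).a = X.a ∧
    F.d ^ 2 * (F * X * F⁻¹).b = X.b ∧ (F * X * F⁻¹).c = F.d ^ 2 * X.c ∧ (F * X * F⁻¹).d = X.d := by
  have h := hF.ad
  refine ⟨?_, ?_, ?_, ?_⟩ <;> simp [hF.1, hF.2]
  · linear_combination X.a * h
  · linear_combination X.b * (F.a * F.d + 1) * h
  · ring
  · linear_combination X.d * h

lemma core_tendsto {f G : SL} (hf : IsDiag f) (h2 : 2 ≤ ‖f.a‖) (hG : ∀ n : ℤ, n ≠ 0 → (G ^ n).b ≠ 0)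
    {n : ℤ} (hn : n ≠ 0) (l : List (ℤ × SL)) (hl : ∀ y ∈ l, y.1 ≠ 0 ∧ y.2.c ≠ 0) : ∃ p ≠ 0,
    Tendsto (fun k : ℕ => ((f ^ k).d ^ 2) ^ (l.length + 1) * (core (f ^ k * G * (f ^ k)⁻¹) l n).b)
      atTop (𝓝 p) ∧
    Tendsto (fun k : ℕ => ((f ^ k).d ^ 2) ^ (l.length + 1) * (core (f ^ k * G * (f ^ k)⁻¹) l n).d)
      atTop (𝓝 0) := by
  have hη := eta_tendsto hf h2
  have hc := fun (k : ℕ) (m : ℤ) => conj_diag (diag_pow hf k).1 (G ^ m)
  induction l with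
  | nil =>
    refine ⟨_, hG n hn, ?_, ?_⟩
    · simp only [core, conj_zpow, List.length_nil, zero_add, pow_one, (hc _ n).2.1]
      exact tendsto_const_nhds
    · simp only [core, conj_zpow, List.length_nil, zero_add, pow_one, (hc _ n).2.2.2]
      simpa using hη.mul_const (G ^ n).d
  | cons y l ih =>
    obtain ⟨p, p0, h3, h4⟩ := ih fun z hz => hl z (by simp [hz])
    obtain ⟨y1, y2⟩ := hl y (by simp)
    have h5 := (h3.const_mul y.2.a).add (h4.const_mul y.2.b)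
    have h6 := (h3.const_mul y.2.c).add (h4.const_mul y.2.d)
    refine ⟨(G ^ y.1).b * (y.2.c * p), mul_ne_zero (hG _ y1) (mul_ne_zero y2 p0), ?_, ?_⟩
    · have := ((hη.mul_const (G ^ y.1).a).mul h5).add (h6.const_mul (G ^ y.1).b)
      simp only [zero_mul, mul_zero, add_zero, zero_add] at this
      refine this.congr fun k => ?_
      obtain ⟨c1, c2, -, -⟩ := hc k y.1
      simp only [core, conj_zpow]
      generalize f ^ k * G ^ y.1 * (f ^ k)⁻¹ = W at *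
      rw [← c1, ← c2]
      simp only [mul_a, mul_b, List.length_cons]
      ring
    · have := (((hη.mul hη).mul_const (G ^ y.1).c).mul h5).add ((hη.mul_const (G ^ y.1).d).mul h6)
      simp only [zero_mul, mul_zero, add_zero] at this
      refine this.congr fun k => ?_
      obtain ⟨-, -, c3, c4⟩ := hc k y.1
      simp only [core, conj_zpow]
      generalize f ^ k * G ^ y.1 * (f ^ k)⁻¹ = W at *
      simp only [mul_c, mul_d, List.length_cons, c3, c4]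
      ring

lemma quad_ne {η : ℕ → ℂ} (h : Tendsto η atTop (𝓝 0)) (h0 : ∀ k, η k ≠ 0) {a b c : ℂ}
    (habc : ¬(a = 0 ∧ b = 0 ∧ c = 0)) : ∀ᶠ k in atTop, a + b * η k + c * η k ^ 2 ≠ 0 := by
  by_cases ha : a = 0
  · by_cases hb : b = 0
    · have hc : c ≠ 0 := fun k => habc ⟨ha, hb, k⟩
      exact Eventually.of_forall fun k => by simp [ha, hb, hc, h0]
    · have := (h.const_mul c).const_add b
      filter_upwards [this.eventually_ne (by simpa using hb)] with k hk e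
      refine mul_ne_zero hk (h0 k) ?_
      rw [← e, ha]; ring
  · have := ((h.const_mul b).const_add a).add ((h.pow 2).const_mul c)
    exact this.eventually_ne (by simpa using ha)

lemma mif_normal {Γ : Subgroup SL} (hΓ : Good Γ) {f : SL} (hf' : f ∈ Γ) (hf : IsDiag f)
    (h2 : 2 ≤ ‖f.a‖) (F : Set (List (ℤ × SL) × ℤ × SL)) (hF : F.Finite)
    (hF' : ∀ x ∈ F, x.2.1 ≠ 0 ∧ ∀ y ∈ x.1, y.1 ≠ 0 ∧ y.2 ≠ 1 ∧ y.2 ≠ -1) :
    ∃ w ∈ Γ, ∀ x ∈ F, core w x.1 x.2.1 ≠ x.2.2 := by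
  obtain ⟨h, hh, hd⟩ : ∃ h ∈ Γ, ¬IsDiag h := by
    by_contra hc
    push Not at hc
    exact hΓ.not_elem 1 2 fun γ hγ => ⟨γ, 1, by simp, by simpa using hc γ hγ, by simp⟩
  have hbc : h.b * h.c ≠ 0 := fun k => hd (hΓ.wpd hf' hf h2 hh (by simp [k]))
  have had : h.a * h.d ≠ 0 := fun k => by
    have := hΓ.wpd' hf' hf h2 hh
    rw [k] at this; norm_num at this
  have hη := eta_tendsto hf h2
  have hd0 : ∀ k : ℕ, (f ^ k).d ≠ 0 := fun k => right_ne_zero_of_mul_eq_one (diag_pow hf k).1.ad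
  have ha0 : ∀ k : ℕ, (f ^ k).a ≠ 0 := fun k => left_ne_zero_of_mul_eq_one (diag_pow hf k).1.ad
  have h3 : ∀ᶠ k : ℕ in atTop, ∀ x ∈ F, ∀ y ∈ {y | y ∈ x.1},
      ((f ^ k * h)⁻¹ * y.2 * (f ^ k * h)).c ≠ 0 := by
    rw [eventually_all_finite hF]
    intro x hx
    rw [eventually_all_finite (List.finite_toSet _)]
    intro y hy
    obtain ⟨-, y2, y3⟩ := (hF' x hx).2 y hy
    have hq : ¬(y.2.c * h.a ^ 2 = 0 ∧ (y.2.d - y.2.a) * (h.a * h.c) = 0 ∧ -y.2.b * h.c ^ 2 = 0) := by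
      rintro ⟨a1, a2, a3⟩
      have b1 := left_ne_zero_of_mul had
      have b2 := right_ne_zero_of_mul hbc
      have c1 : y.2.c = 0 := by simpa [b1] using a1
      have c2 : y.2.d = y.2.a := by simpa [b1, b2, sub_eq_zero] using a2
      have c3 : y.2.b = 0 := by simpa [b2] using a3
      have := y.2.det
      rw [c1, c2, mul_zero, sub_zero, mul_self_eq_one_iff] at this
      rcases this with k | k
      · exact y2 (by ext <;> simp [*])
      · exact y3 (by ext <;> simp [*])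
    filter_upwards [quad_ne hη (fun k => pow_ne_zero 2 (hd0 k)) hq] with k hk e
    apply hk
    have e1 := (diag_pow hf k).1
    have e2 := e1.ad
    simp [e1.1, e1.2] at e
    linear_combination (f ^ k).d ^ 2 * e - (y.2.c * h.a ^ 2 * ((f ^ k).a * (f ^ k).d + 1) +
      (y.2.d - y.2.a) * (h.a * h.c) * (f ^ k).d ^ 2) * e2
  obtain ⟨k0, hk0⟩ := h3.exists
  set δ := f ^ k0 * h with hδ
  have hδ' : δ ∈ Γ := Γ.mul_mem (Γ.pow_mem hf' _) hh
  have hG : ∀ n : ℤ, n ≠ 0 → ((δ⁻¹ * f * δ⁻¹⁻¹) ^ n).b ≠ 0 := by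
    intro n hn
    have a1 : δ.b * δ.d ≠ 0 := by
      have e1 := (diag_pow hf k0).1
      simp [hδ, e1.1, e1.2, ha0, hd0, left_ne_zero_of_mul hbc, right_ne_zero_of_mul had]
    have a2 : ∀ k : ℕ, k ≠ 0 → (f ^ k).a - (f ^ k).d ≠ 0 := by
      intro k hk e
      have e1 := diag_pow hf k
      have e2 := e1.1.ad
      rw [sub_eq_zero.1 e, e1.2] at e2
      have e3 := congrArg norm e2
      rw [norm_mul, norm_pow, norm_one] at e3
      have e4 : ‖f.d‖ ^ k < 1 := pow_lt_one₀ (norm_nonneg _) (by linarith [(diag_norms hf h2).1]) hk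
      nlinarith [pow_nonneg (norm_nonneg f.d) k]
    rw [conj_zpow]
    obtain ⟨k, rfl | rfl⟩ := Int.eq_nat_or_neg n
    · have e1 := (diag_pow hf k).1
      intro e
      apply mul_ne_zero a1 (a2 k (by simpa using hn))
      simp [e1.1, e1.2] at e
      linear_combination e
    · have e1 := (diag_pow hf k).1
      intro e
      apply mul_ne_zero a1 (a2 k (by simpa using hn))
      simp [e1.1, e1.2] at e
      linear_combination -e
  let cδ : SL →* SL := (MulAut.conj δ⁻¹).toMonoidHom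
  have h4 : ∀ᶠ k : ℕ in atTop, ∀ x ∈ F, core (f ^ k * (δ⁻¹ * f * δ⁻¹⁻¹) * (f ^ k)⁻¹)
      (x.1.map (Prod.map id cδ)) x.2.1 ≠ cδ x.2.2 := by
    rw [eventually_all_finite hF]
    intro x hx
    obtain ⟨p, p0, a1, -⟩ := core_tendsto hf h2 hG (hF' x hx).1 (x.1.map (Prod.map id cδ))
      fun y hy => by
        obtain ⟨z, hz, rfl⟩ := List.mem_map.1 hy
        exact ⟨((hF' x hx).2 z hz).1, by simpa [cδ] using hk0 x hx z hz⟩
    have a2 := a1.sub ((hη.pow ((x.1.map (Prod.map id cδ)).length + 1)).mul_const (cδ x.2.2).b)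
    filter_upwards [a2.eventually_ne (b₂ := 0) (by simpa using p0)] with k hk e
    exact hk (by rw [e, sub_self])
  obtain ⟨k, hk⟩ := h4.exists
  refine ⟨δ * (f ^ k * (δ⁻¹ * f * δ⁻¹⁻¹) * (f ^ k)⁻¹) * δ⁻¹, ?_, fun x hx e => hk x hx ?_⟩
  · have := Γ.pow_mem hf' k
    have := Γ.inv_mem hδ'
    simp only [inv_inv]
    repeat' first | assumption | apply Γ.mul_mem | apply Γ.inv_mem
  · rw [← e, map_core]
    congr 1
    simp [cδ, mul_assoc]

theorem mif {Γ : Subgroup SL} (hΓ : Good Γ) (hfg : Γ.FG) (F : Set (List (ℤ × SL) × ℤ × SL))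
    (hF : F.Finite) (hF' : ∀ x ∈ F, x.2.1 ≠ 0 ∧ ∀ y ∈ x.1, y.1 ≠ 0 ∧ y.2 ≠ 1 ∧ y.2 ≠ -1) :
    ∃ w ∈ Γ, ∀ x ∈ F, core w x.1 x.2.1 ≠ x.2.2 := by
  obtain ⟨T, hT⟩ := hfg
  obtain ⟨N, hN⟩ := setup
  have h1 : ∀ t ∈ T, t ∈ Γ := fun t ht => hT ▸ Subgroup.subset_closure ht
  obtain ⟨p, f, hf, h2, h3, -⟩ := hN Γ T hΓ h1 fun g hg => by
    rw [← hT] at hg
    induction hg using Subgroup.closure_induction with
    | mem x hx => exact ⟨1, mem_ball_one hx⟩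
    | one => exact ⟨0, one_mem_ball T 0⟩
    | mul x y _ _ hx hy =>
      obtain ⟨m, hm⟩ := hx
      obtain ⟨n, hn⟩ := hy
      exact ⟨_, mul_mem_ball hm hn⟩
    | inv x _ hx =>
      obtain ⟨m, hm⟩ := hx
      exact ⟨m, inv_mem_ball hm⟩
  let c : SL →* SL := (MulAut.conj p).toMonoidHom
  have hc : Function.Injective c := (MulAut.conj p).injective
  obtain ⟨w, hw, hw'⟩ := mif_normal (hΓ.conj p) (conj_mem_cj p (ball_subset h1 hf)) h2
    (le_trans (by norm_num) h3) _ (hF.image fun x => (x.1.map (Prod.map id c), x.2.1, c x.2.2)) (by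
      rintro _ ⟨x, hx, rfl⟩
      refine ⟨(hF' x hx).1, fun y hy => ?_⟩
      obtain ⟨z, hz, rfl⟩ := List.mem_map.1 hy
      obtain ⟨a1, a2, a3⟩ := (hF' x hx).2 z hz
      exact ⟨a1, fun k => a2 (hc (k.trans (map_one c).symm)),
        fun k => a3 (hc (k.trans (by simp [c])))⟩)
  obtain ⟨v, hv, rfl⟩ := mem_cj.1 hw
  exact ⟨v, hv, fun x hx e => hw' _ ⟨x, hx, rfl⟩ ((map_core c v x.1 x.2.1).symm.trans (congrArg c e))⟩

end Pool.Agent.MP_e37573_al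

end
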