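import Pool.Agent.MP_e37573_al.Defs
import Pool.Agent.MP_e37573_al.Mg.MIF
import Mathlib

-- part MP_e37573_al.Geom
section

/-!
The Hermitian model of hyperbolic 3-space and the classification of its isometries.
-/

namespace Pool.Agent.MP_e37573_al

open SL ComplexConjugate

abbrev V := ℂ × ℂ × ℂ × ℂ

/-- `X ↦ g X g^*` -/
noncomputable def act (g : SL) : V →ₗ[ℂ] V where
  toFun X := ((g.a * X.1 + g.b * X.2.2.1) * conj g.a + (g.a * X.2.1 + g.b * X.2.2.2) * conj g.b,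
    (g.a * X.1 + g.b * X.2.2.1) * conj g.c + (g.a * X.2.1 + g.b * X.2.2.2) * conj g.d,
    (g.c * X.1 + g.d * X.2.2.1) * conj g.a + (g.c * X.2.1 + g.d * X.2.2.2) * conj g.b,
    (g.c * X.1 + g.d * X.2.2.1) * conj g.c + (g.c * X.2.1 + g.d * X.2.2.2) * conj g.d)
  map_add' X Y := by ext <;> simp <;> ring
  map_smul' c X := by ext <;> simp <;> ring

lemma act_apply (g : SL) (X : V) : act g X =
  ((g.a * X.1 + g.b * X.2.2.1) * conj g.a + (g.a * X.2.1 + g.b * X.2.2.2) * conj g.b,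
    (g.a * X.1 + g.b * X.2.2.1) * conj g.c + (g.a * X.2.1 + g.b * X.2.2.2) * conj g.d,
    (g.c * X.1 + g.d * X.2.2.1) * conj g.a + (g.c * X.2.1 + g.d * X.2.2.2) * conj g.b,
    (g.c * X.1 + g.d * X.2.2.1) * conj g.c + (g.c * X.2.1 + g.d * X.2.2.2) * conj g.d) := rfl

/-- transposition -/
def tp : V →ₗ[ℂ] V where
  toFun X := (X.1, X.2.2.1, X.2.1, X.2.2.2)
  map_add' X Y := by ext <;> simp
  map_smul' c X := by ext <;> simp

lemma tp_apply (X : V) : tp X = (X.1, X.2.2.1, X.2.1, X.2.2.2) := rfl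

lemma SL.det_conj (g : SL) : conj g.a * conj g.d - conj g.b * conj g.c = 1 := by
  simpa using congrArg conj g.det

def bar (g : SL) : SL := ⟨conj g.a, conj g.b, conj g.c, conj g.d, g.det_conj⟩

lemma act_mul (g h : SL) (X : V) : act (g * h) X = act g (act h X) := by
  ext <;> simp [act_apply] <;> ring

@[simp] lemma act_one (X : V) : act 1 X = X := by ext <;> simp [act_apply]

@[simp] lemma act_neg (g : SL) (X : V) : act (-g) X = act g X := by
  ext <;> simp [act_apply] <;> ring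

lemma act_inv_act (g : SL) (X : V) : act g⁻¹ (act g X) = X := by rw [← act_mul]; simp

lemma act_act_inv (g : SL) (X : V) : act g (act g⁻¹ X) = X := by rw [← act_mul]; simp

@[simp] lemma tp_tp (X : V) : tp (tp X) = X := rfl

lemma tp_act (g : SL) (X : V) : tp (act g X) = act (bar g) (tp X) := by
  ext <;> simp [act_apply, tp_apply, bar] <;> ring

lemma nm_bar (g : SL) : nm (bar g) = nm g := by simp [nm, bar]

/-- the polarised determinant -/
noncomputable def bf (X Y : V) : ℂ :=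
  (X.1 * Y.2.2.2 + X.2.2.2 * Y.1 - X.2.1 * Y.2.2.1 - X.2.2.1 * Y.2.1) / 2

lemma bf_act (g : SL) (X Y : V) : bf (act g X) (act g Y) = bf X Y := by
  simp only [bf, act_apply]
  linear_combination (X.1 * Y.2.2.2 + X.2.2.2 * Y.1 - X.2.1 * Y.2.2.1 - X.2.2.1 * Y.2.1) / 2 *
    ((conj g.a * conj g.d - conj g.b * conj g.c) * g.det + g.det_conj)

lemma bf_tp (X Y : V) : bf (tp X) (tp Y) = bf X Y := by simp only [bf, tp_apply]; ring

lemma bf_comm (X Y : V) : bf X Y = bf Y X := by simp only [bf]; ring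

noncomputable def H3.w (p : H3) : ℂ := p.x + p.y * Complex.I

lemma H3.conj_w (p : H3) : conj p.w = p.x - p.y * Complex.I := by simp [H3.w]; ring

lemma H3.t_ne (p : H3) : (p.t : ℂ) ≠ 0 := by exact_mod_cast p.pos.ne'

noncomputable def vec (p : H3) : V :=
  ((p.w * conj p.w + p.t ^ 2) / p.t, p.w / p.t, conj p.w / p.t, 1 / p.t)

/-- the hyperbolic cosine of the distance -/
noncomputable def ch (p q : H3) : ℝ :=
  1 + ((p.x - q.x) ^ 2 + (p.y - q.y) ^ 2 + (p.t - q.t) ^ 2) / (2 * p.t * q.t)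

lemma hdist_eq (p q : H3) : hdist p q = Real.arcosh (ch p q) := rfl

lemma one_le_ch (p q : H3) : 1 ≤ ch p q := by
  have := p.pos; have := q.pos
  unfold ch
  have : 0 ≤ ((p.x - q.x) ^ 2 + (p.y - q.y) ^ 2 + (p.t - q.t) ^ 2) / (2 * p.t * q.t) := by
    positivity
  linarith

lemma H3.ext' {p q : H3} (h1 : p.x = q.x) (h2 : p.y = q.y) (h3 : p.t = q.t) : p = q := by
  cases p; cases q; simp_all

lemma one_lt_ch {p q : H3} (h : p ≠ q) : 1 < ch p q := by
  have := p.pos; have := q.pos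
  unfold ch
  have h1 : 0 < (p.x - q.x) ^ 2 + (p.y - q.y) ^ 2 + (p.t - q.t) ^ 2 := by
    by_contra hc
    have a1 := sq_nonneg (p.x - q.x); have a2 := sq_nonneg (p.y - q.y)
    have a3 := sq_nonneg (p.t - q.t)
    refine h (H3.ext' ?_ ?_ ?_) <;> nlinarith
  have : 0 < ((p.x - q.x) ^ 2 + (p.y - q.y) ^ 2 + (p.t - q.t) ^ 2) / (2 * p.t * q.t) := by
    positivity
  linarith

lemma ch_self (p : H3) : ch p p = 1 := by simp [ch]

lemma bf_vec (p q : H3) : bf (vec p) (vec q) = ch p q := by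
  have h1 := p.t_ne; have h2 := q.t_ne
  simp only [bf, vec, ch, H3.conj_w]
  simp only [H3.w]
  push_cast
  field_simp
  linear_combination (-(p.y - q.y) ^ 2) * Complex.I_sq

lemma vec_inj {p q : H3} (h : vec p = vec q) : p = q := by
  by_contra hc
  have h1 := bf_vec p q
  rw [← h, bf_vec, ch_self] at h1
  have := one_lt_ch hc
  have h2 : (1 : ℝ) = ch p q := by exact_mod_cast h1
  linarith

def IsH (X : V) : Prop := conj X.1 = X.1 ∧ conj X.2.1 = X.2.2.1 ∧ conj X.2.2.2 = X.2.2.2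

lemma isH_vec (p : H3) : IsH (vec p) := by
  refine ⟨?_, ?_, ?_⟩ <;> simp [vec, mul_comm]

lemma IsH.act {X : V} (h : IsH X) (g : SL) : IsH (act g X) := by
  have h4 : conj X.2.2.1 = X.2.1 := by rw [← h.2.1]; simp
  refine ⟨?_, ?_, ?_⟩ <;> simp [act_apply, h.1, h.2.1, h.2.2, h4] <;> ring

lemma IsH.sub {X Y : V} (h : IsH X) (h' : IsH Y) : IsH (X - Y) := by
  refine ⟨?_, ?_, ?_⟩ <;> simp [h.1, h.2.1, h.2.2, h'.1, h'.2.1, h'.2.2]

lemma exists_vec {X : V} (h : IsH X) (hp : 0 < X.2.2.2.re) (hb : bf X X = 1) :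
    ∃ p, vec p = X := by
  obtain ⟨A, z, z', D⟩ := X
  obtain ⟨h1, h2, h3⟩ := h
  simp only [bf] at *
  subst h2
  obtain ⟨D, rfl⟩ := Complex.conj_eq_iff_real.1 h3
  simp only [Complex.ofReal_re] at hp
  have hD : (D : ℂ) ≠ 0 := by exact_mod_cast hp.ne'
  let p : H3 := ⟨z.re / D, z.im / D, 1 / D, by positivity⟩
  have hw : p.w = z / D := by
    simp only [H3.w, p]; push_cast; field_simp; linear_combination Complex.re_add_im z
  have ht : (p.t : ℂ) = 1 / D := by simp [p]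
  refine ⟨p, ?_⟩
  simp only [vec, hw, ht, map_div₀, Complex.conj_ofReal]
  ext
  · simp only; field_simp; linear_combination -hb
  · simp only; field_simp
  · simp only; field_simp
  · simp only; field_simp

lemma exists_act_vec (g : SL) (p : H3) : ∃ q, vec q = act g (vec p) := by
  refine exists_vec ((isH_vec p).act g) ?_ (by rw [bf_act, bf_vec, ch_self]; simp)
  have ht := p.t_ne
  have e : (act g (vec p)).2.2.2 =
      ((Complex.normSq (g.c * p.w + g.d) + Complex.normSq g.c * p.t ^ 2) / p.t : ℝ) := by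
    push_cast
    rw [← Complex.mul_conj, ← Complex.mul_conj]
    simp only [act_apply, vec, map_add, map_mul]
    field_simp
    ring
  rw [e, Complex.ofReal_re]
  have := p.pos
  refine div_pos ?_ p.pos
  by_cases hc : g.c = 0
  · have hd : g.d ≠ 0 := by intro h; have := g.det; rw [hc, h] at this; simp at this
    simpa [hc] using hd
  · have := Complex.normSq_pos.2 hc
    have := Complex.normSq_nonneg (g.c * p.w + g.d)
    positivity

lemma exists_tp_vec (p : H3) : ∃ q, vec q = tp (vec p) := by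
  refine ⟨⟨p.x, -p.y, p.t, p.pos⟩, ?_⟩
  simp only [vec, tp_apply, H3.conj_w]
  simp only [H3.w]
  ext <;> simp <;> ring

/-- the base point -/
def jj : H3 := ⟨0, 0, 1, one_pos⟩

lemma vec_jj : vec jj = (1, 0, 0, 1) := by simp [vec, jj, H3.w]

lemma exists_trans (p : H3) : ∃ k : SL, act k (vec jj) = vec p := by
  have h0 : ((Real.sqrt p.t : ℝ) : ℂ) ≠ 0 := by exact_mod_cast (Real.sqrt_pos.2 p.pos).ne'
  have h1 : (p.t : ℂ) = ((Real.sqrt p.t : ℝ) : ℂ) ^ 2 := by
    exact_mod_cast (Real.sq_sqrt p.pos.le).symm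
  refine ⟨⟨Real.sqrt p.t, p.w / Real.sqrt p.t, 0, 1 / Real.sqrt p.t, by field_simp; ring⟩, ?_⟩
  rw [vec_jj, vec, h1]
  simp only [act_apply, map_div₀, Complex.conj_ofReal, map_zero, map_one]
  ext <;> simp only <;> field_simp <;> ring

lemma bf_act_jj (g : SL) :
    bf (act g (vec jj)) (vec jj) = ((‖g.a‖ ^ 2 + ‖g.b‖ ^ 2 + ‖g.c‖ ^ 2 + ‖g.d‖ ^ 2) / 2 : ℝ) := by
  push_cast
  simp only [← Complex.mul_conj', vec_jj, bf, act_apply]
  ring

def pt1 : H3 := ⟨0, 0, 2, two_pos⟩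
def pt2 : H3 := ⟨1, 0, 1, one_pos⟩
def pt3 : H3 := ⟨0, 1, 1, one_pos⟩

lemma vec_pt1 : vec pt1 = (2, 0, 0, 1 / 2) := by simp [vec, pt1, H3.w]; norm_num
lemma vec_pt2 : vec pt2 = (2, 1, 1, 1) := by simp [vec, pt2, H3.w]; norm_num
lemma vec_pt3 : vec pt3 = (2, Complex.I, -Complex.I, 1) := by simp [vec, pt3, H3.w]; norm_num

lemma eq_zero_of_bf {W : V} (h0 : bf W (vec jj) = 0) (h1 : bf W (vec pt1) = 0)
    (h2 : bf W (vec pt2) = 0) (h3 : bf W (vec pt3) = 0) : W = 0 := by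
  simp only [vec_jj, vec_pt1, vec_pt2, vec_pt3, bf] at *
  have e4 : W.2.2.2 = 0 := by linear_combination (4 / 3) * h1 - (2 / 3) * h0
  have e1 : W.1 = 0 := by linear_combination 2 * h0 - e4
  have e5 : W.2.1 + W.2.2.1 = 0 := by linear_combination -2 * h2 + e1 + 2 * e4
  have e6 : W.2.1 - W.2.2.1 = 0 := by
    apply mul_left_cancel₀ Complex.I_ne_zero; linear_combination 2 * h3 - e1 - 2 * e4
  ext
  · exact e1
  · simp; linear_combination (e5 + e6) / 2
  · simp; linear_combination (e5 - e6) / 2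
  · exact e4

lemma lin_ext {L L' : V →ₗ[ℂ] V} (h : ∀ p, L (vec p) = L' (vec p)) : L = L' := by
  have key : ∀ X : V, ∃ c0 c1 c2 c3 : ℂ,
      X = c0 • vec jj + c1 • vec pt1 + c2 • vec pt2 + c3 • vec pt3 := by
    intro X
    let c2 := (X.2.1 + X.2.2.1) / 2
    let c3 := -Complex.I * (X.2.1 - X.2.2.1) / 2
    let c1 := (X.1 - X.2.2.2 - c2 - c3) * 2 / 3
    refine ⟨X.2.2.2 - c1 / 2 - c2 - c3, c1, c2, c3, ?_⟩
    rw [vec_jj, vec_pt1, vec_pt2, vec_pt3]
    ext
    · simp [c1]; ring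
    · simp [c2, c3]; linear_combination (X.2.1 - X.2.2.1) / 2 * Complex.I_sq
    · simp [c2, c3]; linear_combination -(X.2.1 - X.2.2.1) / 2 * Complex.I_sq
    · simp; ring
  refine LinearMap.ext fun X => ?_
  obtain ⟨c0, c1, c2, c3, rfl⟩ := key X
  simp only [map_add, map_smul, h]

lemma act_kernel {g : SL} (h : ∀ p, act g (vec p) = vec p) : g = 1 ∨ g = -1 := by
  have h1 : act g = LinearMap.id := lin_ext h
  have e1 := LinearMap.congr_fun h1 (1, 0, 0, 0)
  have e2 := LinearMap.congr_fun h1 (0, 0, 0, 1)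
  have e3 := LinearMap.congr_fun h1 (0, 1, 0, 0)
  simp only [act_apply, LinearMap.id_apply, Prod.mk.injEq, mul_one, mul_zero, add_zero, zero_add,
    zero_mul] at e1 e2 e3
  have ha : g.a ≠ 0 := left_ne_zero_of_mul_eq_one e1.1
  have ha' : conj g.a ≠ 0 := right_ne_zero_of_mul_eq_one e1.1
  have hc : g.c = 0 := (mul_eq_zero.1 e1.2.2.1).resolve_right ha'
  have hb : g.b = 0 := by
    have := e2.1; rw [mul_eq_zero] at this
    rcases this with h | h
    · exact h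
    · simpa using h
  have hd := g.det
  rw [hc] at hd
  have had : conj g.a = conj g.d := by
    apply mul_left_cancel₀ ha; rw [e1.1, e3.2.1]
  have had' : g.a = g.d := by simpa using congrArg conj had
  have h3 : (g.a - 1) * (g.a + 1) = 0 := by linear_combination hd + g.a * had'
  rcases mul_eq_zero.1 h3 with h4 | h4
  · left; ext <;> simp [hb, hc]
    · linear_combination h4
    · linear_combination h4 - had'
  · right; ext <;> simp [hb, hc]
    · linear_combination h4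
    · linear_combination h4 - had'

lemma bf_sub (Z X Y : V) : bf Z (X - Y) = bf Z X - bf Z Y := by simp [bf]; ring

lemma exists_refl {p q : H3} (h : p ≠ q) : ∃ g : SL, act g (tp (vec p)) = vec q ∧
    ∀ Z, bf Z (vec p) = bf Z (vec q) → act g (tp Z) = Z := by
  have hv := (isH_vec p).sub (isH_vec q)
  set v := vec p - vec q with hvd
  have hN : bf v v = ((2 - 2 * ch p q : ℝ) : ℂ) := by
    rw [hvd, bf_sub, bf_comm _ (vec p), bf_comm _ (vec q), bf_sub, bf_sub, bf_comm (vec q) (vec p),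
      bf_vec, bf_vec, bf_vec, ch_self, ch_self]
    push_cast; ring
  have hpos : 0 < 2 * ch p q - 2 := by linarith [one_lt_ch h]
  set ρ : ℝ := Real.sqrt (2 * ch p q - 2) with hρ
  have hρ0 : (ρ : ℂ) ≠ 0 := by exact_mod_cast (Real.sqrt_pos.2 hpos).ne'
  have hρ2 : (ρ : ℂ) ^ 2 = -bf v v := by
    rw [hN]; exact_mod_cast (Real.sq_sqrt hpos.le).trans (by ring)
  set κ : ℂ := Complex.I / ρ with hκ
  have hκ' : conj κ = -κ := by simp [hκ]; ring
  have hκ2 : κ ^ 2 * bf v v = 1 := by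
    rw [hκ, div_pow, hρ2, Complex.I_sq]
    have : bf v v ≠ 0 := by intro h0; rw [h0] at hρ2; simp at hρ2; exact hρ0 (by exact_mod_cast hρ2)
    field_simp
  have h4 : conj v.2.2.1 = v.2.1 := by rw [← hv.2.1]; simp
  let g : SL := ⟨-κ * v.2.1, κ * v.1, -κ * v.2.2.2, κ * v.2.2.1, by
    rw [← hκ2]; simp only [bf]; ring⟩
  have hR : ∀ Z : V, act g (tp Z) = Z - (2 * κ ^ 2 * bf Z v) • v := by
    intro Z
    simp only [bf] at hκ2
    ext <;> simp [act_apply, tp_apply, g, hκ', hv.1, hv.2.1, hv.2.2, h4, bf]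
    · linear_combination Z.1 * hκ2
    · linear_combination Z.2.1 * hκ2
    · linear_combination Z.2.2.1 * hκ2
    · linear_combination Z.2.2.2 * hκ2
  refine ⟨g, ?_, fun Z hZ => ?_⟩
  · have : 2 * κ ^ 2 * bf (vec p) v = 1 := by
      rw [← hκ2, hN, hvd, bf_sub, bf_vec, bf_vec, ch_self]; push_cast; ring
    rw [hR, this, hvd]; simp
  · rw [hR, hvd, bf_sub, hZ]; simp

/-- Moebius and anti-Moebius maps -/
def Mob (L : V → V) : Prop := ∃ g : SL, (∀ X, L X = act g X) ∨ ∀ X, L X = act g (tp X)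

lemma Mob.bf_eq {L : V → V} (h : Mob L) (X Y : V) : bf (L X) (L Y) = bf X Y := by
  obtain ⟨g, h | h⟩ := h <;> simp only [h, bf_act, bf_tp]

lemma Mob.vec {L : V → V} (h : Mob L) (p : H3) : ∃ q, vec q = L (vec p) := by
  obtain ⟨g, h | h⟩ := h
  · rw [h]; exact exists_act_vec g p
  · obtain ⟨q, hq⟩ := exists_tp_vec p
    rw [h, ← hq]; exact exists_act_vec g q

lemma Mob.refl {L : V → V} (h : Mob L) (k : SL) : Mob fun X => act k (tp (L X)) := by
  obtain ⟨g, h | h⟩ := h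
  · exact ⟨k * bar g, Or.inr fun X => by simp only [h, tp_act, act_mul]⟩
  · exact ⟨k * bar g, Or.inl fun X => by simp only [h, tp_act, act_mul, tp_tp]⟩

lemma mob_step {φ : H3 → H3} (hφ : ∀ p q, ch (φ p) (φ q) = ch p q) {L : V → V} (hL : Mob L)
    (p : H3) : ∃ L', Mob L' ∧ L' (vec p) = vec (φ p) ∧
      ∀ q, L (vec q) = vec (φ q) → L' (vec q) = vec (φ q) := by
  obtain ⟨x, hx⟩ := hL.vec p
  by_cases h : x = φ p
  · exact ⟨L, hL, by rw [← hx, h], fun _ h => h⟩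
  obtain ⟨k, k1, k2⟩ := exists_refl h
  refine ⟨_, hL.refl k, by simp only [← hx, k1], fun q hq => ?_⟩
  simp only [hq]
  apply k2
  rw [bf_vec (φ q) (φ p), hφ, ← bf_vec, hx, ← hq, hL.bf_eq]

theorem isom_classify {φ : H3 → H3} (hφ : ∀ p q, ch (φ p) (φ q) = ch p q) :
    ∃ g : SL, (∀ p, vec (φ p) = act g (vec p)) ∨ ∀ p, vec (φ p) = act g (tp (vec p)) := by
  obtain ⟨L0, m0, a0, -⟩ := mob_step hφ (L := id) ⟨1, Or.inl fun X => by simp⟩ jj
  obtain ⟨L1, m1, a1, b1⟩ := mob_step hφ m0 pt1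
  obtain ⟨L2, m2, a2, b2⟩ := mob_step hφ m1 pt2
  obtain ⟨L3, m3, a3, b3⟩ := mob_step hφ m2 pt3
  have c0 := b3 _ (b2 _ (b1 _ a0))
  have c1 := b3 _ (b2 _ a1)
  have c2 := b3 _ a2
  have key : ∀ p q, L3 (vec q) = vec (φ q) → bf (vec (φ p)) (L3 (vec q)) = bf (vec p) (vec q) :=
    fun p q h => by rw [h, bf_vec, bf_vec, hφ]
  obtain ⟨g, h | h⟩ := m3
  · refine ⟨g, Or.inl fun p => ?_⟩
    have k : ∀ q, L3 (vec q) = vec (φ q) → bf (act g⁻¹ (vec (φ p)) - vec p) (vec q) = 0 := by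
      intro q hq
      rw [bf_comm, bf_sub, bf_comm (vec q) (vec p), ← key p q hq, h, ← bf_act g, act_act_inv,
        bf_comm, sub_self]
    have := sub_eq_zero.1 (eq_zero_of_bf (k _ c0) (k _ c1) (k _ c2) (k _ a3))
    rw [← this, act_act_inv]
  · refine ⟨g, Or.inr fun p => ?_⟩
    have k : ∀ q, L3 (vec q) = vec (φ q) → bf (tp (act g⁻¹ (vec (φ p))) - vec p) (vec q) = 0 := by
      intro q hq
      rw [bf_comm, bf_sub, bf_comm (vec q) (vec p), ← key p q hq, h, ← bf_tp, tp_tp, ← bf_act g,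
        act_act_inv, bf_comm, sub_self]
    have := sub_eq_zero.1 (eq_zero_of_bf (k _ c0) (k _ c1) (k _ c2) (k _ a3))
    rw [← this, tp_tp, act_act_inv]

lemma exists_mid (p q : H3) : ∃ (m : H3) (c : ℂ), vec m = c • (vec p + vec q) := by
  have hpos : 0 < 2 + 2 * ch p q := by linarith [one_le_ch p q]
  set ρ : ℝ := Real.sqrt (2 + 2 * ch p q) with hρ
  have hρ0 : 0 < ρ := Real.sqrt_pos.2 hpos
  have hρ2 : (ρ : ℂ) ^ 2 = 2 + 2 * ch p q := by exact_mod_cast Real.sq_sqrt hpos.le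
  have h1 := isH_vec p
  have h2 := isH_vec q
  obtain ⟨m, hm⟩ := exists_vec (X := ((ρ⁻¹ : ℝ) : ℂ) • (vec p + vec q))
    (by refine ⟨?_, ?_, ?_⟩ <;> simp [h1.1, h1.2.1, h1.2.2, h2.1, h2.2.1, h2.2.2])
    (by
      have : (((ρ⁻¹ : ℝ) : ℂ) • (vec p + vec q)).2.2.2 = ((ρ⁻¹ * (1 / p.t + 1 / q.t) : ℝ) : ℂ) := by
        simp [vec]
      rw [this, Complex.ofReal_re]
      have := p.pos; have := q.pos
      positivity)
    (by
      have e : bf (((ρ⁻¹ : ℝ) : ℂ) • (vec p + vec q)) (((ρ⁻¹ : ℝ) : ℂ) • (vec p + vec q)) =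
          ((ρ : ℂ)⁻¹) ^ 2 * (bf (vec p) (vec p) + 2 * bf (vec p) (vec q) + bf (vec q) (vec q)) := by
        simp [bf]; ring
      have h0 : (ρ : ℂ) ≠ 0 := by exact_mod_cast hρ0.ne'
      rw [e, bf_vec, bf_vec, bf_vec, ch_self, ch_self]
      field_simp
      rw [hρ2]; push_cast; ring)
  exact ⟨m, _, hm⟩

end Pool.Agent.MP_e37573_al

end

-- part MP_e37573_al.Lift
section

/-!
Lifting the orientation preserving part of a closed hyperbolic 3-manifold group to `SL(2, ℂ)`.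
-/

namespace Pool.Agent.MP_e37573_al

open SL ComplexConjugate Filter Topology

def Lift (g : SL) (γ : Equiv.Perm H3) : Prop := ∀ p, vec (γ p) = act g (vec p)

def Lift1 (g : SL) (γ : Equiv.Perm H3) : Prop := ∀ p, vec (γ p) = act g (tp (vec p))

lemma Lift.one : Lift 1 1 := fun p => by simp

lemma Lift.mul {g h : SL} {γ δ : Equiv.Perm H3} (h1 : Lift g γ) (h2 : Lift h δ) :
    Lift (g * h) (γ * δ) := fun p => by
  rw [Equiv.Perm.mul_apply, h1, h2, act_mul]

lemma Lift.inv {g : SL} {γ : Equiv.Perm H3} (h1 : Lift g γ) : Lift g⁻¹ γ⁻¹ := fun p => by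
  have := h1 (γ⁻¹ p)
  rw [show γ (γ⁻¹ p) = p by simp] at this
  rw [this, act_inv_act]

lemma Lift.neg {g : SL} {γ : Equiv.Perm H3} (h1 : Lift g γ) : Lift (-g) γ := fun p => by
  rw [h1, act_neg]

lemma Lift.right_unique {g : SL} {γ δ : Equiv.Perm H3} (h1 : Lift g γ) (h2 : Lift g δ) : γ = δ :=
  Equiv.ext fun p => vec_inj (by rw [h1, h2])

lemma Lift.of_one {g : SL} (h1 : Lift g 1) : g = 1 ∨ g = -1 :=
  act_kernel fun p => by rw [← h1]; rfl

lemma Lift.left_unique {g h : SL} {γ : Equiv.Perm H3} (h1 : Lift g γ) (h2 : Lift h γ) :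
    h = g ∨ h = -g := by
  have := h1.inv.mul h2
  rw [inv_mul_cancel] at this
  rcases this.of_one with h | h
  · left; rw [inv_mul_eq_one] at h; exact h.symm
  · right; rw [inv_mul_eq_iff_eq_mul] at h; simpa using h

lemma Lift1.mul {g h : SL} {γ δ : Equiv.Perm H3} (h1 : Lift1 g γ) (h2 : Lift1 h δ) :
    Lift (g * bar h) (γ * δ) := fun p => by
  rw [Equiv.Perm.mul_apply, h1, h2, act_mul, tp_act, tp_tp]

lemma hdist_le_iff {p q : H3} {R : ℝ} (hR : 0 ≤ R) : hdist p q ≤ R ↔ ch p q ≤ Real.cosh R := by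
  have h1 := one_le_ch p q
  rw [hdist_eq, ← Real.arcosh_le_arcosh (by linarith) (Real.cosh_pos R), Real.arcosh_cosh hR]

lemma ch_le_of_hdist {p q : H3} {R : ℝ} (h : hdist p q ≤ R) : ch p q ≤ Real.cosh R :=
  (hdist_le_iff ((Real.arcosh_nonneg (one_le_ch p q)).trans h)).1 h

lemma ch_comm (p q : H3) : ch p q = ch q p := by
  have := bf_comm (vec p) (vec q)
  rw [bf_vec, bf_vec] at this
  exact_mod_cast this

/-- half the squared Frobenius norm -/
noncomputable def fro (g : SL) : ℝ := (‖g.a‖ ^ 2 + ‖g.b‖ ^ 2 + ‖g.c‖ ^ 2 + ‖g.d‖ ^ 2) / 2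

lemma nm_le_fro (g : SL) : nm g ≤ 2 + fro g := by
  unfold nm fro
  nlinarith [sq_nonneg (‖g.a‖ - 1), sq_nonneg (‖g.b‖ - 1), sq_nonneg (‖g.c‖ - 1),
    sq_nonneg (‖g.d‖ - 1)]

lemma fro_le_nm (g : SL) : fro g ≤ nm g ^ 2 := by
  unfold nm fro
  have := norm_nonneg g.a; have := norm_nonneg g.b; have := norm_nonneg g.c; have := norm_nonneg g.d
  have : 0 ≤ ‖g.a‖ * (‖g.b‖ + ‖g.c‖ + ‖g.d‖) + ‖g.b‖ * (‖g.c‖ + ‖g.d‖) + ‖g.c‖ * ‖g.d‖ := by
    positivity
  nlinarith [sq_nonneg ‖g.a‖, sq_nonneg ‖g.b‖, sq_nonneg ‖g.c‖, sq_nonneg ‖g.d‖]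

lemma ch_eq_fro {p q : H3} {g h : SL} (hp : vec p = act g (vec jj)) (hq : vec q = act h (vec jj)) :
    ch p q = fro (h⁻¹ * g) := by
  have h1 := bf_act_jj (h⁻¹ * g)
  rw [← bf_act h, act_mul, act_act_inv, ← hp, ← hq, bf_vec] at h1
  exact_mod_cast h1

lemma fro_le_dd {g : SL} {ε : ℝ} (h : dd g 1 < ε) (h1 : ε ≤ 1) : fro g < 1 + 2 * ε := by
  have e1 := norm_add_le (g.a - 1) 1
  have e2 := norm_add_le (g.d - 1) 1
  simp only [sub_add_cancel, norm_one] at e1 e2
  simp only [dd, one_a, one_b, one_c, one_d, sub_zero] at h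
  have := norm_nonneg g.a; have := norm_nonneg g.b; have := norm_nonneg g.c; have := norm_nonneg g.d
  have := norm_nonneg (g.a - 1); have := norm_nonneg (g.d - 1)
  have f1 : ‖g.a‖ ^ 2 ≤ (‖g.a - 1‖ + 1) ^ 2 := by gcongr
  have f2 : ‖g.d‖ ^ 2 ≤ (‖g.d - 1‖ + 1) ^ 2 := by gcongr
  have f3 : ‖g.a - 1‖ ^ 2 ≤ ‖g.a - 1‖ := by nlinarith
  have f4 : ‖g.d - 1‖ ^ 2 ≤ ‖g.d - 1‖ := by nlinarith
  have f5 : ‖g.b‖ ^ 2 ≤ ‖g.b‖ := by nlinarith
  have f6 : ‖g.c‖ ^ 2 ≤ ‖g.c‖ := by nlinarith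
  unfold fro
  nlinarith

variable {Γ : Subgroup (Equiv.Perm H3)}

lemma IsClosedHypGroup.ch_eq (hΓ : IsClosedHypGroup Γ) {γ : Equiv.Perm H3} (hγ : γ ∈ Γ)
    (p q : H3) : ch (γ p) (γ q) = ch p q :=
  Real.arcosh_injOn (one_le_ch _ _) (one_le_ch _ _) (hΓ.isom γ hγ p q)

lemma IsClosedHypGroup.lift (hΓ : IsClosedHypGroup Γ) {γ : Equiv.Perm H3} (hγ : γ ∈ Γ) :
    ∃ g, Lift g γ ∨ Lift1 g γ := isom_classify (hΓ.ch_eq hγ)

lemma IsClosedHypGroup.index (hΓ : IsClosedHypGroup Γ) {γ δ : Equiv.Perm H3} (hγ : γ ∈ Γ)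
    (hδ : δ ∈ Γ) (h1 : ¬∃ g, Lift g γ) (h2 : ¬∃ g, Lift g δ) : ∃ g, Lift g (γ * δ) := by
  obtain ⟨g, hg⟩ := hΓ.lift hγ
  obtain ⟨h, hh⟩ := hΓ.lift hδ
  exact ⟨_, (hg.resolve_left fun k => h1 ⟨_, k⟩).mul (hh.resolve_left fun k => h2 ⟨_, k⟩)⟩

/-- the preimage in `SL(2, ℂ)` -/
def up (Γ : Subgroup (Equiv.Perm H3)) : Subgroup SL where
  carrier := {g | ∃ γ ∈ Γ, Lift g γ}
  one_mem' := ⟨1, Γ.one_mem, Lift.one⟩
  mul_mem' := by
    rintro g h ⟨γ, h1, h2⟩ ⟨δ, h3, h4⟩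
    exact ⟨_, Γ.mul_mem h1 h3, h2.mul h4⟩
  inv_mem' := by
    rintro g ⟨γ, h1, h2⟩
    exact ⟨_, Γ.inv_mem h1, h2.inv⟩

lemma IsClosedHypGroup.gap (hΓ : IsClosedHypGroup Γ) :
    ∃ δ : ℝ, 0 < δ ∧ δ ≤ 1 ∧ ∀ γ ∈ Γ, ch jj (γ jj) < 1 + δ → γ = 1 := by
  have hF := hΓ.proper jj (Real.arcosh 2)
  have h1 : ∀ᶠ δ in 𝓝[>] (0 : ℝ), ∀ γ ∈ {γ : Equiv.Perm H3 | γ ∈ Γ ∧ hdist jj (γ jj) ≤ Real.arcosh 2},
      ch jj (γ jj) < 1 + δ → γ = 1 := by
    rw [Filter.eventually_all_finite hF]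
    intro γ hγ
    by_cases h : γ = 1
    · exact Eventually.of_forall fun _ _ => h
    have h2 : 1 < ch jj (γ jj) := one_lt_ch fun k => h (hΓ.free γ hγ.1 jj k.symm)
    have h3 : ∀ᶠ δ in 𝓝 (0 : ℝ), δ < ch jj (γ jj) - 1 := gt_mem_nhds (by linarith)
    filter_upwards [nhdsWithin_le_nhds h3] with δ hδ hc
    linarith
  have h2 : ∀ᶠ δ in 𝓝[>] (0 : ℝ), δ < 1 := nhdsWithin_le_nhds (gt_mem_nhds one_pos)
  obtain ⟨δ, ⟨h3, h4⟩, h5⟩ := ((h1.and h2).and self_mem_nhdsWithin).exists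
  refine ⟨δ, h5, h4.le, fun γ hγ h => h3 γ ⟨hγ, ?_⟩ h⟩
  rw [hdist_eq, Real.arcosh_le_arcosh (by linarith [one_le_ch jj (γ jj)]) two_pos]
  linarith

lemma coc_aux (p0 : H3) (R : ℝ) : ∃ R' : ℝ, ∀ (g h : SL) (q : H3) (δ : Equiv.Perm H3),
    vec q = act g (vec jj) → Lift h δ → hdist q (δ p0) ≤ R → nm (h⁻¹ * g) ≤ R' := by
  obtain ⟨k, hk⟩ := exists_trans p0
  refine ⟨nm k * (2 + Real.cosh R), fun g h q δ hq hh hR => ?_⟩
  have h1 := ch_le_of_hdist hR
  rw [ch_eq_fro hq (h := h * k) (by rw [hh, act_mul, hk])] at h1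
  have h2 := nm_le_fro ((h * k)⁻¹ * g)
  have h3 : h⁻¹ * g = k * ((h * k)⁻¹ * g) := by group
  rw [h3]
  refine (nm_mul _ _).trans (mul_le_mul_of_nonneg_left (by linarith) (nm_nonneg _))

theorem IsClosedHypGroup.good (hΓ : IsClosedHypGroup Γ) : Good (up Γ) := by
  refine ⟨⟨1, Γ.one_mem, Lift.one.neg⟩, ?_, ?_, ?_⟩
  · obtain ⟨δ, h0, h1, H⟩ := hΓ.gap
    refine ⟨δ / 2, by positivity, ?_⟩
    rintro g ⟨γ, hγ, hg⟩ hd
    have h2 := fro_le_dd hd (by linarith)
    have h3 := ch_eq_fro (hg jj) (h := 1) (q := jj) (by simp)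
    rw [inv_one, one_mul, ch_comm] at h3
    obtain rfl := H γ hγ (by linarith)
    rcases hg.of_one with h | rfl
    · exact h
    · norm_num [dd] at hd
      linarith
  · obtain ⟨p0, R, H⟩ := hΓ.cocompact
    have : ∃ ρ ∈ Γ, ∀ γ ∈ Γ, (∃ g, Lift g γ) ∨ ∃ g, Lift g (γ * ρ⁻¹) := by
      by_cases h : ∀ γ ∈ Γ, ∃ g, Lift g γ
      · exact ⟨1, Γ.one_mem, fun γ hγ => Or.inl (h γ hγ)⟩
      push Not at h
      obtain ⟨ρ, hρ, h⟩ := h
      refine ⟨ρ⁻¹, Γ.inv_mem hρ, fun γ hγ => ?_⟩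
      rw [inv_inv, or_iff_not_imp_left]
      exact fun k => hΓ.index hγ hρ k (by simpa using h)
    obtain ⟨ρ, hρ, hρ'⟩ := this
    obtain ⟨R1, H1⟩ := coc_aux p0 R
    obtain ⟨R2, H2⟩ := coc_aux (ρ p0) R
    refine ⟨max R1 R2, fun g => ?_⟩
    obtain ⟨q, hq⟩ := exists_act_vec g jj
    obtain ⟨γ, hγ, hR⟩ := H q
    rcases hρ' γ hγ with ⟨h, hh⟩ | ⟨h, hh⟩
    · exact ⟨h, ⟨γ, hγ, hh⟩, (H1 g h q γ hq hh hR).trans (le_max_left _ _)⟩
    · exact ⟨h, ⟨_, Γ.mul_mem hγ (Γ.inv_mem hρ), hh⟩,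
        (H2 g h q _ hq hh (by simpa using hR)).trans (le_max_right _ _)⟩
  · rintro g ⟨γ, hγ, hg⟩ ht
    have h2 : g * g = -1 := by
      have := g.det
      unfold tr at ht
      ext <;> simp
      · linear_combination g.a * ht - this
      · linear_combination g.b * ht
      · linear_combination g.c * ht
      · linear_combination g.d * ht - this
    obtain ⟨m, c, hm⟩ := exists_mid jj (γ jj)
    have h3 : vec (γ m) = vec m := by
      rw [hg, hm, map_smul, map_add, hg jj, ← act_mul, h2, act_neg, act_one, add_comm]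
    obtain rfl := hΓ.free γ hγ m (vec_inj h3)
    rcases hg.of_one with rfl | rfl <;> norm_num [tr] at ht

end Pool.Agent.MP_e37573_al

end

-- part MP_e37573_al.Main
section

/-!
The uniform comparison between the size of balls and the growth rate.
-/

namespace Pool.Agent.MP_e37573_al

open SL Filter Topology Pool.Agent.MP_646035_al

section
variable {G : Type*} [Group G]

lemma rate_mul {S : Finset G} {e : ℝ} (h : IsRate S e) {M : ℕ} (hM : 0 < M) :
    Tendsto (fun k : ℕ => ((ball S (k * M)).ncard : ℝ) ^ (1 / (k : ℝ))) atTop (𝓝 (e ^ M)) := by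
  have h1 : Tendsto (fun k : ℕ => k * M) atTop atTop := tendsto_id.atTop_mul_const' hM
  refine ((h.comp h1).pow M).congr fun k => ?_
  simp only [Function.comp]
  rw [← Real.rpow_natCast, ← Real.rpow_mul (by positivity)]
  congr 1
  have : (M : ℝ) ≠ 0 := by positivity
  push_cast
  by_cases hk : (k : ℝ) = 0
  · simp [hk]
  · field_simp

lemma le_rate_pow {S : Finset G} {e : ℝ} (h : IsRate S e) {a M : ℕ} (hM : 0 < M)
    (H : ∀ k, a ^ k ≤ (ball S (k * M)).ncard) : (a : ℝ) ≤ e ^ M := by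
  refine ge_of_tendsto (rate_mul h hM) ?_
  filter_upwards [eventually_ne_atTop 0] with k hk
  have h1 : (a : ℝ) ^ k ≤ (ball S (k * M)).ncard := by exact_mod_cast H k
  have h2 := Real.rpow_le_rpow (by positivity) h1 (z := 1 / (k : ℝ)) (by positivity)
  rwa [one_div, Real.pow_rpow_inv_natCast (by positivity) hk, ← one_div] at h2

lemma rate_pow_le {S : Finset G} {e : ℝ} (h : IsRate S e) {M : ℕ} (hM : 0 < M) :
    e ^ M ≤ (ball S M).ncard := by
  have H : ∀ k, (ball S ((k + 1) * M)).ncard ≤ (ball S M).ncard ^ (k + 1) := by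
    intro k
    induction k with
    | zero => simp
    | succ k ih =>
      rw [Nat.succ_mul, pow_succ]
      exact (ncard_ball_add S _ _).trans (Nat.mul_le_mul_right _ ih)
  refine le_of_tendsto (rate_mul h hM) ?_
  filter_upwards [eventually_ne_atTop 0] with k hk
  obtain ⟨k, rfl⟩ := Nat.exists_eq_succ_of_ne_zero hk
  have h1 : ((ball S ((k + 1) * M)).ncard : ℝ) ≤ ((ball S M).ncard : ℝ) ^ (k + 1) := by
    exact_mod_cast H k
  have h2 := Real.rpow_le_rpow (by positivity) h1 (z := 1 / ((k + 1 : ℕ) : ℝ)) (by positivity)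
  rwa [one_div, Real.pow_rpow_inv_natCast (by positivity) hk, ← one_div] at h2

lemma exists_mem_ball {S : Finset G} (hS : Subgroup.closure (S : Set G) = ⊤) (g : G) :
    ∃ m, g ∈ ball S m := by
  have hg : g ∈ Subgroup.closure (S : Set G) := hS ▸ Subgroup.mem_top g
  induction hg using Subgroup.closure_induction with
  | mem x hx => exact ⟨1, mem_ball_one hx⟩
  | one => exact ⟨0, one_mem_ball S 0⟩
  | mul x y _ _ hx hy =>
    obtain ⟨m, hm⟩ := hx
    obtain ⟨n, hn⟩ := hy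
    exact ⟨_, mul_mem_ball hm hn⟩
  | inv x _ hx =>
    obtain ⟨m, hm⟩ := hx
    exact ⟨m, inv_mem_ball hm⟩

lemma prod_mem_ball {S : Finset G} {M : ℕ} (l : List G) (hl : ∀ x ∈ l, x ∈ ball S M) :
    l.prod ∈ ball S (l.length * M) := by
  induction l with
  | nil => simpa using one_mem_ball S 0
  | cons x l ih =>
    rw [List.prod_cons, List.length_cons, Nat.succ_mul, add_comm]
    exact mul_mem_ball (hl x (by simp)) (ih fun y hy => hl y (by simp [hy]))

/-- An abstract double cover of a subgroup of index at most two. -/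
structure Cover (L : SL → G → Prop) : Prop where
  one : L 1 1
  mul : ∀ {g h x y}, L g x → L h y → L (g * h) (x * y)
  inv : ∀ {g x}, L g x → L g⁻¹ x⁻¹
  neg : ∀ {g x}, L g x → L (-g) x
  left : ∀ {g h x}, L g x → L h x → h = g ∨ h = -g
  right : ∀ {g x y}, L g x → L g y → x = y
  index : ∀ x y, (¬∃ g, L g x) → (¬∃ g, L g y) → ∃ g, L g (x * y)

lemma Cover.prod {L : SL → G → Prop} (hL : Cover L) {α : Type*} (f : α → SL) (z : α → G)
    (l : List α) (h : ∀ w ∈ l, L (f w) (z w)) : L (l.map f).prod (l.map z).prod := by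
  induction l with
  | nil => simpa using hL.one
  | cons x l ih =>
    simp only [List.map_cons, List.prod_cons]
    exact hL.mul (h x (by simp)) (ih fun y hy => h y (by simp [hy]))

lemma Cover.schreier {L : SL → G → Prop} (hL : Cover L) {S : Finset G}
    (hS : Subgroup.closure (S : Set G) = ⊤) : ∃ (r : G) (T : Finset SL), r ∈ ball S 1 ∧
      (∀ y, (∃ g, L g y) ∨ ∃ g, L g (y * r⁻¹)) ∧
      (∀ k, ∀ g ∈ ball T k, ∃ x ∈ ball S (3 * k), L g x) ∧
      ∀ k, ∀ x ∈ ball S k, ∀ g, L g x → g ∈ ball T (k + 2) := by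
  have hr : ∃ r ∈ ball S 1, ∀ y, (∃ g, L g y) ∨ ∃ g, L g (y * r⁻¹) := by
    by_cases h : ∀ x ∈ ball S 1, ∃ g, L g x
    · refine ⟨1, one_mem_ball S 1, fun y => Or.inl ?_⟩
      obtain ⟨m, hm⟩ := exists_mem_ball hS y
      refine ball_induction (fun _ y => ∃ g, L g y) ⟨1, hL.one⟩ (fun _ _ h => h) ?_ m y hm
      rintro _ y x ⟨g, hg⟩ hx
      obtain ⟨g', hg'⟩ := h x (letter_mem_ball hx)
      exact ⟨_, hL.mul hg hg'⟩
    · push Not at h
      obtain ⟨r, hr, h⟩ := h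
      refine ⟨r⁻¹, inv_mem_ball hr, fun y => ?_⟩
      rw [inv_inv, or_iff_not_imp_left]
      exact fun k => hL.index y r k (by simpa using h)
  obtain ⟨r, hr, hr'⟩ := hr
  have hfin : {g | ∃ x ∈ ball S 3, L g x}.Finite := by
    have : {g | ∃ x ∈ ball S 3, L g x} = ⋃ x ∈ ball S 3, {g | L g x} := by ext; simp
    rw [this]
    refine (ball_finite S 3).biUnion fun x _ => ?_
    by_cases h : ∃ g, L g x
    · obtain ⟨g, hg⟩ := h
      exact (Set.toFinite {g, -g}).subset fun h hh => hL.left hg hh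
    · convert Set.finite_empty
      ext g; simpa using fun k => h ⟨g, k⟩
  set T := hfin.toFinset with hT
  have hT' : ∀ g x, x ∈ ball S 3 → L g x → g ∈ ball T 1 := fun g x hx hg =>
    mem_ball_one (by simpa [hT] using ⟨x, hx, hg⟩)
  refine ⟨r, T, hr, hr', fun k g hg => ?_, fun k x hx g hg => ?_⟩
  · refine ball_induction (fun k g => ∃ x ∈ ball S (3 * k), L g x) ⟨1, one_mem_ball S _, hL.one⟩
      ?_ ?_ k g hg
    · rintro k g ⟨x, hx, h⟩
      exact ⟨x, ball_mono S (by omega) hx, h⟩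
    · rintro k g t ⟨x, hx, h⟩ ht
      rcases ht with ht | ht
      · obtain ⟨y, hy, h'⟩ : ∃ x ∈ ball S 3, L t x := by simpa [hT] using ht
        exact ⟨_, mul_mem_ball hx hy, hL.mul h h'⟩
      · obtain ⟨y, hy, h'⟩ : ∃ x ∈ ball S 3, L t⁻¹ x := by simpa [hT] using ht
        exact ⟨_, mul_mem_ball hx (inv_mem_ball hy), hL.mul h (by simpa using hL.inv h')⟩
  · have key : ∃ g ∈ ball T k, L g x ∨ L g (x * r⁻¹) := by
      refine ball_induction (fun k x => ∃ g ∈ ball T k, L g x ∨ L g (x * r⁻¹))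
        ⟨1, one_mem_ball T _, Or.inl hL.one⟩ ?_ ?_ k x hx
      · rintro k x ⟨g, hg, h⟩
        exact ⟨g, ball_mono T (by omega) hg, h⟩
      · rintro k x y ⟨g, hg, h⟩ hy
        have hy1 := letter_mem_ball hy
        rcases h with h | h
        · rcases hr' y with ⟨t, ht⟩ | ⟨t, ht⟩
          · exact ⟨_, mul_mem_ball hg (hT' t _ (ball_mono S (by omega) hy1) ht),
              Or.inl (hL.mul h ht)⟩
          · exact ⟨_, mul_mem_ball hg (hT' t _ (ball_mono S (by omega)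
              (mul_mem_ball hy1 (inv_mem_ball hr))) ht), Or.inr (by simpa [mul_assoc] using hL.mul h ht)⟩
        · rcases hr' (r * y) with ⟨t, ht⟩ | ⟨t, ht⟩
          · exact ⟨_, mul_mem_ball hg (hT' t _ (ball_mono S (by omega) (mul_mem_ball hr hy1)) ht),
              Or.inl (by simpa [mul_assoc] using hL.mul h ht)⟩
          · exact ⟨_, mul_mem_ball hg (hT' t _
              (mul_mem_ball (mul_mem_ball hr hy1) (inv_mem_ball hr)) ht),
              Or.inr (by simpa [mul_assoc] using hL.mul h ht)⟩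
    have key2 : ∃ g ∈ ball T (k + 1), L g x := by
      obtain ⟨g', h1, h | h⟩ := key
      · exact ⟨g', ball_mono T (by omega) h1, h⟩
      · have h2 := hL.mul (hL.inv h) hg
        rw [show (x * r⁻¹)⁻¹ * x = r by group] at h2
        have := mul_mem_ball h1 (hT' _ _ (ball_mono S (by omega) hr) h2)
        exact ⟨_, this, by simpa using hg⟩
    obtain ⟨g', h1, h2⟩ := key2
    rcases hL.left h2 hg with rfl | rfl
    · exact ball_mono T (by omega) h1
    · simpa using mul_mem_ball h1 (hT' _ _ (one_mem_ball S 3) (hL.neg hL.one))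

end

theorem main_cover : ∃ b : ℕ, ∀ (G : Type) [Group G] (L : SL → G → Prop) (Γ : Subgroup SL),
    Cover L → Good Γ → (∀ g, g ∈ Γ ↔ ∃ x, L g x) → ∀ (S : Finset G) (e : ℝ),
    Subgroup.closure (S : Set G) = ⊤ → IsRate S e → ∀ m : ℕ,
    ((ball S m).ncard : ℝ) ≤ 8 * (m + 4) * e ^ (m + b) := by
  classical
  obtain ⟨b, hb⟩ := main_free
  refine ⟨4 + 3 * b, fun G _ L Γ hL hΓ hΓ' S e hS he m => ?_⟩
  obtain ⟨r, T, hr, hr', h1, h2⟩ := hL.schreier hS
  have hfin : {y | y ∈ ball S (m + 1) ∧ ∃ g, L g y}.Finite :=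
    (ball_finite S _).subset fun y hy => hy.1
  set B := hfin.toFinset with hB
  have hB' : ∀ y, y ∈ B ↔ y ∈ ball S (m + 1) ∧ ∃ g, L g y := by simp [hB]
  have c1 : (ball S m).ncard ≤ 2 * B.card := by
    have : ball S m ⊆ ((B ∪ B.image (· * r) : Finset G) : Set G) := by
      intro y hy
      rcases hr' y with h | h
      · simp [hB', ball_mono S (Nat.le_succ m) hy, h]
      · simp only [Finset.coe_union, Finset.coe_image, Set.mem_union]
        exact Or.inr ⟨y * r⁻¹, (hB' _).2 ⟨mul_mem_ball hy (inv_mem_ball hr), h⟩, by simp⟩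
    refine (Set.ncard_le_ncard this (Finset.finite_toSet _)).trans ?_
    rw [Set.ncard_coe_finset]
    have := Finset.card_union_le B (B.image (· * r))
    have := Finset.card_image_le (s := B) (f := (· * r))
    omega
  have : ∀ y, ∃ g, y ∈ B → L g y := fun y => by
    by_cases h : y ∈ B
    · obtain ⟨g, hg⟩ := ((hB' y).1 h).2
      exact ⟨g, fun _ => hg⟩
    · exact ⟨1, fun k => absurd k h⟩
  choose c hc using this
  have c2 : (B.image c).card = B.card :=
    Finset.card_image_of_injOn fun x hx y hy h => hL.right (hc x hx) (h ▸ hc y hy)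
  obtain ⟨σ, hσ, u, hu, A, hA, c3, hF⟩ := hb Γ T hΓ
    (fun t ht => by
      obtain ⟨x, -, h⟩ := h1 1 t (mem_ball_one ht)
      exact (hΓ' t).2 ⟨x, h⟩)
    (fun g hg => by
      obtain ⟨x, h⟩ := (hΓ' g).1 hg
      obtain ⟨k, hk⟩ := exists_mem_ball hS x
      exact ⟨_, h2 k x hk g h⟩) (m + 1 + 2) (B.image c)
    (fun w hw => by
      obtain ⟨y, hy, rfl⟩ := Finset.mem_image.1 hw
      exact h2 _ y ((hB' y).1 hy).1 _ (hc y hy))
    (fun w hw hw' => by
      obtain ⟨y, hy, rfl⟩ := Finset.mem_image.1 hw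
      obtain ⟨z, hz, h⟩ := Finset.mem_image.1 hw'
      have := hL.right (hL.neg (hc y hy)) (h ▸ hc z hz)
      subst this
      exact neg_ne_self _ h.symm)
  obtain ⟨σ', hσ', hσ''⟩ := h1 1 σ hσ
  obtain ⟨u', hu', hu''⟩ := h1 b u hu
  have : ∀ w, ∃ z, w ∈ A → z ∈ ball S (m + (4 + 3 * b)) ∧ L (σ * w * u) z := fun w => by
    by_cases h : w ∈ A
    · obtain ⟨y, hy, rfl⟩ := Finset.mem_image.1 (hA h)
      exact ⟨σ' * y * u', fun _ => ⟨ball_mono S (by omega)
        (mul_mem_ball (mul_mem_ball hσ' ((hB' y).1 hy).1) hu'),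
        hL.mul (hL.mul hσ'' (hc y hy)) hu''⟩⟩
    · exact ⟨1, fun k => absurd k h⟩
  choose z hz using this
  have c4 : (A.card : ℝ) ≤ e ^ (m + (4 + 3 * b)) := by
    refine le_rate_pow he (by omega) fun k => ?_
    have e1 : A.card ^ k = ((Fintype.piFinset fun _ : Fin k => A : Finset _) : Set (Fin k → SL)).ncard := by
      rw [Set.ncard_coe_finset, Fintype.card_piFinset]; simp
    have hm : ∀ f ∈ ((Fintype.piFinset fun _ : Fin k => A : Finset _) : Set (Fin k → SL)),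
        ∀ w ∈ List.ofFn f, w ∈ A := by
      intro f hf w hw
      obtain ⟨i, rfl⟩ := List.mem_ofFn.1 hw
      exact Fintype.mem_piFinset.1 hf i
    rw [e1]
    refine Set.ncard_le_ncard_of_injOn (fun f => ((List.ofFn f).map z).prod) (fun f hf => ?_)
      (fun f hf f' hf' h => ?_) (ball_finite S _)
    · have := prod_mem_ball (S := S) (M := m + (4 + 3 * b)) ((List.ofFn f).map z) fun x hx => by
        obtain ⟨w, hw, rfl⟩ := List.mem_map.1 hx
        exact (hz w (hm f hf w hw)).1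
      simpa using this
    · have a1 := hL.prod (fun w => σ * w * u) z _ fun w hw => (hz w (hm f hf w hw)).2
      have a2 := hL.prod (fun w => σ * w * u) z _ fun w hw => (hz w (hm f' hf' w hw)).2
      simp only at h
      rw [h] at a1
      exact List.ofFn_injective (hF _ _ (hm f hf) (hm f' hf') (by simp) (hL.left a2 a1))
  have c5 : ((ball S m).ncard : ℝ) ≤ 8 * (m + 4) * A.card := by
    have : (ball S m).ncard ≤ 8 * (m + 4) * A.card := by rw [c2] at c3; nlinarith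
    exact_mod_cast this
  exact c5.trans (by gcongr)

theorem main_hyp : ∃ b : ℕ, ∀ Γ : Subgroup (Equiv.Perm H3), IsClosedHypGroup Γ →
    ∀ (S : Finset Γ) (e : ℝ), Subgroup.closure (S : Set Γ) = ⊤ → IsRate S e → ∀ m : ℕ,
    ((ball S m).ncard : ℝ) ≤ 8 * (m + 4) * e ^ (m + b) := by
  obtain ⟨b, hb⟩ := main_cover
  refine ⟨b, fun Γ hΓ => hb Γ (fun g x => Lift g x) (up Γ) ?_ hΓ.good fun g => ?_⟩
  · exact ⟨Lift.one, Lift.mul, Lift.inv, Lift.neg, Lift.left_unique,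
      fun h h' => Subtype.ext (h.right_unique h'), fun x y => hΓ.index x.2 y.2⟩
  · exact ⟨fun ⟨γ, h1, h2⟩ => ⟨⟨γ, h1⟩, h2⟩, fun ⟨γ, h⟩ => ⟨γ, γ.2, h⟩⟩

end Pool.Agent.MP_e37573_al

end

-- part MP_e37573_al.Strict
section

/-!
Strict decrease of the growth rate along a quotient that factors through a wreath product.
-/

namespace Pool.Agent.MP_e37573_al

open Filter Topology Pool.Agent.MP_646035_al

lemma sum_bound {G ι : Type*} [Group G] {S : Finset G} {C q z : ℝ} (hC : 0 ≤ C) (hz : 0 ≤ z)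
    (hq : 0 ≤ q) (hzq : z * q < 1) (h : ∀ m, ((ball S m).ncard : ℝ) ≤ C * q ^ m) (I : Finset ι)
    (x : ι → G) (l : ι → ℕ) (hx : Set.InjOn x I) (hl : ∀ i ∈ I, x i ∈ ball S (l i)) :
    ∑ i ∈ I, z ^ l i ≤ C * (1 - z * q)⁻¹ := by
  classical
  rw [Finset.sum_comp (fun m => z ^ m) l]
  have h1 := (hasSum_geometric_of_lt_one (mul_nonneg hz hq) hzq).mul_left C
  refine le_trans (Finset.sum_le_sum fun m _ => ?_)
    (sum_le_hasSum _ (fun m _ => by positivity) h1)
  have h2 : (I.filter fun i => l i = m).card ≤ (ball S m).ncard := by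
    rw [← Set.ncard_coe_finset]
    refine Set.ncard_le_ncard_of_injOn x (fun i hi => ?_)
      (hx.mono (by simp [Set.subset_def]; tauto)) (ball_finite S m)
    simp only [Finset.coe_filter, Set.mem_ofPred_eq] at hi
    exact hi.2 ▸ hl i hi.1
  have h3 : ((I.filter fun i => l i = m).card : ℝ) ≤ C * q ^ m := le_trans (by exact_mod_cast h2) (h m)
  rw [nsmul_eq_mul, mul_pow]
  calc _ ≤ C * q ^ m * z ^ m := by gcongr
    _ = _ := by ring

section
variable {G L D : Type*} [Group G] [Group L] [CommGroup D] (ψ : G →* D ≀ᵣ L) (u : G)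

def ins (w : List G) (a : List Bool) : G :=
  (List.zipWith (fun s b => s * if b = true then u else 1) w a).prod

lemma ins_cons (s : G) (w : List G) (b : Bool) (a : List Bool) :
    ins u (s :: w) (b :: a) = s * (if b = true then u else 1) * ins u w a := by simp [ins]

variable {ψ u}

lemma ins_right (hu : (ψ u).right = 1) : ∀ (w : List G) (a : List Bool), a.length = w.length →
    (ψ (ins u w a)).right = (ψ w.prod).right
  | [], [], _ => rfl
  | s :: w, b :: a, h => by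
    rw [ins_cons, List.prod_cons, map_mul, map_mul, map_mul]
    cases b <;> simp [hu, ins_right hu w a (by simpa using h)]

lemma ins_ball {S : Finset G} {c : ℕ} (hu : u ∈ ball S c) : ∀ (w : List G) (a : List Bool),
    (∀ s ∈ w, s ∈ ball S 1) → ins u w a ∈ ball S (a.map fun b => 1 + if b = true then c else 0).sum
  | [], a, _ => by simpa [ins] using one_mem_ball S _
  | _ :: _, [], _ => by simpa [ins] using one_mem_ball S _
  | s :: w, b :: a, h => by
    rw [ins_cons, List.map_cons, List.sum_cons]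
    refine mul_mem_ball (mul_mem_ball (h s (by simp)) ?_)
      (ins_ball hu w a fun t ht => h t (by simp [ht]))
    cases b
    · simpa using one_mem_ball S 0
    · simpa using hu

lemma ins_left (hu : (ψ u).right = 1) (s : G) (w : List G) (b : Bool) (a : List Bool) (h : L) :
    (ψ (ins u (s :: w) (b :: a))).left h = (ψ s).left h *
      (if b = true then (ψ u).left ((ψ s).right⁻¹ * h) else 1) *
        (ψ (ins u w a)).left ((ψ s).right⁻¹ * h) := by
  rw [ins_cons, map_mul, map_mul]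
  cases b <;> simp [hu]

lemma ins_supp (hu : (ψ u).right = 1) (hu' : ∀ h, h ≠ 1 → (ψ u).left h = 1) {S : Finset L} :
    ∀ (w : List G) (a a' : List Bool), a.length = w.length → a'.length = w.length →
      (∀ s ∈ w, (ψ s).right ∈ ball S 1) → ∀ h, (ψ (ins u w a)).left h ≠ (ψ (ins u w a')).left h →
      ∃ r < w.length, h⁻¹ * (ψ w.prod).right ∈ ball S r
  | [], [], [], _, _, _, h, k => absurd rfl k
  | s :: w, b :: a, b' :: a', h1, h2, h3, h, k => by
    have e : h⁻¹ * (ψ (s :: w).prod).right = ((ψ s).right⁻¹ * h)⁻¹ * (ψ w.prod).right := by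
      simp [mul_assoc]
    rw [e]
    by_cases h4 : (ψ s).right⁻¹ * h = 1
    · refine ⟨w.length, by simp, ?_⟩
      have := prod_mem_ball (S := S) (M := 1) (w.map fun s => (ψ s).right) fun y hy => by
        obtain ⟨t, ht, rfl⟩ := List.mem_map.1 hy
        exact h3 t (by simp [ht])
      rw [h4, inv_one, one_mul]
      have e2 := map_list_prod (RegularWreathProduct.rightHom.comp ψ) w
      simp only [MonoidHom.comp_apply, RegularWreathProduct.rightHom_eq_right,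
        MonoidHom.coe_comp] at e2
      rw [e2]
      simpa [Function.comp_def] using this
    · rw [ins_left hu, ins_left hu, hu' _ h4, ite_self, ite_self] at k
      obtain ⟨r, h5, h6⟩ := ins_supp hu hu' w a a' (by simpa using h1) (by simpa using h2)
        (fun t ht => h3 t (by simp [ht])) _ fun k' => k (by rw [k'])
      exact ⟨r, by simp; omega, h6⟩

lemma ins_inj (hu : (ψ u).right = 1) (hu' : ∀ h, h ≠ 1 → (ψ u).left h = 1)
    (hu'' : (ψ u).left 1 ≠ 1) {S : Finset L} :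
    ∀ (w : List G) (a a' : List Bool), a.length = w.length → a'.length = w.length →
      (∀ s ∈ w, (ψ s).right ∈ ball S 1) → (∀ r, (ψ w.prod).right ∈ ball S r → w.length ≤ r) →
      (∀ h, (ψ (ins u w a)).left h = (ψ (ins u w a')).left h) → a = a'
  | [], [], [], _, _, _, _, _ => rfl
  | s :: w, b :: a, b' :: a', h1, h2, h3, h4, k => by
    have h1' : a.length = w.length := by simpa using h1
    have h2' : a'.length = w.length := by simpa using h2
    have h3' : ∀ s ∈ w, (ψ s).right ∈ ball S 1 := fun t ht => h3 t (by simp [ht])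
    have h4' : ∀ r, (ψ w.prod).right ∈ ball S r → w.length ≤ r := fun r hr => by
      have := h4 (1 + r) (by simpa using mul_mem_ball (h3 s (by simp)) hr)
      simp at this; omega
    have h5 : (ψ (ins u w a)).left 1 = (ψ (ins u w a')).left 1 := by
      by_contra hc
      obtain ⟨r, h5, h6⟩ := ins_supp hu hu' w a a' h1' h2' h3' 1 hc
      have := h4' r (by simpa using h6)
      omega
    have h6 : b = b' := by
      have := k (ψ s).right
      rw [ins_left hu, ins_left hu, inv_mul_cancel, h5] at this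
      cases b <;> cases b' <;> simp_all
    subst h6
    congr 1
    refine ins_inj hu hu' hu'' w a a' h1' h2' h3' h4' fun h => ?_
    have := k ((ψ s).right * h)
    rw [ins_left hu, ins_left hu, inv_mul_cancel_left] at this
    exact mul_left_cancel this

theorem strict [Infinite L] [DecidableEq L] (hu : (ψ u).right = 1)
    (hu' : ∀ h, h ≠ 1 → (ψ u).left h = 1) (hu'' : (ψ u).left 1 ≠ 1) (φ : G →* L)
    (hφ : ∀ x, φ x = (ψ x).right) {S : Finset G} (hS : Subgroup.closure (S : Set G) = ⊤)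
    (hS' : Subgroup.closure ((S.image φ : Finset L) : Set L) = ⊤) {e e' : ℝ} (he' : IsRate S e')
    (he : IsRate (S.image φ) e) : e < e' := by
  classical
  obtain ⟨c, hc⟩ := exists_mem_ball hS u
  have h1 := he'.one_le
  obtain ⟨z, z0, z1, z2⟩ : ∃ z : ℝ, 0 < z ∧ z * e' < 1 ∧ 1 < (z + z ^ (1 + c)) * e' := by
    have a1 : ContinuousAt (fun z : ℝ => (z + z ^ (1 + c)) * e') e'⁻¹ := by fun_prop
    have a2 : 1 < (e'⁻¹ + e'⁻¹ ^ (1 + c)) * e' := by
      rw [add_mul, inv_mul_cancel₀ (by positivity)]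
      have : 0 < e'⁻¹ ^ (1 + c) * e' := by positivity
      linarith
    have a3 : ∀ᶠ z in 𝓝[<] e'⁻¹, 1 < (z + z ^ (1 + c)) * e' :=
      nhdsWithin_le_nhds (a1.eventually (lt_mem_nhds a2))
    have a4 : ∀ᶠ z in 𝓝[<] e'⁻¹, 0 < z := nhdsWithin_le_nhds (lt_mem_nhds (by positivity))
    obtain ⟨z, ⟨b1, b2⟩, b3⟩ := ((a3.and a4).and self_mem_nhdsWithin).exists
    exact ⟨z, b2, by rw [← lt_div_iff₀ (by positivity), one_div]; exact b3, b1⟩
  obtain ⟨κ, k1, k2⟩ := exists_between ((one_lt_inv₀ (by positivity)).2 z1)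
  obtain ⟨C, C0, hC⟩ := he'.exists_bound k1
  have k3 : z * (e' * κ) < 1 := by
    rw [← mul_assoc, ← lt_div_iff₀' (by positivity), one_div]; exact k2
  have : ∀ g : L, ∃ w : List G, (∀ s ∈ w, s ∈ ball S 1) ∧ φ w.prod = g ∧
      ∀ r, g ∈ ball (S.image φ) r → w.length ≤ r := fun g => by
    have := exists_mem_ball hS' g
    have h2 := Nat.find_spec this
    rw [ball_map] at h2
    obtain ⟨_, ⟨w, w1, w2, rfl⟩, w3⟩ := h2
    exact ⟨w, fun s hs => letter_mem_ball (w2 s hs), w3, fun r hr => w1.trans (Nat.find_min' this hr)⟩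
  choose w w1 w2 w3 using this
  set y := z + z ^ (1 + c) with hy
  have y0 : 0 < y := by positivity
  have key : ∀ B : Finset L, ∑ g ∈ B, y ^ (w g).length ≤ C * (1 - z * (e' * κ))⁻¹ := by
    intro B
    refine le_trans (le_of_eq ?_) (sum_bound C0.le z0.le (by positivity) k3 hC
      (B.sigma fun g => (Finset.univ : Finset (Fin (w g).length → Bool)))
      (fun i => ins u (w i.1) (List.ofFn i.2))
      (fun i => ((List.ofFn i.2).map fun b => 1 + if b = true then c else 0).sum) ?_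
      fun i _ => ins_ball hc _ _ (w1 _))
    · rw [Finset.sum_sigma]
      refine Finset.sum_congr rfl fun g _ => ?_
      simp only [List.map_ofFn, List.sum_ofFn, ← Finset.prod_pow_eq_pow_sum, Function.comp]
      rw [← Fintype.piFinset_univ, ← Finset.prod_univ_sum (fun _ => Finset.univ)
        (fun _ b => z ^ (1 + if b = true then c else 0))]
      simp [hy, add_comm]
    · rintro ⟨g, a⟩ - ⟨g', a'⟩ - h
      simp only at h
      have : g = g' := by
        rw [← w2 g, ← w2 g', hφ, hφ, ← ins_right hu _ (List.ofFn a) (by simp), h,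
          ins_right hu _ _ (by simp)]
      subst this
      congr 1
      refine List.ofFn_injective (ins_inj hu hu' hu'' (S := S.image φ) (w g) _ _ (by simp) (by simp)
        (fun s hs => ?_) (fun r hr => w3 g r (by rwa [← hφ, w2] at hr)) fun k => by rw [h])
      rw [ball_map, ← hφ]
      exact ⟨s, w1 g s hs, rfl⟩
  rcases le_or_gt y 1 with y1 | y1
  · have := he.le_of_bound (C := C * (1 - z * (e' * κ))⁻¹) y0 fun r => by
      have a1 := key (ball_finite (S.image φ) r).toFinset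
      have a2 : ∑ g ∈ (ball_finite (S.image φ) r).toFinset, y ^ r ≤
          ∑ g ∈ (ball_finite (S.image φ) r).toFinset, y ^ (w g).length :=
        Finset.sum_le_sum fun g hg => pow_le_pow_of_le_one y0.le y1 (w3 g r (by simpa using hg))
      rw [Finset.sum_const, ← Set.ncard_eq_toFinset_card _ (ball_finite _ r), nsmul_eq_mul, mul_comm] at a2
      refine (a2.trans a1).trans (le_mul_of_one_le_right ?_ (one_le_pow₀ (by simp)))
      have : 0 < 1 - z * (e' * κ) := by linarith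
      positivity
    refine this.trans_lt ?_
    rw [div_lt_iff₀' y0]; exact z2
  · exfalso
    obtain ⟨n, hn⟩ := exists_nat_gt (C * (1 - z * (e' * κ))⁻¹)
    obtain ⟨B, hB⟩ := Infinite.exists_subset_card_eq L n
    have a1 := key B
    have a2 : ∑ g ∈ B, (1 : ℝ) ≤ ∑ g ∈ B, y ^ (w g).length :=
      Finset.sum_le_sum fun g _ => one_le_pow₀ y1.le
    rw [Finset.sum_const, hB] at a2
    simp at a2
    linarith

end

end Pool.Agent.MP_e37573_al

end

-- part MP_e37573_al.WO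
section

/-!
No strictly decreasing sequence of growth rates.
-/

namespace Pool.Agent.MP_e37573_al

open Filter Topology Pool.Agent.MP_646035_al MvPolynomial

lemma exists_enum {G : Type*} [Group G] (S : Finset G) {l : ℕ} (h : (ball S 1).ncard ≤ l) :
    ∃ s : Fin l → G, (∀ i, s i ∈ ball S 1) ∧ ∀ m, ∀ g ∈ ball S m, ∃ w : List (Fin l),
      w.length ≤ m ∧ (w.map s).prod = g := by
  have hf := ball_finite S 1
  have := hf.to_subtype
  have : Nonempty (ball S 1) := ⟨⟨1, one_mem_ball S 1⟩⟩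
  obtain ⟨f, hf'⟩ : ∃ f : ball S 1 → Fin l, Function.Injective f := by
    have := Fintype.ofFinite (ball S 1)
    obtain ⟨f⟩ := Function.Embedding.nonempty_of_card_le (α := ball S 1) (β := Fin l)
      (by rw [Fintype.card_fin, ← Nat.card_eq_fintype_card]; exact h)
    exact ⟨f, f.injective⟩
  refine ⟨fun i => (Function.invFun f i).1, fun i => (Function.invFun f i).2, fun m g hg => ?_⟩
  refine ball_induction (fun m g => ∃ w : List (Fin l), w.length ≤ m ∧
    (w.map fun i => (Function.invFun f i).1).prod = g) ⟨[], by simp, by simp⟩ ?_ ?_ m g hg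
  · rintro m g ⟨w, h1, h2⟩
    exact ⟨w, by omega, h2⟩
  · rintro m g x ⟨w, h1, h2⟩ hx
    refine ⟨w ++ [f ⟨x, letter_mem_ball hx⟩], by simpa using h1, ?_⟩
    simp [h2, Function.leftInverse_invFun hf' _]

lemma generic_index {σ : Type} [Finite σ] (x : ℕ → σ → ℂ) : ∃ n0 : ℕ, ∀ f : MvPolynomial σ ℂ,
    eval (x n0) f ≠ 0 → ∀ᶠ n in (hyperfilter ℕ : Filter ℕ), eval (x n) f ≠ 0 := by
  let I : Ideal (MvPolynomial σ ℂ) :=
    { carrier := {f | ∀ᶠ n in (hyperfilter ℕ : Filter ℕ), eval (x n) f = 0}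
      zero_mem' := by simp
      add_mem' := fun {f g} hf hg => by
        filter_upwards [hf, hg] with n h1 h2
        simp [h1, h2]
      smul_mem' := fun c f hf => by
        filter_upwards [hf] with n h1
        simp [h1] }
  obtain ⟨s, hs⟩ := IsNoetherian.noetherian I
  have h1 : ∀ᶠ n in (hyperfilter ℕ : Filter ℕ), ∀ f ∈ s, eval (x n) f = 0 := by
    rw [Filter.eventually_all_finset]
    intro f hf
    have : f ∈ I := hs ▸ Submodule.subset_span hf
    exact this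
  obtain ⟨n0, hn0⟩ := h1.exists
  refine ⟨n0, fun f hf => ?_⟩
  have h2 : f ∉ I := fun k => by
    rw [← hs] at k
    have : Submodule.span _ (s : Set (MvPolynomial σ ℂ)) ≤ RingHom.ker (eval (x n0)) :=
      Submodule.span_le.2 fun g hg => hn0 g hg
    exact hf (this k)
  exact Ultrafilter.eventually_not.2 h2

theorem no_strictAnti {d : ℕ} (G : ℕ → Type) [∀ n, Group (G n)]
    (ρ : ∀ n, G n →* Matrix (Fin d) (Fin d) ℂ) (hρ : ∀ n, Function.Injective (ρ n))
    (S : ∀ n, Finset (G n)) (e : ℕ → ℝ) (he : ∀ n, IsRate (S n) (e n)) (b : ℕ)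
    (hb : ∀ n (m : ℕ), ((ball (S n) m).ncard : ℝ) ≤ 8 * (m + 4) * e n ^ (m + b)) :
    ¬StrictAnti e := by
  intro hanti
  have h1 : ∀ n, 1 ≤ e n := fun n => (he n).one_le
  obtain ⟨l, hl⟩ := exists_nat_ge (40 * e 0 ^ (1 + b))
  have h2 : ∀ n, (ball (S n) 1).ncard ≤ l := fun n => by
    have a1 := hb n 1
    have a2 : e n ^ (1 + b) ≤ e 0 ^ (1 + b) :=
      pow_le_pow_left₀ (by linarith [h1 n]) (hanti.antitone (Nat.zero_le n)) _
    have : ((ball (S n) 1).ncard : ℝ) ≤ l := by push_cast at a1; linarith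
    exact_mod_cast this
  choose s hs hs' using fun n => exists_enum (S n) (h2 n)
  let x : ℕ → (Fin l × Fin d × Fin d) → ℂ := fun n i => ρ n (s n i.1) i.2.1 i.2.2
  let W : List (Fin l) → Matrix (Fin d) (Fin d) (MvPolynomial (Fin l × Fin d × Fin d) ℂ) :=
    fun w => (w.map fun i => Matrix.of fun a c => X (i, a, c)).prod
  have hW : ∀ n w, (eval (x n)).mapMatrix (W w) = ρ n (w.map (s n)).prod := by
    intro n w
    simp only [W, map_list_prod, List.map_map]
    congr 1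
    refine List.map_congr_left fun i _ => ?_
    ext a c
    simp [x]
  obtain ⟨n0, hn0⟩ := generic_index x
  have key : ∀ m, ((ball (S n0) m).ncard : ℝ) ≤ 8 * (m + 4) * e (n0 + 1) ^ (m + b) := by
    intro m
    choose! w hw hw' using hs' n0 m
    have h3 : ∀ᶠ n in (hyperfilter ℕ : Filter ℕ), ∀ g ∈ ball (S n0) m, ∀ g' ∈ ball (S n0) m,
        ((w g).map (s n)).prod = ((w g').map (s n)).prod → g = g' := by
      rw [Filter.eventually_all_finite (ball_finite _ _)]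
      intro g hg
      rw [Filter.eventually_all_finite (ball_finite _ _)]
      intro g' hg'
      by_cases h : g = g'
      · exact Eventually.of_forall fun _ _ => h
      have h4 : ¬∀ a c, eval (x n0) (W (w g) a c - W (w g') a c) = 0 := by
        intro k
        apply h
        apply hρ n0
        rw [← hw' g hg, ← hw' g' hg', ← hW, ← hW]
        ext a c
        simpa [sub_eq_zero] using k a c
      push Not at h4
      obtain ⟨a, c, h4⟩ := h4
      filter_upwards [hn0 _ h4] with n hn k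
      exfalso
      apply hn
      have := hW n (w g)
      rw [k, ← hW] at this
      simpa [sub_eq_zero] using congrFun (congrFun this a) c
    have h4 : ∀ᶠ n in (hyperfilter ℕ : Filter ℕ), n0 + 1 ≤ n :=
      Nat.hyperfilter_le_atTop (eventually_ge_atTop _)
    obtain ⟨n, h5, h6⟩ := (h3.and h4).exists
    have h7 : (ball (S n0) m).ncard ≤ (ball (S n) m).ncard := by
      refine Set.ncard_le_ncard_of_injOn (fun g => ((w g).map (s n)).prod) (fun g hg => ?_)
        (fun g hg g' hg' h => h5 g hg g' hg' h) (ball_finite _ _)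
      have := prod_mem_ball (S := S n) (M := 1) ((w g).map (s n)) fun y hy => by
        obtain ⟨i, -, rfl⟩ := List.mem_map.1 hy
        exact hs n i
      exact ball_mono _ (by simpa using hw g hg) this
    have h8 : e n ^ (m + b) ≤ e (n0 + 1) ^ (m + b) :=
      pow_le_pow_left₀ (by linarith [h1 n]) (hanti.antitone h6) _
    calc ((ball (S n0) m).ncard : ℝ) ≤ (ball (S n) m).ncard := by exact_mod_cast h7
      _ ≤ _ := hb n m
      _ ≤ _ := by gcongr
  set y := e (n0 + 1) with hy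
  have y1 : 1 ≤ y := h1 _
  have h5 := (he n0).le_of_bound (z := 1 / y) (C := 32 * y ^ b) (by positivity) fun r => by
    have a1 := key r
    have a2 : ((r : ℝ) + 4) ≤ 4 * ((r : ℝ) + 1) ^ 3 := by
      have : (0 : ℝ) ≤ r := by positivity
      nlinarith [pow_nonneg this 2, pow_nonneg this 3]
    calc (1 / y) ^ r * ((ball (S n0) r).ncard : ℝ) ≤ (1 / y) ^ r * (8 * (r + 4) * y ^ (r + b)) := by
          gcongr
      _ = 8 * (r + 4) * y ^ b := by rw [pow_add, one_div, inv_pow]; field_simp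
      _ ≤ 8 * (4 * ((r : ℝ) + 1) ^ 3) * y ^ b := by gcongr
      _ = _ := by ring
  rw [one_div_one_div] at h5
  exact absurd (hanti (Nat.lt_succ_self n0)) (not_lt.2 h5)

lemma IsClosedHypGroup.rep {Γ : Subgroup (Equiv.Perm H3)} (hΓ : IsClosedHypGroup Γ) :
    ∃ ρ : Γ →* Matrix (Fin (Module.finrank ℂ V)) (Fin (Module.finrank ℂ V)) ℂ,
      Function.Injective ρ := by
  have : ∀ γ : Γ, ∃ L : V →ₗ[ℂ] V, ∀ p, vec ((γ : Equiv.Perm H3) p) = L (vec p) := fun γ => by
    obtain ⟨g, h | h⟩ := hΓ.lift γ.2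
    · exact ⟨act g, h⟩
    · exact ⟨act g ∘ₗ tp, h⟩
  choose L hL using this
  let φ : Γ →* Module.End ℂ V :=
    { toFun := L
      map_one' := lin_ext fun p => by rw [← hL]; rfl
      map_mul' := fun γ δ => lin_ext fun p => by
        rw [← hL, Module.End.mul_apply, ← hL, ← hL]; rfl }
  have hφ : Function.Injective φ := fun γ δ h => Subtype.ext (Equiv.ext fun p => vec_inj (by
    rw [hL, hL]; exact LinearMap.congr_fun h _))
  let ψ := LinearMap.toMatrixAlgEquiv (Module.finBasis ℂ V)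
  exact ⟨(ψ : Module.End ℂ V →* _).comp φ, ψ.injective.comp hφ⟩

theorem rates_isWF : rates.IsWF := by
  rw [Set.isWF_iff_no_descending_seq]
  intro e he h
  choose Γ hΓ S hS hS' using h
  choose ρ hρ using fun n => (hΓ n).rep
  obtain ⟨b, hb⟩ := main_hyp
  exact no_strictAnti (fun n => Γ n) ρ hρ S e hS' b (fun n => hb _ (hΓ n) _ _ (hS n) (hS' n)) he

end Pool.Agent.MP_e37573_al

end

-- part MP_e37573_al.Ord
section

/-!
Order type `ω ^ ω` from iterated left derived sets.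
-/

namespace Pool.Agent.MP_e37573_al

open Ordinal

/-- iterated left derived sets -/
def Der (E : Set ℝ) : ℕ → Set ℝ
  | 0 => {x | ∀ y < x, ∃ z ∈ E, y < z ∧ z ≤ x}
  | j + 1 => {x | ∀ y < x, ∃ z ∈ Der E j, y < z ∧ z < x}

lemma der_zero {E : Set ℝ} : ∀ j, ∀ x ∈ Der E j, ∀ y < x, ∃ z ∈ E, y < z ∧ z ≤ x
  | 0, _, h => h
  | j + 1, x, h => fun y hy => by
    obtain ⟨z, h1, h2, h3⟩ := h y hy
    obtain ⟨w, h4, h5, h6⟩ := der_zero j z h1 y h2
    exact ⟨w, h4, h5, h6.trans h3.le⟩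

section
variable {E : Set ℝ} {τ : E → Ordinal.{0}} {T : Ordinal.{0}}

lemma der_lower (h1 : ∀ a b, τ a < τ b ↔ a < b) : ∀ j : ℕ, ∀ x ∈ Der E j, ∀ a : E, a.1 < x →
    ∀ c < ω ^ (j : Ordinal), ∃ b : E, b.1 ≤ x ∧ τ a + c < τ b
  | 0, x, h, a, ha, c, hc => by
    obtain ⟨z, hz, h2, h3⟩ := h a ha
    have : c = 0 := by simpa using hc
    exact ⟨⟨z, hz⟩, h3, by rw [this, add_zero, h1]; exact h2⟩
  | j + 1, x, h, a, ha, c, hc => by
    have key : ∀ n : ℕ, ∃ b : E, b.1 < x ∧ τ a + ω ^ (j : Ordinal) * n ≤ τ b := by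
      intro n
      induction n with
      | zero => exact ⟨a, ha, by simp⟩
      | succ n ih =>
        obtain ⟨b, hb, hb'⟩ := ih
        obtain ⟨z, z1, z2, z3⟩ := h b hb
        obtain ⟨z', y1, y2, y3⟩ := h z z3
        obtain ⟨w, w1, w2, w3⟩ := der_zero j z' y1 z y2
        refine ⟨⟨w, w1⟩, w3.trans_lt y3, ?_⟩
        have : τ b + ω ^ (j : Ordinal) ≤ τ ⟨w, w1⟩ := by
          rw [Ordinal.add_le_iff (opow_ne_zero _ omega0_ne_zero)]
          intro d hd
          obtain ⟨b', b1, b2⟩ := der_lower h1 j z z1 b z2 d hd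
          exact b2.trans ((h1 _ _).2 (b1.trans_lt w2))
        refine le_trans ?_ this
        rw [Nat.cast_succ, mul_add_one, ← add_assoc]
        gcongr
    rw [Nat.cast_succ, ← Order.succ_eq_add_one, lt_omega0_opow_succ] at hc
    obtain ⟨n, hn⟩ := hc
    obtain ⟨b, hb, hb'⟩ := key n
    exact ⟨b, hb.le, lt_of_lt_of_le (by gcongr) hb'⟩

lemma der_upper (h1 : ∀ a b, τ a < τ b ↔ a < b) (h2 : ∀ o b, o < τ b → ∃ a, τ a = o) :
    ∀ j : ℕ, ∀ a b : E, τ a + ω ^ (j : Ordinal) ≤ τ b → ∃ z ∈ Der E j, a.1 < z ∧ z ≤ b.1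
  | 0, a, b, h => by
    have : τ a < τ b := by simpa using h
    exact ⟨b, fun y hy => ⟨b, b.2, hy, le_rfl⟩, (h1 _ _).1 this, le_rfl⟩
  | j + 1, a, b, h => by
    set W : Set ℝ := {w | ∃ hw : w ∈ E, τ ⟨w, hw⟩ < τ a + ω ^ ((j + 1 : ℕ) : Ordinal)} with hW
    have hpos : (0 : Ordinal) < ω ^ ((j + 1 : ℕ) : Ordinal) := opow_pos _ omega0_pos
    have haW : a.1 ∈ W := ⟨a.2, lt_add_of_pos_right _ hpos⟩
    have hb : ∀ w ∈ W, w ≤ b.1 := fun w ⟨hw, hw'⟩ => ((h1 _ _).1 (hw'.trans_le h)).le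
    have hbd : BddAbove W := ⟨_, hb⟩
    have key : ∀ w ∈ W, ∃ z ∈ Der E j, w < z ∧ z < sSup W := by
      rintro w ⟨hw, hw'⟩
      obtain ⟨c, hc, hc'⟩ := (Ordinal.lt_add_iff hpos.ne').1 hw'
      have P := isPrincipal_add_omega0_opow ((j + 1 : ℕ) : Ordinal)
      have a1 : ω ^ (j : Ordinal) < ω ^ ((j + 1 : ℕ) : Ordinal) :=
        (opow_lt_opow_iff_right one_lt_omega0).2 (by exact_mod_cast Nat.lt_succ_self j)
      have a2 : (1 : Ordinal) < ω ^ ((j + 1 : ℕ) : Ordinal) :=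
        lt_of_le_of_lt (Order.one_le_iff_pos.2 (opow_pos _ omega0_pos)) a1
      have a3 : τ ⟨w, hw⟩ + ω ^ (j : Ordinal) + 1 < τ a + ω ^ ((j + 1 : ℕ) : Ordinal) := by
        calc _ ≤ τ a + c + ω ^ (j : Ordinal) + 1 := by gcongr
          _ = τ a + (c + ω ^ (j : Ordinal) + 1) := by simp only [add_assoc]
          _ < _ := by gcongr; exact P (P hc a1) a2
      have a4 := lt_add_one (τ ⟨w, hw⟩ + ω ^ (j : Ordinal))
      obtain ⟨e, he⟩ := h2 _ b ((a4.trans a3).trans_le h)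
      obtain ⟨e', he'⟩ := h2 _ b (a3.trans_le h)
      obtain ⟨z, z1, z2, z3⟩ := der_upper h1 h2 j ⟨w, hw⟩ e he.ge
      have a5 : e.1 < e'.1 := (h1 _ _).1 (by rw [he, he']; exact a4)
      exact ⟨z, z1, z2, (z3.trans_lt a5).trans_le (le_csSup hbd ⟨e'.2, he' ▸ a3⟩)⟩
    refine ⟨sSup W, fun y hy => ?_, ?_, csSup_le ⟨_, haW⟩ hb⟩
    · obtain ⟨w, w1, w2⟩ := exists_lt_of_lt_csSup ⟨_, haW⟩ hy
      obtain ⟨z, z1, z2, z3⟩ := key w w1
      exact ⟨z, z1, w2.trans z2, z3⟩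
    · obtain ⟨z, -, z2, z3⟩ := key _ haW
      exact z2.trans z3

end

theorem orderIso_of_der {E : Set ℝ} (hE : E.IsWF) (hlow : ∀ j, (Der E j).Nonempty)
    (hup : ∀ r, ∃ j, ∀ x ∈ Der E j, r < x) :
    Nonempty (E ≃o Set.Iio (ω ^ ω : Ordinal.{0})) := by
  have : WellFoundedLT E := ⟨hE⟩
  let τ : E → Ordinal.{0} := typein (· < ·)
  have h1 : ∀ a b, τ a < τ b ↔ a < b := fun a b => typein_lt_typein _
  have h3 : ∀ a, τ a < type (α := E) (· < ·) := typein_lt_type _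
  have h4 : ∀ o < type (α := E) (· < ·), ∃ a, τ a = o := fun o ho => typein_surj _ ho
  have hT : type (α := E) (· < ·) = ω ^ ω := by
    apply le_antisymm
    · by_contra hc
      obtain ⟨b, hb⟩ := h4 _ (not_le.1 hc)
      obtain ⟨a, ha⟩ := h4 0 ((opow_pos _ omega0_pos).trans (not_le.1 hc))
      obtain ⟨j, hj⟩ := hup b
      obtain ⟨z, z1, -, z3⟩ := der_upper h1 (fun o b h => h4 o (h.trans (h3 b))) j a b (by
        rw [ha, hb, zero_add]
        exact opow_le_opow_right omega0_pos (natCast_lt_omega0 j).le)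
      exact absurd (hj z z1) (not_lt.2 z3)
    · refine le_of_forall_lt fun c hc => ?_
      obtain ⟨d, hd, hc⟩ := (lt_opow_of_isSuccLimit omega0_ne_zero isSuccLimit_omega0).1 hc
      obtain ⟨j, rfl⟩ := lt_omega0.1 hd
      obtain ⟨x, hx⟩ := hlow (j + 1)
      obtain ⟨z, z1, -, z3⟩ := hx (x - 1) (by linarith)
      obtain ⟨z', y1, y2, -⟩ := hx z z3
      obtain ⟨a, a1, -, a3⟩ := der_zero j z z1 (z - 1) (by linarith)
      obtain ⟨b, -, hb⟩ := der_lower h1 j z' y1 ⟨a, a1⟩ (a3.trans_lt y2) c hc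
      exact (le_add_self.trans_lt hb).trans (h3 b)
  rw [← hT]
  exact ⟨(OrderIso.ofRelIsoLT (enum (α := E) (· < ·))).symm⟩

end Pool.Agent.MP_e37573_al

end

-- part MP_e37573_al.Upper
section

/-!
The iterated derived sets of the set of growth rates leave every bounded interval.
-/

namespace Pool.Agent.MP_e37573_al

open Filter Topology Pool.Agent.MP_646035_al MvPolynomial

lemma le_of_pow_le {a y : ℝ} {b : ℕ} (hy : 0 < y)
    (h : ∀ m : ℕ, 0 < m → a ^ m ≤ 8 * (m + 4) * y ^ (m + b)) : a ≤ y := by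
  by_contra hc
  have hq : 1 < a / y := (one_lt_div hy).2 (not_le.1 hc)
  have h1 := (tendsto_pow_const_div_const_pow_of_one_lt 1 hq).const_mul (40 * y ^ b)
  rw [mul_zero] at h1
  obtain ⟨m, h2, h3⟩ := ((h1.eventually (gt_mem_nhds one_pos)).and (eventually_gt_atTop 0)).exists
  have h4 := h m h3
  have h5 : (1 : ℝ) ≤ m := by exact_mod_cast h3
  have h6 : 0 < (a / y) ^ m := by positivity
  rw [pow_one, ← mul_div_assoc, div_lt_one h6, div_pow, lt_div_iff₀ (by positivity)] at h2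
  rw [pow_add] at h4
  have : 0 < y ^ b * y ^ m := by positivity
  nlinarith

section
variable {l d : ℕ}

/-- generic words -/
noncomputable def Wd (d : ℕ) (w : List (Fin l)) :
    Matrix (Fin d) (Fin d) (MvPolynomial (Fin l × Fin d × Fin d) ℂ) :=
  (w.map fun i => Matrix.of fun a c => X (i, a, c)).prod

def Bl (pt : Fin l × Fin d × Fin d → ℂ) (m : ℕ) : Set (Matrix (Fin d) (Fin d) ℂ) :=
  (fun w => (eval pt).mapMatrix (Wd d w)) '' {w | w.length ≤ m}

lemma Bl_finite (pt : Fin l × Fin d × Fin d → ℂ) (m : ℕ) : (Bl pt m).Finite :=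
  (List.finite_length_le _ m).image _

lemma Bl_le (pt : Fin l × Fin d × Fin d → ℂ) (m : ℕ) :
    ∃ F : Set (MvPolynomial (Fin l × Fin d × Fin d) ℂ), F.Finite ∧ (∀ f ∈ F, eval pt f ≠ 0) ∧
      ∀ pt', (∀ f ∈ F, eval pt' f ≠ 0) → (Bl pt m).ncard ≤ (Bl pt' m).ncard := by
  have hf := List.finite_length_le (Fin l) m
  refine ⟨{f | f ∈ (fun x : (List (Fin l) × List (Fin l)) × (Fin d × Fin d) =>
    Wd d x.1.1 x.2.1 x.2.2 - Wd d x.1.2 x.2.1 x.2.2) ''
      (({w | w.length ≤ m} ×ˢ {w | w.length ≤ m}) ×ˢ Set.univ) ∧ eval pt f ≠ 0},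
    (((hf.prod hf).prod Set.finite_univ).image _).subset fun f hf => hf.1, fun f hf => hf.2,
    fun pt' h => ?_⟩
  have : ∀ M ∈ Bl pt m, ∃ w : List (Fin l), w.length ≤ m ∧ (eval pt).mapMatrix (Wd d w) = M :=
    fun M hM => hM
  choose! w hw hw' using this
  refine Set.ncard_le_ncard_of_injOn (fun M => (eval pt').mapMatrix (Wd d (w M)))
    (fun M hM => ⟨_, hw M hM, rfl⟩) (fun M hM M' hM' k => ?_) (Bl_finite _ _)
  rw [← hw' M hM, ← hw' M' hM']
  ext a c
  by_contra hc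
  refine h _ ⟨⟨((w M, w M'), (a, c)), ⟨⟨hw M hM, hw M' hM'⟩, trivial⟩, rfl⟩, ?_⟩ ?_
  · simpa [sub_eq_zero] using hc
  · simpa [sub_eq_zero] using congrFun (congrFun k a) c

def Conf (b : ℕ) (pt : Fin l × Fin d × Fin d → ℂ) (e : ℝ) : Prop :=
  1 ≤ e ∧ ∀ m : ℕ, 0 < m → e ^ m ≤ (Bl pt m).ncard ∧ ((Bl pt m).ncard : ℝ) ≤ 8 * (m + 4) * e ^ (m + b)

def Rep (b : ℕ) (P : PrimeSpectrum (MvPolynomial (Fin l × Fin d × Fin d) ℂ)) (x : ℝ) : Prop :=
  ∀ F : Set (MvPolynomial (Fin l × Fin d × Fin d) ℂ), F.Finite → (∀ f ∈ F, f ∉ P.asIdeal) →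
    ∀ ε : ℝ, 0 < ε → ∃ pt e, Conf b pt e ∧ |e - x| < ε ∧ (∀ f ∈ P.asIdeal, eval pt f = 0) ∧
      ∀ f ∈ F, eval pt f ≠ 0

lemma Rep.le {b : ℕ} {P : PrimeSpectrum (MvPolynomial (Fin l × Fin d × Fin d) ℂ)} {x x' : ℝ}
    (h : Rep b P x) (h' : Rep b P x') : x' ≤ x := by
  by_contra hc
  have hδ : 0 < (x' - x) / 2 := by linarith [not_le.1 hc]
  obtain ⟨pt', e', c1, c2, c3, -⟩ := h' ∅ Set.finite_empty (by simp) _ hδ
  have key : ∀ m : ℕ, 0 < m → 0 < (x + x') / 2 ∧ e' ^ m ≤ 8 * (m + 4) * ((x + x') / 2) ^ (m + b) := by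
    intro m hm
    obtain ⟨F, f1, f2, f3⟩ := Bl_le pt' m
    obtain ⟨pt, e, d1, d2, -, d4⟩ := h F f1 (fun f hf k => f2 f hf (c3 f k)) _ hδ
    have a1 : ((Bl pt' m).ncard : ℝ) ≤ (Bl pt m).ncard := by exact_mod_cast f3 pt d4
    have a2 : e ≤ (x + x') / 2 := by linarith [(abs_lt.1 d2).2]
    have a3 := d1.1
    refine ⟨by linarith, ((c1.2 m hm).1.trans a1).trans ((d1.2 m hm).2.trans ?_)⟩
    gcongr
  have := le_of_pow_le (key 1 one_pos).1 fun m hm => (key m hm).2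
  linarith [(abs_lt.1 c2).1]

lemma rep_limit {b : ℕ} (P : ℕ → PrimeSpectrum (MvPolynomial (Fin l × Fin d × Fin d) ℂ))
    (z : ℕ → ℝ) {x : ℝ} (h : ∀ n, Rep b (P n) (z n)) (hz : Tendsto z atTop (𝓝 x)) :
    ∃ Q, Rep b Q x ∧ ∃ n, Q ≤ P n := by
  let I : Ideal (MvPolynomial (Fin l × Fin d × Fin d) ℂ) :=
    { carrier := {f | ∀ᶠ n in (hyperfilter ℕ : Filter ℕ), f ∈ (P n).asIdeal}
      zero_mem' := by simp
      add_mem' := fun {f g} hf hg => by
        filter_upwards [hf, hg] with n h1 h2 using Ideal.add_mem _ h1 h2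
      smul_mem' := fun c f hf => by
        filter_upwards [hf] with n h1 using Ideal.mul_mem_left _ c h1 }
  have hI : I.IsPrime := by
    refine ⟨fun k => ?_, fun {f g} k => ?_⟩
    · have : (1 : MvPolynomial _ ℂ) ∈ I := k ▸ Submodule.mem_top
      obtain ⟨n, hn⟩ := Eventually.exists this
      exact (P n).isPrime.one_notMem hn
    · exact Ultrafilter.eventually_or.1 (Eventually.mono k fun n hn => (P n).isPrime.mem_or_mem hn)
  obtain ⟨s, hs⟩ := IsNoetherian.noetherian I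
  have h1 : ∀ᶠ n in (hyperfilter ℕ : Filter ℕ), I ≤ (P n).asIdeal := by
    have : ∀ᶠ n in (hyperfilter ℕ : Filter ℕ), ∀ f ∈ s, f ∈ (P n).asIdeal := by
      rw [Filter.eventually_all_finset]
      intro f hf
      have : f ∈ I := hs ▸ Submodule.subset_span hf
      exact this
    filter_upwards [this] with n hn
    rw [← hs]
    exact Submodule.span_le.2 hn
  refine ⟨⟨I, hI⟩, fun F hF hF' ε hε => ?_, h1.exists⟩
  have h2 : ∀ᶠ n in (hyperfilter ℕ : Filter ℕ), ∀ f ∈ F, f ∉ (P n).asIdeal := by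
    rw [Filter.eventually_all_finite hF]
    exact fun f hf => Ultrafilter.eventually_not.2 (hF' f hf)
  have h3 : ∀ᶠ n in (hyperfilter ℕ : Filter ℕ), dist (z n) x < ε / 2 :=
    Nat.hyperfilter_le_atTop (Metric.tendsto_nhds.1 hz _ (half_pos hε))
  obtain ⟨n, ⟨a1, a2⟩, a3⟩ := ((h1.and h2).and h3).exists
  obtain ⟨pt, e, c1, c2, c3, c4⟩ := h n F hF a2 _ (half_pos hε)
  refine ⟨pt, e, c1, ?_, fun f hf => c3 f (a1 hf), c4⟩
  rw [Real.dist_eq] at a3
  linarith [abs_sub_le e (z n) x]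

lemma tendsto_of_near {z : ℕ → ℝ} {x : ℝ} (h1 : ∀ n : ℕ, x - 1 / ((n : ℝ) + 1) < z n)
    (h2 : ∀ n, z n ≤ x) : Tendsto z atTop (𝓝 x) :=
  tendsto_of_tendsto_of_tendsto_of_le_of_le
    (by simpa using (tendsto_one_div_add_atTop_nhds_zero_nat (𝕜 := ℝ)).const_sub x)
    tendsto_const_nhds (fun n => (h1 n).le) h2

lemma der_rep {b : ℕ} {E : Set ℝ} {r : ℝ}
    (h : ∀ e ∈ E, e ≤ r → ∃ pt : Fin l × Fin d × Fin d → ℂ, Conf b pt e) :
    ∀ j : ℕ, ∀ x ∈ Der E j, x ≤ r →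
      ∃ P : PrimeSpectrum (MvPolynomial (Fin l × Fin d × Fin d) ℂ), Rep b P x ∧ j ≤ Order.coheight P
  | 0, x, hx, hr => by
    have hlt : ∀ n : ℕ, x - 1 / ((n : ℝ) + 1) < x := fun n => sub_lt_self _ (by positivity)
    choose z z1 z2 z3 using fun n => hx _ (hlt n)
    choose pt hpt using fun n => h _ (z1 n) ((z3 n).trans hr)
    obtain ⟨Q, hQ, -⟩ := rep_limit (b := b)
      (fun n => ⟨RingHom.ker (eval (pt n)), RingHom.ker_isPrime _⟩) z
      (fun n F _ hF ε hε => ⟨pt n, z n, hpt n, by simpa using hε, fun _ hf => hf, hF⟩)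
      (tendsto_of_near z2 z3)
    exact ⟨Q, hQ, by simp⟩
  | j + 1, x, hx, hr => by
    have hlt : ∀ n : ℕ, x - 1 / ((n : ℝ) + 1) < x := fun n => sub_lt_self _ (by positivity)
    choose z z1 z2 z3 using fun n => hx _ (hlt n)
    choose P hP hP' using fun n => der_rep h j _ (z1 n) ((z3 n).le.trans hr)
    obtain ⟨Q, hQ, n, hn⟩ := rep_limit P z hP (tendsto_of_near z2 fun n => (z3 n).le)
    have : Q < P n := lt_of_le_of_ne hn fun k => absurd ((hP n).le (k ▸ hQ)) (not_le.2 (z3 n))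
    refine ⟨Q, hQ, le_trans ?_ (Order.coheight_add_one_le this)⟩
    push_cast
    gcongr
    exact hP' n

end

theorem rates_upper (r : ℝ) : ∃ j, ∀ x ∈ Der rates j, r < x := by
  obtain ⟨b, hb⟩ := main_hyp
  obtain ⟨l, hl⟩ := exists_nat_ge (40 * r ^ (1 + b))
  set d := Module.finrank ℂ V
  have h : ∀ e ∈ rates, e ≤ r → ∃ pt : Fin l × Fin d × Fin d → ℂ, Conf b pt e := by
    rintro e ⟨Γ, hΓ, S, hS, he⟩ hr
    have he : IsRate S e := he
    have h1 := he.one_le
    obtain ⟨ρ, hρ⟩ := hΓ.rep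
    have h2 : (ball S 1).ncard ≤ l := by
      have a1 := hb Γ hΓ S e hS he 1
      have a2 : e ^ (1 + b) ≤ r ^ (1 + b) := by gcongr
      have : ((ball S 1).ncard : ℝ) ≤ l := by push_cast at a1; linarith
      exact_mod_cast this
    obtain ⟨s, hs, hs'⟩ := exists_enum S h2
    let pt : Fin l × Fin d × Fin d → ℂ := fun i => ρ (s i.1) i.2.1 i.2.2
    have hW : ∀ w, (eval pt).mapMatrix (Wd d w) = ρ (w.map s).prod := by
      intro w
      simp only [Wd, map_list_prod, List.map_map]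
      congr 1
      refine List.map_congr_left fun i _ => ?_
      ext a c
      simp [pt]
    have hB : ∀ m, (Bl pt m).ncard = (ball S m).ncard := by
      intro m
      rw [← Set.ncard_image_of_injective (ball S m) hρ]
      congr 1
      ext M
      constructor
      · rintro ⟨w, hw, rfl⟩
        refine ⟨_, ?_, (hW w).symm⟩
        have := prod_mem_ball (S := S) (M := 1) (w.map s) fun y hy => by
          obtain ⟨i, -, rfl⟩ := List.mem_map.1 hy
          exact hs i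
        exact ball_mono _ (by simpa using hw) this
      · rintro ⟨g, hg, rfl⟩
        obtain ⟨w, hw, rfl⟩ := hs' m g hg
        exact ⟨w, hw, hW w⟩
    exact ⟨pt, h1, fun m hm => by rw [hB]; exact ⟨rate_pow_le he hm, hb Γ hΓ S e hS he m⟩⟩
  refine ⟨Nat.card (Fin l × Fin d × Fin d) + 1, fun x hx => ?_⟩
  by_contra hc
  obtain ⟨P, -, hP⟩ := der_rep h _ x hx (not_lt.1 hc)
  have h1 := Order.coheight_le_krullDim P
  have h2 : Order.krullDim (PrimeSpectrum (MvPolynomial (Fin l × Fin d × Fin d) ℂ)) =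
      Nat.card (Fin l × Fin d × Fin d) := by
    have := MvPolynomial.ringKrullDim_of_isNoetherianRing (R := ℂ) (ι := Fin l × Fin d × Fin d)
    rwa [ringKrullDim_eq_zero_of_field, zero_add] at this
  rw [h2] at h1
  have h3 := (WithBot.coe_le_coe.2 hP).trans h1
  norm_cast at h3
  omega

end Pool.Agent.MP_e37573_al

end

-- part MP_e37573_al.Act
section

/-!
A cocompact lattice of `SL(2, ℂ)` without elliptic elements gives a closed hyperbolic 3-manifold
group.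
-/

namespace Pool.Agent.MP_e37573_al

open SL ComplexConjugate Pool.Agent.MP_646035_al

noncomputable def mv (g : SL) (p : H3) : H3 := (exists_act_vec g p).choose

lemma vec_mv (g : SL) (p : H3) : vec (mv g p) = act g (vec p) := (exists_act_vec g p).choose_spec

noncomputable def mob : SL →* Equiv.Perm H3 where
  toFun g :=
    { toFun := mv g
      invFun := mv g⁻¹
      left_inv := fun p => vec_inj (by rw [vec_mv, vec_mv, act_inv_act])
      right_inv := fun p => vec_inj (by rw [vec_mv, vec_mv, act_act_inv]) }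
  map_one' := Equiv.ext fun p => vec_inj ((vec_mv 1 p).trans (act_one _))
  map_mul' g h := Equiv.ext fun p => vec_inj ((vec_mv _ p).trans ((act_mul _ _ _).trans
    (by rw [← vec_mv, ← vec_mv]; rfl)))

lemma lift_mob (g : SL) : Lift g (mob g) := vec_mv g

lemma fix_jj {h : SL} (hh : act h (vec jj) = vec jj) :
    h = 1 ∨ h = -1 ∨ ∃ t : ℝ, |t| < 2 ∧ tr h = t := by
  rw [vec_jj] at hh
  simp only [act_apply, Prod.mk.injEq, mul_one, mul_zero, add_zero, zero_add] at hh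
  obtain ⟨e1, -, e3, e4⟩ := hh
  have hd := h.det
  have f1 : h.d = conj h.a := by linear_combination -h.d * e1 + h.b * e3 + conj h.a * hd
  have f2 : h.c = -conj h.b := by linear_combination -h.c * e1 + h.a * e3 - conj h.b * hd
  rw [Complex.mul_conj, Complex.mul_conj] at e1
  have e5 : Complex.normSq h.a + Complex.normSq h.b = 1 := by exact_mod_cast e1
  have e6 := Complex.normSq_nonneg h.b
  rw [Complex.normSq_apply] at e5
  by_cases hc : |h.a.re| < 1
  · refine Or.inr (Or.inr ⟨2 * h.a.re, by rw [abs_mul]; norm_num; exact hc, ?_⟩)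
    rw [tr, f1, Complex.add_conj]
  have e7 : 1 ≤ h.a.re * h.a.re := by
    rw [← abs_mul_abs_self]; push Not at hc; nlinarith
  have e8 : h.b = 0 := Complex.normSq_eq_zero.1 (by nlinarith [mul_self_nonneg h.a.im])
  have e9 : h.a.im = 0 := mul_self_eq_zero.1 (by nlinarith [mul_self_nonneg h.a.im])
  have e10 : h.a.re * h.a.re = 1 := by nlinarith [mul_self_nonneg h.a.im]
  rcases mul_self_eq_one_iff.1 e10 with k | k
  · have : h.a = 1 := Complex.ext k e9
    left; ext <;> simp [f1, f2, e8, this]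
  · have : h.a = -1 := Complex.ext (by simpa using k) (by simpa using e9)
    right; left; ext <;> simp [f1, f2, e8, this]

lemma closure_bounded : Subgroup.closure {u : SL | nm u ≤ 3} = ⊤ := by
  set H := Subgroup.closure {u : SL | nm u ≤ 3} with hH
  let U : ℂ → SL := fun z => ⟨1, z, 0, 1, by ring⟩
  let W : SL := ⟨0, 1, -1, 0, by ring⟩
  have hU1 : ∀ (n : ℕ) z, ‖z‖ ≤ 1 → U (n * z) ∈ H := by
    intro n z hz
    induction n with
    | zero => convert H.one_mem; ext <;> simp [U]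
    | succ n ih =>
      have : U z ∈ H := Subgroup.subset_closure (by simp [nm, U]; linarith)
      convert H.mul_mem ih this
      ext <;> simp [U]; ring
  have hU : ∀ z, U z ∈ H := by
    intro z
    obtain ⟨n, hn⟩ := exists_nat_gt ‖z‖
    have h0 : (0 : ℝ) < n := (norm_nonneg z).trans_lt hn
    have h1 : (n : ℂ) ≠ 0 := by exact_mod_cast h0.ne'
    have := hU1 n (z / n) (by rw [norm_div, div_le_one (by simpa using h0)]; simpa using hn.le)
    rwa [mul_div_cancel₀ _ h1] at this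
  have hW : W ∈ H := Subgroup.subset_closure (by simp [nm, W]; norm_num)
  have key : ∀ g : SL, g.c ≠ 0 → g ∈ H := by
    intro g hg
    have hd := g.det
    convert H.mul_mem (H.mul_mem (hU ((g.a - 1) / g.c))
      (H.mul_mem (H.mul_mem hW (hU (-g.c))) (H.inv_mem hW))) (hU ((g.d - 1) / g.c))
    ext <;> simp [U, W]
    · field_simp; ring
    · field_simp; linear_combination -hd
    · field_simp; ring
  rw [eq_top_iff]
  intro g _
  by_cases hc : g.c = 0
  · have ha : g.a ≠ 0 := by intro h; have := g.det; simp [h, hc] at this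
    have := H.mul_mem (H.inv_mem hW) (key (W * g) (by simpa [W] using ha))
    simpa using this
  · exact key g hc

structure Latt (Λ : Subgroup SL) : Prop where
  fin : ∀ R : ℝ, {g | g ∈ Λ ∧ nm g ≤ R}.Finite
  coc : ∃ R : ℝ, ∀ g : SL, ∃ γ ∈ Λ, nm (γ⁻¹ * g) ≤ R
  ell : ∀ g ∈ Λ, ∀ t : ℝ, |t| < 2 → tr g ≠ t

lemma Latt.fg {Λ : Subgroup SL} (h : Latt Λ) : Λ.FG := by
  obtain ⟨R, hR⟩ := h.coc
  have R1 : 1 ≤ R := by obtain ⟨γ, -, k⟩ := hR 1; exact (one_le_nm _).trans k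
  set H := Subgroup.closure {g | g ∈ Λ ∧ nm g ≤ R * 3 * R} with hH
  have hle : H ≤ Λ := (Subgroup.closure_le _).2 fun g hg => hg.1
  have step : ∀ g u : SL, nm u ≤ 3 → (∃ γ ∈ H, nm (γ⁻¹ * g) ≤ R) →
      ∃ γ ∈ H, nm (γ⁻¹ * (g * u)) ≤ R := by
    rintro g u hu ⟨γ, h1, h2⟩
    obtain ⟨δ, h3, h4⟩ := hR (g * u)
    refine ⟨δ, ?_, h4⟩
    have h5 : γ⁻¹ * δ ∈ H := by
      refine Subgroup.subset_closure ⟨Λ.mul_mem (Λ.inv_mem (hle h1)) h3, ?_⟩
      rw [show γ⁻¹ * δ = γ⁻¹ * g * u * (δ⁻¹ * (g * u))⁻¹ by group]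
      refine (nm_mul3 _ _ _).trans ?_
      rw [nm_inv]
      have := nm_nonneg u; have := nm_nonneg (δ⁻¹ * (g * u))
      gcongr
    simpa using H.mul_mem h1 h5
  have key : ∀ g : SL, ∃ γ ∈ H, nm (γ⁻¹ * g) ≤ R := by
    intro g
    have hg : g ∈ Subgroup.closure {u : SL | nm u ≤ 3} := closure_bounded ▸ Subgroup.mem_top g
    induction hg using Subgroup.closure_induction_right with
    | one =>
      obtain ⟨γ, h1, h2⟩ := hR 1
      refine ⟨γ, Subgroup.subset_closure ⟨h1, ?_⟩, h2⟩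
      rw [mul_one, nm_inv] at h2
      nlinarith
    | mul_right x _ y hy ih => exact step x y hy ih
    | mul_inv_cancel x _ y hy ih => exact step x _ (by simpa using hy) ih
  refine (Subgroup.fg_iff _).2 ⟨_, le_antisymm hle fun g hg => ?_, h.fin _⟩
  obtain ⟨γ, h1, h2⟩ := key g
  have h5 : γ⁻¹ * g ∈ H :=
    Subgroup.subset_closure ⟨Λ.mul_mem (Λ.inv_mem (hle h1)) hg, by nlinarith⟩
  simpa using H.mul_mem h1 h5

lemma Latt.closed {Λ : Subgroup SL} (h : Latt Λ) : IsClosedHypGroup (Λ.map mob) := by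
  refine ⟨?_, ?_, fun p R => ?_, ?_⟩
  · rintro _ ⟨g, -, rfl⟩ p q
    have := bf_act g (vec p) (vec q)
    rw [← lift_mob, ← lift_mob, bf_vec, bf_vec] at this
    rw [hdist_eq, hdist_eq, Complex.ofReal_injective this]
  · rintro _ ⟨g, hg, rfl⟩ p hp
    obtain ⟨k, hk⟩ := exists_trans p
    have h1 : act (k⁻¹ * g * k⁻¹⁻¹) (vec jj) = vec jj := by
      rw [act_mul, act_mul, inv_inv, hk, ← lift_mob, hp, ← hk, act_inv_act]
    have h2 : g = k * (k⁻¹ * g * k⁻¹⁻¹) * k⁻¹ := by group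
    rcases fix_jj h1 with h3 | h3 | ⟨t, h3, h4⟩
    · rw [h2, h3]; simp
    · rw [h2, h3]
      exact (lift_mob _).right_unique (by simpa using Lift.one.neg)
    · exact absurd ((tr_conj _ _).symm.trans h4) (h.ell g hg t h3)
  · obtain ⟨k, hk⟩ := exists_trans p
    refine ((h.fin (nm k * (2 + Real.cosh R) * nm k)).image mob).subset ?_
    rintro _ ⟨⟨g, hg, rfl⟩, h1⟩
    refine ⟨g, ⟨hg, ?_⟩, rfl⟩
    have h2 := ch_le_of_hdist h1
    rw [ch_comm, ch_eq_fro (g := g * k) (by rw [lift_mob, act_mul, hk]) hk.symm] at h2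
    have h3 := nm_le_fro (k⁻¹ * (g * k))
    rw [show g = k * (k⁻¹ * (g * k)) * k⁻¹ by group]
    refine (nm_mul3 _ _ _).trans ?_
    rw [nm_inv]
    have := nm_nonneg k
    gcongr
    linarith
  · obtain ⟨R, hR⟩ := h.coc
    refine ⟨jj, Real.arcosh (R ^ 2), fun q => ?_⟩
    obtain ⟨k, hk⟩ := exists_trans q
    obtain ⟨γ, h1, h2⟩ := hR k
    refine ⟨_, ⟨γ, h1, rfl⟩, ?_⟩
    have h3 := one_le_ch q (mob γ jj)
    have h4 : ch q (mob γ jj) ≤ R ^ 2 := by
      rw [ch_eq_fro hk.symm (lift_mob γ jj)]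
      exact (fro_le_nm _).trans (pow_le_pow_left₀ (nm_nonneg _) h2 2)
    rw [hdist_eq, Real.arcosh_le_arcosh (by linarith) (by linarith)]
    exact h4

lemma Latt.nonempty {Λ : Subgroup SL} (h : Latt Λ) : rates.Nonempty := by
  classical
  have h1 : (Λ.map mob).FG := by
    obtain ⟨S, hS, hf⟩ := (Subgroup.fg_iff _).1 h.fg
    exact (Subgroup.fg_iff _).2 ⟨mob '' S, by rw [← MonoidHom.map_closure, hS], hf.image _⟩
  obtain ⟨S, hS⟩ := Group.fg_def.1 ((Group.fg_iff_subgroup_fg _).2 h1)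
  obtain ⟨e, he⟩ := exists_isRate S
  exact ⟨e, _, h.closed, S, hS, he⟩

end Pool.Agent.MP_e37573_al

end

-- part MP_e37573_al.Arith
section

/-!
An arithmetic cocompact lattice: the norm one group of an order in the quaternion algebra
`(1 + i, 3)` over `ℚ(i)`.
-/

namespace Pool.Agent.MP_e37573_al

open SL Complex

abbrev Zi := GaussianInt

abbrev Q := Fin 4 → Zi

def a0 : Zi := ⟨1, 1⟩

def qN (x : Q) : Zi := x 0 ^ 2 - a0 * x 1 ^ 2 - 3 * (x 2 ^ 2 - a0 * x 3 ^ 2)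

lemma mod3 (u v : Zi) (h : 3 ∣ u ^ 2 - a0 * v ^ 2) : 3 ∣ u ∧ 3 ∣ v := by
  have k : ∀ z : Zi, 3 ∣ z ↔ (z.re : ZMod 3) = 0 ∧ (z.im : ZMod 3) = 0 := fun z => by
    rw [ZMod.intCast_zmod_eq_zero_iff_dvd, ZMod.intCast_zmod_eq_zero_iff_dvd]
    exact Zsqrtd.intCast_dvd 3 z
  rw [k] at h
  rw [k, k]
  simp only [sq, a0, Zsqrtd.re_sub, Zsqrtd.im_sub, Zsqrtd.re_mul, Zsqrtd.im_mul] at h
  push_cast at h
  revert h
  generalize (u.re : ZMod 3) = a
  generalize (u.im : ZMod 3) = b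
  generalize (v.re : ZMod 3) = c
  generalize (v.im : ZMod 3) = d
  revert a b c d
  decide

lemma aniso (x : Q) (h : qN x = 0) : x = 0 := by
  induction hn : ∑ i, (x i).norm.natAbs using Nat.strong_induction_on generalizing x with
  | _ n ih =>
  obtain ⟨⟨y0, h0⟩, ⟨y1, h1⟩⟩ := mod3 (x 0) (x 1) ⟨x 2 ^ 2 - a0 * x 3 ^ 2, by
    unfold qN at h; linear_combination h⟩
  obtain ⟨⟨y2, h2⟩, ⟨y3, h3⟩⟩ := mod3 (x 2) (x 3) ⟨y0 ^ 2 - a0 * y1 ^ 2, by
    apply mul_left_cancel₀ (show (3 : Zi) ≠ 0 by decide)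
    unfold qN at h; rw [h0, h1] at h; linear_combination -h⟩
  let y : Q := ![y0, y1, y2, y3]
  have hxy : ∀ i, x i = 3 * y i := fun i => by fin_cases i <;> assumption
  have hy : qN y = 0 := by
    apply mul_left_cancel₀ (show (9 : Zi) ≠ 0 by decide)
    simp only [qN, hxy] at h ⊢; linear_combination h
  have hs : n = 9 * ∑ i, (y i).norm.natAbs := by
    rw [← hn, Finset.mul_sum]
    refine Finset.sum_congr rfl fun i _ => ?_
    rw [hxy, Zsqrtd.norm_mul, Int.natAbs_mul]; rfl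
  by_cases h0 : n = 0
  · ext1 i
    have := (Finset.sum_eq_zero_iff.1 (hn.trans h0)) i (Finset.mem_univ _)
    simpa using this
  · have := ih _ (by omega) y hy rfl
    ext1 i
    rw [hxy, this]; simp

lemma gauss_finite (C : ℝ) : {r : Zi | ‖(r : ℂ)‖ ≤ C}.Finite := by
  obtain ⟨n, hn⟩ := exists_nat_ge C
  refine (((Set.finite_Icc (-n : ℤ) n).prod (Set.finite_Icc (-n : ℤ) n)).image
    fun p => (⟨p.1, p.2⟩ : Zi)).subset fun r hr => ⟨(r.re, r.im), ⟨?_, ?_⟩, rfl⟩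
  · have : |(r.re : ℝ)| ≤ n := by
      rw [GaussianInt.intCast_re]; exact (abs_re_le_norm _).trans (hr.trans hn)
    exact abs_le.1 (by exact_mod_cast this)
  · have : |(r.im : ℝ)| ≤ n := by
      rw [GaussianInt.intCast_im]; exact (abs_im_le_norm _).trans (hr.trans hn)
    exact abs_le.1 (by exact_mod_cast this)

noncomputable def al : ℂ := (IsAlgClosed.exists_pow_nat_eq (1 + I : ℂ) two_pos).choose

lemma al_sq : al ^ 2 = (a0 : ℂ) := by
  rw [a0, GaussianInt.toComplex_def']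
  simpa [al] using (IsAlgClosed.exists_pow_nat_eq (1 + I : ℂ) two_pos).choose_spec

lemma al_norm : 1 ≤ ‖al‖ ∧ ‖al‖ ≤ 2 := by
  have h : ‖al‖ ^ 4 = 2 := by
    rw [show ‖al‖ ^ 4 = ‖al ^ 2‖ ^ 2 by rw [norm_pow]; ring, al_sq, Complex.sq_norm,
      ← GaussianInt.intCast_real_norm]
    norm_num [a0, Zsqrtd.norm]
  have := norm_nonneg al
  constructor
  · by_contra hc
    have := pow_le_one₀ (n := 4) this (not_le.1 hc).le
    linarith
  · by_contra hc
    have := pow_le_pow_left₀ two_pos.le (not_le.1 hc).le 4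
    linarith

noncomputable def qA (x : Q) : ℂ := x 0 + al * x 1
noncomputable def qB (x : Q) : ℂ := 3 * (x 2 + al * x 3)
noncomputable def qC (x : Q) : ℂ := x 2 - al * x 3
noncomputable def qD (x : Q) : ℂ := x 0 - al * x 1

lemma q_det (x : Q) : qA x * qD x - qB x * qC x = qN x := by
  simp only [qA, qB, qC, qD, qN, map_sub, map_mul, map_pow, map_ofNat, ← al_sq]
  ring

def InO (a b c d : ℂ) : Prop := ∃ x : Q, a = qA x ∧ b = qB x ∧ c = qC x ∧ d = qD x

lemma InO.mul {a b c d a' b' c' d' : ℂ} (h : InO a b c d) (h' : InO a' b' c' d') :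
    InO (a * a' + b * c') (a * b' + b * d') (c * a' + d * c') (c * b' + d * d') := by
  obtain ⟨x, rfl, rfl, rfl, rfl⟩ := h
  obtain ⟨y, rfl, rfl, rfl, rfl⟩ := h'
  refine ⟨![x 0 * y 0 + a0 * x 1 * y 1 + 3 * (x 2 * y 2 - a0 * x 3 * y 3),
    x 0 * y 1 + x 1 * y 0 + 3 * (x 3 * y 2 - x 2 * y 3),
    x 0 * y 2 + a0 * x 1 * y 3 + x 2 * y 0 - a0 * x 3 * y 1,
    x 0 * y 3 + x 1 * y 2 - x 2 * y 1 + x 3 * y 0], ?_, ?_, ?_, ?_⟩ <;>
  simp [qA, qB, qC, qD, map_ofNat, ← al_sq] <;> ring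

lemma InO.adj {a b c d : ℂ} (h : InO a b c d) : InO d (-b) (-c) a := by
  obtain ⟨x, rfl, rfl, rfl, rfl⟩ := h
  refine ⟨![x 0, -x 1, -x 2, -x 3], ?_, ?_, ?_, ?_⟩ <;> simp [qA, qB, qC, qD] <;> ring

lemma InO.add_one {a b c d : ℂ} (h : InO a b c d) : InO (1 + a) b c (1 + d) := by
  obtain ⟨x, rfl, rfl, rfl, rfl⟩ := h
  refine ⟨![1 + x 0, x 1, x 2, x 3], ?_, ?_, ?_, ?_⟩ <;> simp [qA, qB, qC, qD] <;> ring

def Lam : Subgroup SL where
  carrier := {g | InO g.a g.b g.c g.d}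
  one_mem' := ⟨![1, 0, 0, 0], by simp [qA], by simp [qB], by simp [qC], by simp [qD]⟩
  mul_mem' := InO.mul
  inv_mem' := InO.adj

lemma Lam_ell : ∀ g ∈ Lam, ∀ t : ℝ, |t| < 2 → tr g ≠ t := by
  rintro g ⟨x, h1, h2, h3, h4⟩ t ht h
  have hN : qN x = 1 := by
    rw [← GaussianInt.toComplex_inj, ← q_det, ← h1, ← h2, ← h3, ← h4, g.det]; simp
  have e : 2 * (x 0 : ℂ) = t := by rw [← h, tr, h1, h4, qA, qD]; ring
  have e1 : 2 * ((x 0).re : ℝ) = t := by simpa using congrArg Complex.re e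
  have e2 : (x 0).im = 0 := by
    have := congrArg Complex.im e
    simp only [mul_im, re_ofNat, im_ofNat, ← GaussianInt.intCast_im, ofReal_im] at this
    have : ((x 0).im : ℝ) = 0 := by linarith
    exact_mod_cast this
  have e3 : (x 0).re = 0 := by
    have : |((x 0).re : ℝ)| < 1 := by rw [← e1, abs_mul, abs_two] at ht; linarith
    have : |(x 0).re| < 1 := by exact_mod_cast this
    exact Int.abs_lt_one_iff.1 this
  have e4 : x 0 = 0 := Zsqrtd.ext e3 e2
  have e5 : (⟨0, 1⟩ : Zi) ^ 2 = -1 := by decide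
  have := (mod3 ⟨0, 1⟩ (x 1) ⟨x 2 ^ 2 - a0 * x 3 ^ 2, by
    rw [qN, e4] at hN; linear_combination hN + e5⟩).1
  have := ((Zsqrtd.intCast_dvd 3 _).1 this).2
  revert this
  decide

lemma Lam_fin (R : ℝ) : {g | g ∈ Lam ∧ nm g ≤ R}.Finite := by
  have h1 : {x : Q | ∀ i, x i ∈ {r : Zi | ‖(r : ℂ)‖ ≤ R}}.Finite :=
    Set.Finite.pi' fun _ => gauss_finite R
  refine (h1.biUnion (t := fun x => {g : SL | g.a = qA x ∧ g.b = qB x ∧ g.c = qC x ∧ g.d = qD x})
    fun x _ => Set.Subsingleton.finite ?_).subset ?_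
  · rintro g ⟨a1, a2, a3, a4⟩ h ⟨b1, b2, b3, b4⟩
    ext <;> simp [*]
  rintro g ⟨⟨x, a1, a2, a3, a4⟩, hR⟩
  refine Set.mem_biUnion (fun i => ?_) ⟨a1, a2, a3, a4⟩
  unfold nm at hR
  have := norm_nonneg g.a; have := norm_nonneg g.b; have := norm_nonneg g.c; have := norm_nonneg g.d
  have k : ∀ z : ℂ, ‖z‖ ≤ ‖al * z‖ := fun z => by
    rw [norm_mul]; nlinarith [al_norm.1, norm_nonneg z]
  have k2 : ∀ (z u v : ℂ) (s t : ℝ), |s| ≤ 1 → |t| ≤ 1 → z = s * u + t * v → ‖z‖ ≤ ‖u‖ + ‖v‖ := by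
    rintro z u v s t hs ht rfl
    refine (norm_add_le _ _).trans ?_
    simp only [norm_mul, norm_real, Real.norm_eq_abs]
    nlinarith [norm_nonneg u, norm_nonneg v]
  have n1 : |(1 / 2 : ℝ)| ≤ 1 := by rw [abs_le]; norm_num
  have n2 : |(-1 / 2 : ℝ)| ≤ 1 := by rw [abs_le]; norm_num
  have n3 : |(1 / 6 : ℝ)| ≤ 1 := by rw [abs_le]; norm_num
  fin_cases i
  · have := k2 (x 0) g.a g.d _ _ n1 n1 (by rw [a1, a4, qA, qD]; push_cast; ring)
    show ‖(x 0 : ℂ)‖ ≤ R; linarith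
  · have := k2 (al * x 1) g.a g.d _ _ n1 n2 (by rw [a1, a4, qA, qD]; push_cast; ring)
    show ‖(x 1 : ℂ)‖ ≤ R; linarith [k (x 1)]
  · have := k2 (x 2) g.b g.c _ _ n3 n1 (by rw [a2, a3, qB, qC]; push_cast; ring)
    show ‖(x 2 : ℂ)‖ ≤ R; linarith
  · have := k2 (al * x 3) g.b g.c _ _ n3 n2 (by rw [a2, a3, qB, qC]; push_cast; ring)
    show ‖(x 3 : ℂ)‖ ≤ R; linarith [k (x 3)]

end Pool.Agent.MP_e37573_al

end

-- part MP_e37573_al.Coc
section

/-!
Cocompactness of the arithmetic lattice.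
-/

namespace Pool.Agent.MP_e37573_al

open SL Complex

lemma pigeon8 (φ : (Fin 4 × Fin 2 → ℤ) → Fin 4 → ℝ) (hsub : ∀ x y j, φ (x - y) j = φ x j - φ y j)
    {B : ℝ} (hB : 0 < B) {N : ℕ} (hN : 1 ≤ N)
    (hφ : ∀ x, (∀ i, |x i| ≤ (N : ℤ)) → ∀ j, |φ x j| ≤ B * N) :
    ∃ x ≠ 0, (∀ i, |x i| ≤ (N : ℤ)) ∧ ∀ j, |φ x j| ≤ 2 * B / N := by
  have hN' : (0 : ℝ) < N := by exact_mod_cast hN
  obtain ⟨x, hx, y, hy, hxy, h⟩ := Finset.exists_ne_map_eq_of_card_lt_of_maps_to
    (s := Fintype.piFinset fun _ : Fin 4 × Fin 2 => Finset.Icc (0 : ℤ) N)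
    (t := Fintype.piFinset fun _ : Fin 4 => Finset.Icc (0 : ℤ) (N ^ 2 : ℕ))
    (f := fun x j => ⌊(φ x j + B * N) * N / (2 * B)⌋)
    (by
      simp only [Fintype.card_piFinset, Int.card_Icc, Finset.prod_const, Finset.card_univ,
        Fintype.card_prod, Fintype.card_fin, sub_zero]
      rw [show ((N ^ 2 : ℕ) : ℤ) + 1 = (N ^ 2 + 1 : ℕ) by push_cast; ring,
        show (N : ℤ) + 1 = (N + 1 : ℕ) by push_cast; ring, Int.toNat_natCast, Int.toNat_natCast,
        show 4 * 2 = 2 * 4 by rfl, pow_mul]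
      exact Nat.pow_lt_pow_left (by nlinarith) (by norm_num))
    (by
      intro x hx
      have hx' := fun j => abs_le.1 (hφ x (fun i => by
        have := Finset.mem_Icc.1 (Fintype.mem_piFinset.1 hx i)
        rw [abs_le]; omega) j)
      refine Fintype.mem_piFinset.2 fun j => Finset.mem_Icc.2 ⟨Int.floor_nonneg.2 ?_, ?_⟩
      · have := (hx' j).1
        have : 0 ≤ φ x j + B * N := by linarith
        positivity
      · rw [Int.floor_le_iff]
        have := (hx' j).2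
        have : (φ x j + B * N) * N / (2 * B) ≤ N ^ 2 := by
          rw [div_le_iff₀ (by positivity)]; nlinarith
        push_cast; linarith)
  refine ⟨x - y, sub_ne_zero.2 hxy, fun i => ?_, fun j => ?_⟩
  · have := Finset.mem_Icc.1 (Fintype.mem_piFinset.1 hx i)
    have := Finset.mem_Icc.1 (Fintype.mem_piFinset.1 hy i)
    rw [abs_le, Pi.sub_apply]; omega
  · have := Int.abs_sub_lt_one_of_floor_eq_floor (congrFun h j)
    rw [show (φ x j + B * N) * N / (2 * B) - (φ y j + B * N) * N / (2 * B) =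
      (φ x j - φ y j) * (N / (2 * B)) by ring, abs_mul, abs_of_pos (a := (N : ℝ) / (2 * B)) (by positivity),
      ← mul_div_assoc, div_lt_one (by positivity)] at this
    rw [hsub, le_div_iff₀ hN']
    exact this.le

def toQ (y : Fin 4 × Fin 2 → ℤ) : Q := fun i => ⟨y (i, 0), y (i, 1)⟩

lemma toQ_bound {y : Fin 4 × Fin 2 → ℤ} {N : ℕ} (h : ∀ i, |y i| ≤ N) :
    ‖qA (toQ y)‖ ≤ 18 * N ∧ ‖qB (toQ y)‖ ≤ 18 * N ∧ ‖qC (toQ y)‖ ≤ 18 * N ∧
      ‖qD (toQ y)‖ ≤ 18 * N := by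
  have h1 : ∀ i, ‖(toQ y i : ℂ)‖ ≤ 2 * N := fun i => by
    refine (norm_le_abs_re_add_abs_im _).trans ?_
    rw [← GaussianInt.intCast_re, ← GaussianInt.intCast_im]
    have a : |((y (i, 0) : ℤ) : ℝ)| ≤ N := by exact_mod_cast h (i, 0)
    have b : |((y (i, 1) : ℤ) : ℝ)| ≤ N := by exact_mod_cast h (i, 1)
    simp only [toQ]
    linarith
  have h2 : ∀ i, ‖al * (toQ y i : ℂ)‖ ≤ 4 * N := fun i => by
    rw [norm_mul]
    nlinarith [al_norm.2, h1 i, norm_nonneg (toQ y i : ℂ), norm_nonneg al]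
  have h3 : (0 : ℝ) ≤ N := by positivity
  refine ⟨(norm_add_le _ _).trans ?_, ?_, (norm_sub_le _ _).trans ?_, (norm_sub_le _ _).trans ?_⟩
  · linarith [h1 0, h2 1]
  · rw [qB, norm_mul, Complex.norm_ofNat]
    linarith [h1 2, h2 3, norm_add_le (toQ y 2 : ℂ) (al * toQ y 3)]
  · linarith [h1 2, h2 3]
  · linarith [h1 0, h2 1]

lemma norm_comb {x y u v : ℂ} {A s : ℝ} (hx : ‖x‖ ≤ A) (hy : ‖y‖ ≤ A) (hu : ‖u‖ ≤ s)
    (hv : ‖v‖ ≤ s) : ‖x * u + y * v‖ ≤ 2 * A * s := by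
  refine (norm_add_le _ _).trans ?_
  have := (norm_nonneg x).trans hx
  rw [norm_mul, norm_mul]
  have : ‖x‖ * ‖u‖ ≤ A * s := by gcongr
  have : ‖y‖ * ‖v‖ ≤ A * s := by gcongr
  linarith

lemma small {N : ℕ} (hN : 1 ≤ N) {u v : ℂ} (hu : ‖u‖ ≤ 1) (hv : ‖v‖ ≤ 1) : ∃ x : Q, x ≠ 0 ∧
    (‖qA x‖ ≤ 18 * N ∧ ‖qB x‖ ≤ 18 * N ∧ ‖qC x‖ ≤ 18 * N ∧ ‖qD x‖ ≤ 18 * N) ∧
    ‖qA x * u + qB x * v‖ ≤ 144 / N ∧ ‖qC x * u + qD x * v‖ ≤ 144 / N := by
  obtain ⟨y, h0, h1, h2⟩ := pigeon8 (fun y => ![(qA (toQ y) * u + qB (toQ y) * v).re,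
    (qA (toQ y) * u + qB (toQ y) * v).im, (qC (toQ y) * u + qD (toQ y) * v).re,
    (qC (toQ y) * u + qD (toQ y) * v).im]) (B := 36) (N := N)
    (fun x y j => by
      have e : ∀ i, toQ (x - y) i = toQ x i - toQ y i := fun i => rfl
      have e1 : qA (toQ (x - y)) * u + qB (toQ (x - y)) * v =
          qA (toQ x) * u + qB (toQ x) * v - (qA (toQ y) * u + qB (toQ y) * v) := by
        simp only [qA, qB, e, map_sub]; ring
      have e2 : qC (toQ (x - y)) * u + qD (toQ (x - y)) * v =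
          qC (toQ x) * u + qD (toQ x) * v - (qC (toQ y) * u + qD (toQ y) * v) := by
        simp only [qC, qD, e, map_sub]; ring
      rw [e1, e2]
      fin_cases j <;> rfl) (by norm_num) hN
    (fun x hx j => by
      obtain ⟨a, b, c, d⟩ := toQ_bound hx
      have e1 := norm_comb a b hu hv
      have e2 := norm_comb c d hu hv
      fin_cases j
      · exact (abs_re_le_norm _).trans (by linarith)
      · exact (abs_im_le_norm _).trans (by linarith)
      · exact (abs_re_le_norm _).trans (by linarith)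
      · exact (abs_im_le_norm _).trans (by linarith))
  refine ⟨toQ y, fun k => h0 ?_, toQ_bound h1, (norm_le_abs_re_add_abs_im _).trans ?_,
    (norm_le_abs_re_add_abs_im _).trans ?_⟩
  · ext ⟨i, j⟩
    have := congrFun k i
    fin_cases j
    · exact congrArg Zsqrtd.re this
    · exact congrArg Zsqrtd.im this
  · exact (add_le_add (h2 0) (h2 1)).trans (le_of_eq (by ring))
  · exact (add_le_add (h2 2) (h2 3)).trans (le_of_eq (by ring))

lemma lu1 (g : SL) {t : ℝ} (ht : 0 < t) (h : ‖g.a‖ = t ∨ ‖g.c‖ = t) (hb : ‖g.b‖ ≤ t)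
    (hd : ‖g.d‖ ≤ t) : ∃ z : ℂ, ‖z‖ ≤ 1 ∧ ‖g.a * z + g.b‖ ≤ t⁻¹ ∧ ‖g.c * z + g.d‖ ≤ t⁻¹ := by
  have hdet := g.det
  rcases h with h | h
  · have h0 : g.a ≠ 0 := by rw [← norm_pos_iff, h]; exact ht
    refine ⟨-g.b / g.a, by rw [norm_div, norm_neg, h, div_le_one ht]; exact hb, ?_, ?_⟩
    · rw [show g.a * (-g.b / g.a) + g.b = 0 by field_simp; ring, norm_zero]; positivity
    · rw [show g.c * (-g.b / g.a) + g.d = g.a⁻¹ by field_simp; linear_combination hdet, norm_inv, h]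
  · have h0 : g.c ≠ 0 := by rw [← norm_pos_iff, h]; exact ht
    refine ⟨-g.d / g.c, by rw [norm_div, norm_neg, h, div_le_one ht]; exact hd, ?_, ?_⟩
    · rw [show g.a * (-g.d / g.c) + g.b = -g.c⁻¹ by field_simp; linear_combination -hdet, norm_neg,
        norm_inv, h]
    · rw [show g.c * (-g.d / g.c) + g.d = 0 by field_simp; ring, norm_zero]; positivity

lemma lu (g : SL) : ∃ (k : SL) (t : ℝ), nm k ≤ 3 ∧ 1 / 4 ≤ t ∧ ‖(g * k).a‖ ≤ t ∧ ‖(g * k).c‖ ≤ t ∧
    ‖(g * k).b‖ ≤ t⁻¹ ∧ ‖(g * k).d‖ ≤ t⁻¹ := by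
  set t := max (max ‖g.a‖ ‖g.c‖) (max ‖g.b‖ ‖g.d‖) with ht
  have ha : ‖g.a‖ ≤ t := by simp [ht]
  have hb : ‖g.b‖ ≤ t := by simp [ht]
  have hc : ‖g.c‖ ≤ t := by simp [ht]
  have hd : ‖g.d‖ ≤ t := by simp [ht]
  have h4 : 1 / 4 ≤ t := by have := one_le_nm g; unfold nm at this; linarith
  have h0 : 0 < t := by linarith
  rcases max_choice (max ‖g.a‖ ‖g.c‖) (max ‖g.b‖ ‖g.d‖) with h | h
  · obtain ⟨z, h1, h2, h3⟩ := lu1 g h0 ((max_choice ‖g.a‖ ‖g.c‖).imp
      (fun k => by rw [ht, h, k]) fun k => by rw [ht, h, k]) hb hd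
    exact ⟨⟨1, z, 0, 1, by ring⟩, t, by simp [nm]; linarith, h4, by simpa using ha,
      by simpa using hc, by simpa using h2, by simpa using h3⟩
  · obtain ⟨z, h1, h2, h3⟩ := lu1 (g * ⟨0, -1, 1, 0, by ring⟩) h0 ((max_choice ‖g.b‖ ‖g.d‖).imp
      (fun k => by rw [ht, h, k]; simp) fun k => by rw [ht, h, k]; simp)
      (by simpa using ha) (by simpa using hc)
    exact ⟨⟨0, -1, 1, z, by ring⟩, t, by simp [nm]; linarith, h4, by simpa using hb,
      by simpa using hd, by simpa [add_comm] using h2, by simpa [add_comm] using h3⟩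

lemma mink (g : SL) : ∃ x : Q, x ≠ 0 ∧ ‖qA x * g.a + qB x * g.c‖ + ‖qA x * g.b + qB x * g.d‖ +
    ‖qC x * g.a + qD x * g.c‖ + ‖qC x * g.b + qD x * g.d‖ ≤ 2000 := by
  obtain ⟨k, t, hk, ht, ha, hc, hb, hd⟩ := lu g
  have h0 : 0 < t := by linarith
  have h1 : (t : ℂ) ≠ 0 := by exact_mod_cast h0.ne'
  set h := g * k with hh
  have hv : ∀ z : ℂ, ‖z‖ ≤ t → ‖z / t‖ ≤ 1 := fun z hz => by
    rw [norm_div, norm_real, Real.norm_of_nonneg h0.le, div_le_one h0]; exact hz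
  obtain ⟨x, x0, ⟨x1, x2, x3, x4⟩, x5, x6⟩ := small (N := ⌈t⌉₊) (Nat.ceil_pos.2 h0) (hv _ ha) (hv _ hc)
  have n1 := Nat.le_ceil t
  have n2 := (Nat.ceil_lt_add_one h0.le).le
  have k1 : ∀ p q : ℂ, ‖p * (h.a / t) + q * (h.c / t)‖ ≤ 144 / ⌈t⌉₊ → ‖p * h.a + q * h.c‖ ≤ 144 := by
    intro p q hp
    rw [show p * (h.a / t) + q * (h.c / t) = (p * h.a + q * h.c) / t by ring, norm_div, norm_real,
      Real.norm_of_nonneg h0.le, div_le_div_iff₀ h0 (by linarith)] at hp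
    nlinarith [norm_nonneg (p * h.a + q * h.c)]
  have k2 : 2 * (18 * (⌈t⌉₊ : ℝ)) * t⁻¹ ≤ 180 := by
    rw [← div_eq_mul_inv, div_le_iff₀ h0]; linarith
  have y1 := k1 _ _ x5
  have y2 := k1 _ _ x6
  have y3 := norm_comb x1 x2 hb hd
  have y4 := norm_comb x3 x4 hb hd
  have y5 := prod4 (qA x * h.a + qB x * h.c) (qA x * h.b + qB x * h.d) (qC x * h.a + qD x * h.c)
    (qC x * h.b + qD x * h.d) k⁻¹.a k⁻¹.b k⁻¹.c k⁻¹.d
  have y6 : ‖k⁻¹.a‖ + ‖k⁻¹.b‖ + ‖k⁻¹.c‖ + ‖k⁻¹.d‖ ≤ 3 := (nm_inv k).trans_le hk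
  have e : g = h * k⁻¹ := by rw [hh]; group
  refine ⟨x, x0, ?_⟩
  clear_value h
  subst e
  have y7 : ‖qA x * h.a + qB x * h.c‖ + ‖qA x * h.b + qB x * h.d‖ + ‖qC x * h.a + qD x * h.c‖ +
      ‖qC x * h.b + qD x * h.d‖ ≤ 648 := by linarith
  refine le_trans (le_of_eq ?_) (y5.trans ((mul_le_mul y7 y6 (by positivity)
    (by norm_num)).trans (by norm_num)))
  simp only [mul_a, mul_b, mul_c, mul_d]
  have r : ∀ p q r s u v w z : ℂ, p * (r * w + s * z) + q * (u * w + v * z) =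
    (p * r + q * u) * w + (p * s + q * v) * z := by intros; ring
  simp only [r]

theorem Lam_coc : ∃ R : ℝ, ∀ g : SL, ∃ γ ∈ Lam, nm (γ⁻¹ * g) ≤ R := by
  let C : ℝ := 2000 ^ 2
  let K : Set (Zi × Q) := {r : Zi | ‖(r : ℂ)‖ ≤ C} ×ˢ {x : Q | ∀ i, x i ∈ {r : Zi | ‖(r : ℂ)‖ ≤ C}}
  have hK : K.Finite := (gauss_finite C).prod (Set.Finite.pi' fun _ => gauss_finite C)
  let Rel : Zi × Q → Q → Prop := fun k x => qN x = k.1 ∧ ∀ i, k.1 ∣ x i - k.2 i
  have : ∀ k, ∃ y, ∀ x, Rel k x → Rel k y := fun k => by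
    by_cases h : ∃ y, Rel k y
    · obtain ⟨y, hy⟩ := h
      exact ⟨y, fun _ _ => hy⟩
    · exact ⟨0, fun x hx => absurd ⟨x, hx⟩ h⟩
  choose Y hY using this
  obtain ⟨B, hB⟩ := (hK.image fun k =>
    ‖qD (Y k)‖ + ‖-qB (Y k)‖ + ‖-qC (Y k)‖ + ‖qA (Y k)‖).bddAbove
  refine ⟨B * 2000, fun g => ?_⟩
  obtain ⟨x, x0, hx⟩ := mink g
  have n0 : qN x ≠ 0 := fun h => x0 (aniso x h)
  set n := qN x with hn
  have n1 : (n : ℂ) ≠ 0 := by simpa using n0
  have n2 : 1 ≤ ‖(n : ℂ)‖ := by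
    have : (1 : ℝ) ≤ n.norm := by exact_mod_cast GaussianInt.norm_pos.2 n0
    rw [GaussianInt.intCast_real_norm, ← Complex.sq_norm] at this
    nlinarith [norm_nonneg (n : ℂ)]
  have n3 : ‖(n : ℂ)‖ ≤ C := by
    have e : (n : ℂ) = (qA x * g.a + qB x * g.c) * (qC x * g.b + qD x * g.d) -
        (qA x * g.b + qB x * g.d) * (qC x * g.a + qD x * g.c) := by
      rw [← q_det]; linear_combination -(qA x * qD x - qB x * qC x) * g.det
    rw [e]
    refine (norm_sub_le _ _).trans ?_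
    rw [norm_mul, norm_mul]
    generalize qA x * g.a + qB x * g.c = p at *
    generalize qC x * g.b + qD x * g.d = q at *
    generalize qA x * g.b + qB x * g.d = r at *
    generalize qC x * g.a + qD x * g.c = s at *
    have := norm_nonneg p; have := norm_nonneg q; have := norm_nonneg r; have := norm_nonneg s
    simp only [C]
    nlinarith
  have hk : (n, fun i => x i % n) ∈ K := ⟨n3, fun i => by
    have : ((x i % n).norm : ℝ) < n.norm := by exact_mod_cast GaussianInt.norm_mod_lt (x i) n0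
    rw [GaussianInt.intCast_real_norm, GaussianInt.intCast_real_norm, ← Complex.sq_norm,
      ← Complex.sq_norm] at this
    exact (pow_le_pow_left₀ (norm_nonneg _) · 2 |> this.not_ge) |> lt_of_not_ge |>.le.trans n3⟩
  have hx' : Rel (n, fun i => x i % n) x := ⟨rfl, fun i => ⟨x i / n, by
    simp [GaussianInt.mod_def]⟩⟩
  have hb := hB (Set.mem_image_of_mem _ hk)
  obtain ⟨y1, y2⟩ := hY _ x hx'
  set y := Y (n, fun i => x i % n)
  have : ∀ i, ∃ z, x i = y i + n * z := fun i => by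
    obtain ⟨z, hz⟩ := dvd_sub (hx'.2 i) (y2 i)
    exact ⟨z, by linear_combination hz⟩
  choose z hz using this
  have dx := q_det x
  have dy := q_det y
  rw [y1] at dy
  rw [← hn] at dx
  have eA : qA x = qA y + n * qA z := by simp only [qA, hz, map_add, map_mul]; ring
  have eB : qB x = qB y + n * qB z := by simp only [qB, hz, map_add, map_mul]; ring
  have eC : qC x = qC y + n * qC z := by simp only [qC, hz, map_add, map_mul]; ring
  have eD : qD x = qD y + n * qD z := by simp only [qD, hz, map_add, map_mul]; ring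
  let γ : SL := ⟨(qD y * qA x + -qB y * qC x) / n, (qD y * qB x + -qB y * qD x) / n,
    (-qC y * qA x + qA y * qC x) / n, (-qC y * qB x + qA y * qD x) / n, by
      field_simp
      linear_combination (qA x * qD x - qB x * qC x) * dy + n * dx⟩
  refine ⟨γ⁻¹, Lam.inv_mem ?_, ?_⟩
  · have := ((InO.adj ⟨y, rfl, rfl, rfl, rfl⟩).mul ⟨z, rfl, rfl, rfl, rfl⟩).add_one
    show InO _ _ _ _
    convert this using 1 <;> simp only [γ, eA, eB, eC, eD] <;> field_simp
    · linear_combination dy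
    · ring
    · ring
    · linear_combination dy
  · have y5 := prod4 (qD y) (-qB y) (-qC y) (qA y) (qA x * g.a + qB x * g.c)
      (qA x * g.b + qB x * g.d) (qC x * g.a + qD x * g.c) (qC x * g.b + qD x * g.d)
    have k : ∀ w w' : ℂ, w' = w / n → ‖w'‖ ≤ ‖w‖ := by
      rintro w _ rfl
      rw [norm_div]; exact div_le_self (norm_nonneg _) n2
    refine le_trans ?_ (y5.trans (mul_le_mul hb hx (by positivity) (le_trans (by positivity) hb)))
    rw [inv_inv, nm]
    gcongr <;> apply k <;> simp only [γ, mul_a, mul_b, mul_c, mul_d] <;> ring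

theorem rates_nonempty : rates.Nonempty := Latt.nonempty ⟨Lam_fin, Lam_coc, Lam_ell⟩

end Pool.Agent.MP_e37573_al

end

-- part MP_e37573_al.Tower
section

/-!
All iterated derived sets of the set of growth rates are nonempty.
-/

namespace Pool.Agent.MP_e37573_al

open Filter Topology Pool.Agent.MP_646035_al Monoid Monoid.Coprod

def NoId (G : Type) [Group G] : Prop := ∀ F : Set (List (ℤ × G) × ℤ × G), F.Finite →
  (∀ x ∈ F, x.2.1 ≠ 0 ∧ ∀ y ∈ x.1, y.1 ≠ 0 ∧ y.2 ≠ 1) → ∃ w, ∀ x ∈ F, core w x.1 x.2.1 ≠ x.2.2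

def Disc (G L : Type) [Group G] [Group L] : Prop := ∀ F : Set L, F.Finite → (∀ x ∈ F, x ≠ 1) →
  ∃ φ : L →* G, Function.Surjective φ ∧ ∀ x ∈ F, φ x ≠ 1

lemma NoId.infinite {G : Type} [Group G] (h : NoId G) : Infinite G := by
  by_contra hc
  have := not_infinite_iff_finite.1 hc
  obtain ⟨w, hw⟩ := h _ (Set.finite_range fun c : G => (([] : List (ℤ × G)), (1 : ℤ), c)) (by
    rintro _ ⟨c, rfl⟩; simp)
  exact hw _ ⟨w, rfl⟩ (by simp [core])

lemma Latt.noId {Λ : Subgroup SL} (h : Latt Λ) (hΛ : Good Λ) : NoId (Λ.map mob) := by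
  intro F hF hF'
  have : ∀ x : Λ.map mob, ∃ g, mob g = x := fun x => by obtain ⟨g, -, h⟩ := x.2; exact ⟨g, h⟩
  choose s hs using this
  obtain ⟨w, hw, hw'⟩ := mif hΛ h.fg _ ((hF.image fun x => (x.1.map (Prod.map id s), x.2.1, s x.2.2)).union
    (hF.image fun x => (x.1.map (Prod.map id s), x.2.1, -s x.2.2))) (by
      rintro _ (⟨x, hx, rfl⟩ | ⟨x, hx, rfl⟩) <;> refine ⟨(hF' x hx).1, fun y hy => ?_⟩ <;>
        obtain ⟨z, hz, rfl⟩ := List.mem_map.1 hy <;> obtain ⟨a1, a2⟩ := (hF' x hx).2 z hz <;>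
        refine ⟨a1, fun k => a2 (Subtype.ext ?_), fun k => a2 (Subtype.ext ?_)⟩ <;>
        rw [← hs, show s z.2 = _ from k]
      · simp
      · exact (lift_mob _).right_unique Lift.one.neg
      · simp
      · exact (lift_mob _).right_unique Lift.one.neg)
  refine ⟨⟨mob w, w, hw, rfl⟩, fun x hx e => ?_⟩
  have e1 : mob (core w (x.1.map (Prod.map id s)) x.2.1) = mob (s x.2.2) := by
    rw [hs, ← e, map_core]
    refine Eq.trans ?_ (map_core (Λ.map mob).subtype _ _ _).symm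
    congr 1
    rw [List.map_map]
    exact List.map_congr_left fun y _ => Prod.ext rfl (hs _)
  rcases (lift_mob (s x.2.2)).left_unique (e1 ▸ lift_mob _) with k | k
  · exact hw' _ (Or.inl ⟨x, hx, rfl⟩) k
  · exact hw' _ (Or.inr ⟨x, hx, rfl⟩) k

section
variable {G L : Type} [Group G] [Group L]

abbrev Fr (L : Type) [Group L] := L ∗ Multiplicative ℤ

def tt : Fr L := inr (Multiplicative.ofAdd 1)

def ev (w : L) : Fr L →* L := lift (MonoidHom.id L) (zpowersHom L w)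

lemma inr_eq (n : Multiplicative ℤ) : (inr n : Fr L) = tt ^ n.toAdd := by
  rw [tt, ← map_zpow, ← ofAdd_zsmul]; simp

lemma normal_form (x : Fr L) : ∃ (a a' : L) (l : List (ℤ × L)) (n : ℤ), x = inl a ∨
    (n ≠ 0 ∧ (∀ y ∈ l, y.1 ≠ 0 ∧ y.2 ≠ 1) ∧ x = inl a * core tt (l.map (Prod.map id inl)) n * inl a') := by
  induction x using Coprod.induction_on' with
  | one => exact ⟨1, 1, [], 0, Or.inl (map_one _).symm⟩
  | inl_mul b x ih =>
    obtain ⟨a, a', l, n, rfl | ⟨h1, h2, rfl⟩⟩ := ih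
    · exact ⟨b * a, a', l, n, Or.inl (map_mul _ _ _).symm⟩
    · exact ⟨b * a, a', l, n, Or.inr ⟨h1, h2, by simp [mul_assoc]⟩⟩
  | inr_mul m x ih =>
    rw [inr_eq]
    generalize m.toAdd = k
    by_cases hk : k = 0
    · simpa [hk] using ih
    obtain ⟨a, a', l, n, rfl | ⟨h1, h2, rfl⟩⟩ := ih
    · exact ⟨1, a, [], k, Or.inr ⟨hk, by simp, by simp [core]⟩⟩
    by_cases ha : a = 1
    · subst ha
      cases l with
      | nil =>
        by_cases h : k + n = 0
        · exact ⟨a', a', [], n, Or.inl (by simp [core, ← mul_assoc, ← zpow_add, h])⟩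
        · exact ⟨1, a', [], k + n, Or.inr ⟨h, by simp, by simp [core, zpow_add, mul_assoc]⟩⟩
      | cons y l =>
        by_cases h : k + y.1 = 0
        · exact ⟨y.2, a', l, n, Or.inr ⟨h1, fun z hz => h2 z (by simp [hz]),
            by simp [core, ← mul_assoc, ← zpow_add, h]⟩⟩
        · refine ⟨1, a', (k + y.1, y.2) :: l, n, Or.inr ⟨h1, fun z hz => ?_,
            by simp [core, zpow_add, mul_assoc]⟩⟩
          rcases List.mem_cons.1 hz with rfl | hz
          · exact ⟨h, (h2 y (by simp)).2⟩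
          · exact h2 z (by simp [hz])
    · refine ⟨1, a', (k, a) :: l, n, Or.inr ⟨h1, fun z hz => ?_, by simp [core, mul_assoc]⟩⟩
      rcases List.mem_cons.1 hz with rfl | hz
      · exact ⟨hk, ha⟩
      · exact h2 z hz

lemma disc_step (hG : NoId G) (hL : Disc G L) (F : Set (Fr L)) (hF : F.Finite)
    (hF' : ∀ x ∈ F, x ≠ 1) : ∃ (w : L) (χ : L →* G), Function.Surjective χ ∧
      ∀ x ∈ F, χ (ev w x) ≠ 1 := by
  choose a a' l n h using normal_form (L := L)
  obtain ⟨χ, h1, h2⟩ := hL {b | b ∈ (a '' F ∪ ⋃ x ∈ F, Prod.snd '' {y | y ∈ l x}) ∧ b ≠ 1}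
    (((hF.image a).union (hF.biUnion fun x _ => (List.finite_toSet _).image _)).subset
      fun b hb => hb.1) fun b hb => hb.2
  obtain ⟨g, hg⟩ := hG _ ((hF.subset (fun x hx => hx.1 : {x | x ∈ F ∧ x ≠ inl (a x)} ⊆ F)).image
    fun x => ((l x).map (Prod.map id χ), n x, (χ (a x))⁻¹ * (χ (a' x))⁻¹)) (by
      rintro _ ⟨x, ⟨x1, x2⟩, rfl⟩
      obtain ⟨b1, b2, -⟩ := (h x).resolve_left x2
      refine ⟨b1, fun y hy => ?_⟩
      obtain ⟨z, hz, rfl⟩ := List.mem_map.1 hy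
      exact ⟨(b2 z hz).1, h2 _ ⟨Or.inr (Set.mem_biUnion x1 ⟨z, hz, rfl⟩), (b2 z hz).2⟩⟩)
  obtain ⟨w, rfl⟩ := h1 g
  refine ⟨w, χ, h1, fun x hx e => ?_⟩
  by_cases h3 : x = inl (a x)
  · rw [h3] at e
    exact h2 _ ⟨Or.inl ⟨x, hx, rfl⟩, fun k => hF' x hx (by rw [h3, k, map_one])⟩ e
  · obtain ⟨-, -, b3⟩ := (h x).resolve_left h3
    refine hg _ ⟨x, ⟨hx, h3⟩, rfl⟩ ?_
    rw [b3] at e
    simp only [map_mul, map_core, List.map_map] at e
    have e1 : χ (ev w tt) = χ w := by simp [ev, tt]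
    rw [e1, mul_eq_one_iff_eq_inv, ← eq_inv_mul_iff_mul_eq] at e
    exact e

lemma ev_surj (w : L) : Function.Surjective (ev w) := fun a => ⟨inl a, rfl⟩

lemma fg_step [Group.FG L] : Group.FG (Fr L) := by
  obtain ⟨S, h1, h2⟩ := Group.fg_iff.1 (inferInstance : Group.FG L)
  refine Group.fg_iff.2 ⟨insert tt (inl '' S), ?_, (h2.image _).insert _⟩
  rw [eq_top_iff, ← range_inl_sup_range_inr, sup_le_iff]
  constructor
  · rw [MonoidHom.range_eq_map, ← h1, MonoidHom.map_closure]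
    exact Subgroup.closure_mono (Set.subset_insert _ _)
  · rintro _ ⟨n, rfl⟩
    rw [inr_eq]
    exact Subgroup.zpow_mem _ (Subgroup.subset_closure (Set.mem_insert _ _)) _

lemma closure_image [DecidableEq G] {φ : L →* G} (hφ : Function.Surjective φ) {S : Finset L}
    (hS : Subgroup.closure (S : Set L) = ⊤) :
    Subgroup.closure ((S.image φ : Finset G) : Set G) = ⊤ := by
  rw [Finset.coe_image, ← MonoidHom.map_closure, hS, Subgroup.map_top_of_surjective _ hφ]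

lemma rate_image_le [DecidableEq G] (φ : L →* G) {S : Finset L} {e e' : ℝ} (he' : IsRate S e')
    (he : IsRate (S.image φ) e) : e ≤ e' :=
  le_of_tendsto_of_tendsto' he he' fun n => Real.rpow_le_rpow (by positivity)
    (by rw [ball_map]; exact_mod_cast Set.ncard_image_le (ball_finite S n)) (by positivity)

lemma der_step {E : Set ℝ} {j b : ℕ} (hG : NoId G) (hL : Disc G L)
    (hb : ∀ (S : Finset G) (e : ℝ), Subgroup.closure (S : Set G) = ⊤ → IsRate S e → ∀ m : ℕ,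
      ((ball S m).ncard : ℝ) ≤ 8 * (m + 4) * e ^ (m + b))
    (hQ : ∀ (S : Finset L) (e : ℝ), Subgroup.closure (S : Set L) = ⊤ → IsRate S e → e ∈ Der E j)
    (S : Finset (Fr L)) (e : ℝ) (hS : Subgroup.closure (S : Set (Fr L)) = ⊤) (he : IsRate S e) :
    e ∈ Der E (j + 1) := by
  classical
  have := hG.infinite
  have : Infinite L := by
    obtain ⟨φ, h, -⟩ := hL ∅ Set.finite_empty (by simp)
    exact Infinite.of_surjective φ h
  have key : ∀ m : ℕ, 0 < m → ∃ z ∈ Der E j, 1 ≤ z ∧ z < e ∧ e ^ m ≤ 8 * (m + 4) * z ^ (m + b) := by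
    intro m hm
    obtain ⟨w, χ, h1, h2⟩ := disc_step hG hL {x | x ∈ ball S (m + m) ∧ x ≠ 1}
      ((ball_finite S _).subset fun x hx => hx.1) fun x hx => hx.2
    obtain ⟨z, hz⟩ := exists_isRate (S.image (ev w))
    obtain ⟨z', hz'⟩ := exists_isRate ((S.image (ev w)).image χ)
    have h3 := closure_image (ev_surj w) hS
    let ψ : Fr L →* Multiplicative ℤ ≀ᵣ L := lift RegularWreathProduct.inl
      (zpowersHom _ ⟨Pi.mulSingle 1 (Multiplicative.ofAdd 1), w⟩)
    have h4 : ψ (tt * inl w⁻¹) = ⟨Pi.mulSingle 1 (Multiplicative.ofAdd 1), 1⟩ := by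
      ext <;> simp [ψ, tt]
    have h5 : ev w = RegularWreathProduct.rightHom.comp ψ :=
      hom_ext rfl (MonoidHom.ext_mint (by simp [ψ, ev]))
    refine ⟨z, hQ _ _ h3 hz, hz.one_le, strict (ψ := ψ) (u := tt * inl w⁻¹) (by rw [h4])
      (fun h hh => by rw [h4]; exact Pi.mulSingle_eq_of_ne hh _) (by rw [h4]; simp) (ev w)
      (fun x => by rw [h5]; rfl) hS h3 he hz, (rate_pow_le he hm).trans ?_⟩
    have h6 : (ball S m).ncard ≤ (ball ((S.image (ev w)).image χ) m).ncard := by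
      refine Set.ncard_le_ncard_of_injOn (fun x => χ (ev w x)) (fun x hx => ?_)
        (fun x hx y hy k => ?_) (ball_finite _ _)
      · rw [ball_map, ball_map]
        exact ⟨_, ⟨x, hx, rfl⟩, rfl⟩
      · by_contra hc
        refine h2 (x⁻¹ * y) ⟨mul_mem_ball (inv_mem_ball hx) hy, by rwa [Ne, inv_mul_eq_one]⟩ ?_
        simp only at k
        simp [k]
    have h7 := hb _ _ (closure_image h1 h3) hz' m
    have h8 := rate_image_le χ hz hz'
    have h9 := hz'.one_le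
    calc ((ball S m).ncard : ℝ) ≤ _ := by exact_mod_cast h6
      _ ≤ _ := h7
      _ ≤ _ := by gcongr
  intro y hy
  by_contra hc
  push Not at hc
  have h1 : ∀ m : ℕ, 0 < m → 0 < y ∧ e ^ m ≤ 8 * (m + 4) * y ^ (m + b) := fun m hm => by
    obtain ⟨z, z1, z2, z3, z4⟩ := key m hm
    have : z ≤ y := by by_contra k; exact absurd (hc z z1 (not_le.1 k)) (not_le.2 z3)
    exact ⟨by linarith, z4.trans (by gcongr)⟩
  exact absurd (le_of_pow_le (h1 1 one_pos).1 fun m hm => (h1 m hm).2) (not_le.2 hy)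

end

lemma Lam_latt : Latt Lam := ⟨Lam_fin, Lam_coc, Lam_ell⟩

lemma Lam_good : Good Lam := by
  have hneg : -1 ∈ Lam := ⟨![-1, 0, 0, 0], by simp [qA], by simp [qB], by simp [qC], by simp [qD]⟩
  convert Lam_latt.closed.good
  ext g
  refine ⟨fun h => ⟨_, ⟨g, h, rfl⟩, lift_mob g⟩, ?_⟩
  rintro ⟨_, ⟨h, h1, rfl⟩, h2⟩
  rcases (lift_mob h).left_unique h2 with rfl | rfl
  · exact h1
  · simpa using Lam.mul_mem hneg h1

theorem rates_lower (j : ℕ) : (Der rates j).Nonempty := by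
  obtain ⟨b, hb⟩ := main_hyp
  have hG := Lam_latt.noId Lam_good
  have key : ∃ (L : Type) (_ : Group L), Group.FG L ∧ Disc (Lam.map mob) L ∧
      ∀ (S : Finset L) (e : ℝ), Subgroup.closure (S : Set L) = ⊤ → IsRate S e → e ∈ Der rates j := by
    induction j with
    | zero =>
      refine ⟨Lam.map mob, inferInstance, ?_, fun F _ hF => ⟨MonoidHom.id _, fun x => ⟨x, rfl⟩, hF⟩,
        fun S e hS he y hy => ⟨e, ⟨_, Lam_latt.closed, S, hS, he⟩, hy, le_rfl⟩⟩
      obtain ⟨S, hS, hf⟩ := (Subgroup.fg_iff _).1 Lam_latt.fg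
      exact (Group.fg_iff_subgroup_fg _).2 ((Subgroup.fg_iff _).2
        ⟨mob '' S, by rw [← MonoidHom.map_closure, hS], hf.image _⟩)
    | succ j ih =>
      obtain ⟨L, _, h1, h2, h3⟩ := ih
      refine ⟨Fr L, inferInstance, fg_step, fun F hF hF' => ?_,
        der_step hG h2 (hb _ Lam_latt.closed) h3⟩
      obtain ⟨w, χ, a1, a2⟩ := disc_step hG h2 F hF hF'
      exact ⟨χ.comp (ev w), a1.comp (ev_surj w), a2⟩
  obtain ⟨L, _, h1, -, h3⟩ := key
  obtain ⟨S, hS⟩ := Group.fg_def.1 h1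
  obtain ⟨e, he⟩ := exists_isRate S
  exact ⟨e, h3 S e hS he⟩

end Pool.Agent.MP_e37573_al

end
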